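import Pool.Agent.Work.MP_70e905_nt.PK.P.LFb
import Pool.Agent.Work.MP_70e905_nt.PK.S.Wts
import Pool.Agent.Work.MP_70e905_nt.PK.S.GLow

/-!
# PK/P/Maj (size S-M): the majorant

PROOF. `a = 1 / (64 (hm + 1))`. Given `η, κ` take `w0` from `lf_box n hm κ η`, given `w ≥ w0` take `M0` from `lf_box`, `par_low hm w` and `par`.
With `z = zf hm M`, `R = Rf hm M` let `ρ` be from `wts (prs z R)`, `ν = nu w z R ρ`. `ν ≥ 0`: `Qf > 0` (`qf_upper`), `Wt.nonneg`. If `p ≥ M` is prime then no `q ∈ prs w z`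
and no `q ∈ prs z R` divides `p` (`q ≤ z < M ≤ p`, `q ≤ R < M ≤ p`), so the only `T` in the sum is `∅`: `ν p = Qf w z R * ρ ∅ = Qf w z R ≥ log R ∏_{q ∈ prs 0 w} (1 - 1 / q)`
(`qf_lower`) `≥ a log M ∏ ..` (`par_low`).
-/

set_option autoImplicit false

namespace PoolPK

open Finset

theorem maj (n hm : ℕ) : ∃ a : ℝ, 0 < a ∧ ∀ κ η : ℝ, 0 < κ → 0 < η → ∃ w0 : ℕ, ∀ w : ℕ, w0 ≤ w →
    ∃ M0 : ℕ, ∀ M : ℕ, M0 ≤ M → ∃ ν : ℤ → ℝ, (∀ m, 0 ≤ ν m) ∧
      (∀ p : ℕ, p.Prime → M ≤ p →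
        a * (Real.log M * ∏ q ∈ prs 0 w, (1 - 1 / (q : ℝ))) ≤ ν p) ∧
      ∀ (V : Type) [Fintype V] [DecidableEq V], Fintype.card V ≤ n →
      ∀ (H : Finset (V × V)) (b c : V × V → ℤ), Ok H c w → #H ≤ hm →
      ∀ (A : V → ℤ) (l : V → ℕ), (∀ i, κ * M ≤ (l i : ℝ)) →
        |∑ v ∈ box A l, ∏ e ∈ H, ν (psi b c e v) - ∏ i, (l i : ℝ)| ≤ η * ∏ i, (l i : ℝ) := by
  refine ⟨1 / (64 * (hm + 1)), by positivity, fun κ η hκ hη => ?_⟩
  obtain ⟨w0, hw0⟩ := lf_box n hm κ η hκ hη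
  refine ⟨w0, fun w hw => ?_⟩
  obtain ⟨M1, hM1⟩ := hw0 w hw
  obtain ⟨M2, hM2⟩ := par_low hm w
  obtain ⟨M3, hM3⟩ := par n hm κ η hκ hη
  refine ⟨max M1 (max M2 M3), fun M hM => ?_⟩
  have hMM1 : M1 ≤ M := (le_max_left _ _).trans hM
  have hMM2 : M2 ≤ M := (le_max_left _ _).trans ((le_max_right _ _).trans hM)
  have hMM3 : M3 ≤ M := (le_max_right _ _).trans ((le_max_right _ _).trans hM)
  obtain ⟨hlog, hRM, hzM, hwz⟩ := hM2 M hMM2
  obtain ⟨hz, hR, -, -, -⟩ := hM3 M hMM3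
  have hmain := hM1 M hMM1
  obtain ⟨z, hzdef⟩ : ∃ z : ℕ, z = zf hm M := ⟨_, rfl⟩
  obtain ⟨R, hRdef⟩ : ∃ R : ℕ, R = Rf hm M := ⟨_, rfl⟩
  rw [← hzdef, ← hRdef] at hmain
  rw [← hzdef] at hz hzM hwz
  rw [← hRdef] at hR hRM hlog
  have hRM' : R < M := by
    refine lt_of_le_of_lt ?_ hRM
    rw [pow_two]
    exact Nat.le_mul_of_pos_left R hR
  obtain ⟨ρ, hρ⟩ := wts (prs z R) (fun p hp => (mem_filter.1 hp).2) R hR
  have hQ0 : 0 < Qf w z R := by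
    obtain ⟨Cq, -, hCq⟩ := qf_upper
    exact (hCq w z R hz hR).1
  refine ⟨nu w z R ρ, fun m => ?_, fun p hp hMp => ?_, ?_⟩
  · unfold nu
    split_ifs
    · exact mul_nonneg hQ0.le (hρ.nonneg m)
    · exact le_rfl
  · have hnd : ∀ q : ℕ, q.Prime → q < M → ¬ (q : ℤ) ∣ (p : ℤ) := by
      intro q hq hqM h
      have h1 : q ∣ p := Int.natCast_dvd_natCast.1 h
      rcases (Nat.dvd_prime hp).1 h1 with h2 | h2
      · exact hq.one_lt.ne' h2
      · omega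
    have h1 : ∀ q ∈ prs w z, ¬ (q : ℤ) ∣ (p : ℤ) := by
      intro q hq
      rw [prs, mem_filter, mem_Ioc] at hq
      exact hnd q hq.2 (by omega)
    have h2 : tsum' (prs z R) (R ^ 2) ρ (p : ℤ) = 1 := by
      unfold tsum'
      rw [sum_eq_single_of_mem ∅]
      · rw [if_pos (fun q hq => absurd hq (notMem_empty q)), hρ.empty]
      · rw [fam, mem_filter, mem_powerset]
        refine ⟨empty_subset _, ?_⟩
        rw [prod_empty]
        exact Nat.one_le_pow _ _ hR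
      · intro T hT hT0
        obtain ⟨q, hq⟩ := nonempty_iff_ne_empty.2 hT0
        rw [if_neg]
        intro h
        rw [fam, mem_filter, mem_powerset] at hT
        have h3 := hT.1 hq
        rw [prs, mem_filter, mem_Ioc] at h3
        exact hnd q h3.2 (by omega) (h q hq)
    have h3 : nu w z R ρ (p : ℤ) = Qf w z R := by
      unfold nu
      rw [if_pos h1, h2, mul_one]
    rw [h3]
    refine le_trans ?_ (qf_lower w z R hwz hR)
    have hP0 : 0 ≤ ∏ q ∈ prs 0 w, (1 - 1 / (q : ℝ)) := by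
      refine prod_nonneg fun q hq => ?_
      rw [prs, mem_filter, mem_Ioc] at hq
      have h4 : (1 : ℝ) ≤ q := by exact_mod_cast hq.2.one_lt.le
      have h5 : 1 / (q : ℝ) ≤ 1 := by
        rw [div_le_one (by linarith)]
        exact h4
      linarith
    have h6 : 1 / (64 * ((hm : ℝ) + 1)) * (Real.log M * ∏ q ∈ prs 0 w, (1 - 1 / (q : ℝ))) =
        Real.log M / (64 * (hm + 1)) * ∏ q ∈ prs 0 w, (1 - 1 / (q : ℝ)) := by ring
    rw [h6]
    exact mul_le_mul_of_nonneg_right hlog hP0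
  · intro V _ _ hV H b c hok hH A l hl
    exact hmain ρ hρ V hV H b c hok hH A l hl

end PoolPK
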