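import Pool.Agent.Work.MP_70e905_nt.PK.P.Defs

/-!
# PK/P/Den (size M): densities of periodic conditions, Chinese remainder theorem

PROOF. `card (cube V q) = q ^ card V`. `dens_mul`: by the Chinese remainder theorem the map
`cube V (q₁ q₂) → cube V q₁ × cube V q₂`, `v ↦ (v mod q₁, v mod q₂)` (coordinatewise `%`), is a bijection
(`q₁, q₂` coprime and positive: `Int.emod_emod_of_dvd`, `Nat.chineseRemainder` or injectivity and equal cardinalities), and
`C₁ v ↔ C₁ (v mod q₁)`, `C₂ v ↔ C₂ (v mod q₂)`. `dens_prod`: induction on `s` with `dens_mul` (a prime outside of `s` is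
coprime to `∏ s`; a condition which is periodic modulo `p` is periodic modulo every multiple of `p`).
`per_bad`, `per_all`: `psi b c e v' - psi b c e v = c e ((v' e.2 - v e.2) - (v' e.1 - v e.1))`.
-/

set_option autoImplicit false

namespace PoolPK

open Finset

variable {V : Type} [Fintype V] [DecidableEq V]

theorem card_cube (q : ℕ) : #(cube V q) = q ^ Fintype.card V := by
  rw [cube, Fintype.card_piFinset]
  simp

private theorem mem_cube' {q : ℕ} {v : V → ℤ} : v ∈ cube V q ↔ ∀ i, 0 ≤ v i ∧ v i < q := by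
  rw [cube, Fintype.mem_piFinset]
  simp

private theorem dens_congr (q : ℕ) {C D : (V → ℤ) → Prop} (h : ∀ v, C v ↔ D v) :
    dens q C = dens q D := by
  have : C = D := funext fun v => propext (h v)
  rw [this]

private theorem dens_def' (q : ℕ) (C : (V → ℤ) → Prop) [DecidablePred C] :
    dens q C = (#((cube V q).filter C) : ℝ) / (q : ℝ) ^ (Fintype.card V) := by
  have h : @Finset.filter _ C (fun a => Classical.propDecidable (C a)) (cube V q) =
      Finset.filter C (cube V q) := by
    ext v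
    simp only [Finset.mem_filter]
  unfold dens
  rw [h]

theorem dens_nonneg (q : ℕ) (C : (V → ℤ) → Prop) : 0 ≤ dens q C := by
  unfold dens
  positivity

theorem dens_le_one (q : ℕ) (C : (V → ℤ) → Prop) : dens q C ≤ 1 := by
  classical
  unfold dens
  refine div_le_one_of_le₀ ?_ (by positivity)
  have h1 := Finset.card_filter_le (cube V q) C
  rw [card_cube] at h1
  exact_mod_cast h1

theorem dens_mono (q : ℕ) (C D : (V → ℤ) → Prop) (h : ∀ v, C v → D v) : dens q C ≤ dens q D := by
  classical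
  rw [dens_def', dens_def']
  refine div_le_div_of_nonneg_right ?_ (by positivity)
  refine Nat.cast_le.2 (Finset.card_le_card ?_)
  intro v hv
  rw [Finset.mem_filter] at hv ⊢
  exact ⟨hv.1, h v hv.2⟩

theorem dens_mul (q₁ q₂ : ℕ) (h1 : 0 < q₁) (h2 : 0 < q₂) (h : Nat.Coprime q₁ q₂)
    (C₁ C₂ : (V → ℤ) → Prop) (hC₁ : Per q₁ C₁) (hC₂ : Per q₂ C₂) :
    dens (q₁ * q₂) (fun v => C₁ v ∧ C₂ v) = dens q₁ C₁ * dens q₂ C₂ := by
  classical
  have h1' : (0 : ℤ) < q₁ := by exact_mod_cast h1
  have h2' : (0 : ℤ) < q₂ := by exact_mod_cast h2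
  have hco : IsCoprime (q₁ : ℤ) (q₂ : ℤ) := Nat.isCoprime_iff_coprime.2 h
  have key : #((cube V (q₁ * q₂)).filter (fun v => C₁ v ∧ C₂ v)) =
      #((cube V q₁).filter C₁) * #((cube V q₂).filter C₂) := by
    rw [← Finset.card_product]
    refine Finset.card_bij (fun v _ => (fun i => v i % (q₁ : ℤ), fun i => v i % (q₂ : ℤ))) ?_ ?_ ?_
    · intro v hv
      rw [Finset.mem_filter, mem_cube'] at hv
      rw [Finset.mem_product, Finset.mem_filter, Finset.mem_filter, mem_cube', mem_cube']
      refine ⟨⟨fun i => ⟨Int.emod_nonneg _ h1'.ne', Int.emod_lt_of_pos _ h1'⟩, ?_⟩,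
        ⟨fun i => ⟨Int.emod_nonneg _ h2'.ne', Int.emod_lt_of_pos _ h2'⟩, ?_⟩⟩
      · exact (hC₁ _ _ fun i => Int.dvd_self_sub_emod).2 hv.2.1
      · exact (hC₂ _ _ fun i => Int.dvd_self_sub_emod).2 hv.2.2
    · intro v hv v' hv' he
      rw [Finset.mem_filter, mem_cube'] at hv hv'
      rw [Prod.mk.injEq] at he
      funext i
      have e1 := congrFun he.1 i
      have e2 := congrFun he.2 i
      have d1 : (q₁ : ℤ) ∣ v i - v' i := Int.modEq_iff_dvd.1 e1.symm
      have d2 : (q₂ : ℤ) ∣ v i - v' i := Int.modEq_iff_dvd.1 e2.symm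
      have d3 : ((q₁ : ℤ) * q₂) ∣ v i - v' i := hco.mul_dvd d1 d2
      have b1 := hv.1 i
      have b2 := hv'.1 i
      push_cast at b1 b2
      have := Int.eq_zero_of_abs_lt_dvd d3 (by rw [abs_lt]; constructor <;> linarith)
      linarith
    · rintro ⟨a, b⟩ hab
      rw [Finset.mem_product, Finset.mem_filter, Finset.mem_filter, mem_cube', mem_cube'] at hab
      obtain ⟨⟨ha, hCa⟩, ⟨hb, hCb⟩⟩ := hab
      obtain ⟨u, w, huw⟩ := hco
      have hpos : (0 : ℤ) < (q₁ : ℤ) * q₂ := mul_pos h1' h2'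
      let x : V → ℤ := fun i => (a i * (w * q₂) + b i * (u * q₁)) % ((q₁ : ℤ) * q₂)
      have hx1 : ∀ i, (q₁ : ℤ) ∣ x i - a i := by
        intro i
        have e1 : ((q₁ : ℤ) * q₂) ∣ (a i * (w * q₂) + b i * (u * q₁)) - x i :=
          Int.dvd_self_sub_emod
        obtain ⟨r, hr⟩ := e1
        refine ⟨(b i * u) - a i * u - q₂ * r, ?_⟩
        have e2 : x i = (a i * (w * q₂) + b i * (u * q₁)) - (q₁ : ℤ) * q₂ * r := by linarith
        have e3 : w * (q₂ : ℤ) = 1 - u * q₁ := by linarith
        rw [e2, e3]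
        ring
      have hx2 : ∀ i, (q₂ : ℤ) ∣ x i - b i := by
        intro i
        have e1 : ((q₁ : ℤ) * q₂) ∣ (a i * (w * q₂) + b i * (u * q₁)) - x i :=
          Int.dvd_self_sub_emod
        obtain ⟨r, hr⟩ := e1
        refine ⟨(a i * w) - b i * w - q₁ * r, ?_⟩
        have e2 : x i = (a i * (w * q₂) + b i * (u * q₁)) - (q₁ : ℤ) * q₂ * r := by linarith
        have e3 : u * (q₁ : ℤ) = 1 - w * q₂ := by linarith
        rw [e2, e3]
        ring
      refine ⟨x, ?_, ?_⟩
      · rw [Finset.mem_filter, mem_cube']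
        refine ⟨fun i => ⟨Int.emod_nonneg _ hpos.ne', ?_⟩, (hC₁ a x hx1).1 hCa, (hC₂ b x hx2).1 hCb⟩
        push_cast
        exact Int.emod_lt_of_pos _ hpos
      · rw [Prod.mk.injEq]
        constructor
        · funext i
          have h3 : a i % (q₁ : ℤ) = x i % (q₁ : ℤ) := Int.modEq_iff_dvd.2 (hx1 i)
          exact h3.symm.trans (Int.emod_eq_of_lt (ha i).1 (ha i).2)
        · funext i
          have h3 : b i % (q₂ : ℤ) = x i % (q₂ : ℤ) := Int.modEq_iff_dvd.2 (hx2 i)
          exact h3.symm.trans (Int.emod_eq_of_lt (hb i).1 (hb i).2)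
  have hk : (#((cube V (q₁ * q₂)).filter (fun v => C₁ v ∧ C₂ v)) : ℝ) =
      (#((cube V q₁).filter C₁) : ℝ) * #((cube V q₂).filter C₂) := by exact_mod_cast key
  rw [dens_def', dens_def', dens_def', div_mul_div_comm, ← mul_pow, Nat.cast_mul, hk]

omit [Fintype V] [DecidableEq V] in
private theorem per_all_prod' (s : Finset ℕ) (C : ℕ → (V → ℤ) → Prop)
    (hC : ∀ p ∈ s, Per p (C p)) : Per (∏ p ∈ s, p) (fun v => ∀ p ∈ s, C p v) := by
  intro v v' h
  refine forall₂_congr fun p hp => hC p hp v v' fun i => ?_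
  exact (Int.natCast_dvd_natCast.2 (Finset.dvd_prod_of_mem _ hp)).trans (h i)

omit [Fintype V] [DecidableEq V] in
private theorem psi_per (b c : V × V → ℤ) (p : ℕ) (v v' : V → ℤ)
    (h : ∀ i, (p : ℤ) ∣ v' i - v i) (e : V × V) :
    (p : ℤ) ∣ psi b c e v ↔ (p : ℤ) ∣ psi b c e v' := by
  have h1 : psi b c e v' - psi b c e v = c e * ((v' e.2 - v e.2) - (v' e.1 - v e.1)) := by
    unfold psi
    ring
  have h2 : (p : ℤ) ∣ psi b c e v' - psi b c e v := by
    rw [h1]
    exact ((h e.2).sub (h e.1)).mul_left _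
  constructor
  · intro h3
    have := h2.add h3
    rwa [sub_add_cancel] at this
  · intro h3
    have := h3.sub h2
    rwa [sub_sub_cancel] at this

theorem dens_prod (s : Finset ℕ) (hs : ∀ p ∈ s, p.Prime) (C : ℕ → (V → ℤ) → Prop)
    (hC : ∀ p ∈ s, Per p (C p)) :
    dens (∏ p ∈ s, p) (fun v => ∀ p ∈ s, C p v) = ∏ p ∈ s, dens p (C p) := by
  classical
  induction s using Finset.induction_on with
  | empty =>
    rw [Finset.prod_empty, Finset.prod_empty]
    rw [dens_def', Finset.filter_true_of_mem fun v _ p hp => absurd hp (Finset.notMem_empty p),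
      card_cube]
    simp
  | insert a s ha ih =>
    rw [Finset.prod_insert ha, Finset.prod_insert ha,
      ← ih (fun p hp => hs p (Finset.mem_insert_of_mem hp))
        (fun p hp => hC p (Finset.mem_insert_of_mem hp)),
      ← dens_mul a (∏ p ∈ s, p) (hs a (Finset.mem_insert_self a s)).pos
        (Finset.prod_pos fun p hp => (hs p (Finset.mem_insert_of_mem hp)).pos)
        (Nat.Coprime.prod_right fun p hp => (Nat.coprime_primes (hs a (Finset.mem_insert_self a s))
          (hs p (Finset.mem_insert_of_mem hp))).2 fun he => ha (he ▸ hp)) _ _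
        (hC a (Finset.mem_insert_self a s))
        (per_all_prod' s C fun p hp => hC p (Finset.mem_insert_of_mem hp))]
    exact dens_congr _ fun v => Finset.forall_mem_insert a s (fun p => C p v)

theorem per_all_prod (s : Finset ℕ) (C : ℕ → (V → ℤ) → Prop) (hC : ∀ p ∈ s, Per p (C p)) :
    Per (∏ p ∈ s, p) (fun v => ∀ p ∈ s, C p v) := per_all_prod' s C hC

theorem per_bad (H : Finset (V × V)) (b c : V × V → ℤ) (p : ℕ) : Per p (Bad H b c p) := by
  intro v v' h
  unfold Bad
  exact exists_congr fun e => and_congr_right fun _ => psi_per b c p v v' h e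

theorem per_all (H : Finset (V × V)) (b c : V × V → ℤ) (S : V × V → Finset ℕ) (p : ℕ) :
    Per p (All H b c S p) := by
  intro v v' h
  unfold All
  exact forall₃_congr fun e _ _ => psi_per b c p v v' h e

end PoolPK
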