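import Pool.Agent.Work.MP_70e905_nt.PK.P.Loc
import Pool.Agent.Work.MP_70e905_nt.PK.P.Den

/-!
# PK/P/Alp (size M): the densities `alp`, and the density of `Bad`

PROOF. Let `p ∈ U = Un H S`, `H_p = {e ∈ H : p ∈ S e}`, nonempty. `All H b c S p v` means `p ∣ psi b c e v` for the `e ∈ H_p`.
The prime `p > z ≥ w` divides no `c e`, `e ∈ H` (`Ok.unit`). If `H_p = {e}` then the density is `1 / p` (`dens_edge`). If
`H_p` contains `e ≠ f` then it is at most `1 / p ^ 2` (`dens_mono`, `dens_two`, `Ok.ends`). Hence always `≤ 1 / p`: `alp_le`.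
`alp_close`: `∏_{e ∈ H} ∏_{p ∈ S e} 1 / p = ∏_{p ∈ U} (1 / p) ^ #H_p` (exchange of products). If all `#H_p = 1` then the two quantities are
equal. Otherwise some `p₀ ∈ U` has `#H_{p₀} ≥ 2`; both quantities are `≥ 0` and at most `(1 / p₀ ^ 2) ∏_{p ∈ U, p ≠ p₀} 1 / p ≤ (1 / z) ∏_{p ∈ U} 1 / p`
(`p₀ > z`), so their difference is at most this.
`bad_bounds`: `Bad` is the union of the `#H` events `p ∣ psi b c e v`, each of density `1 / p`, pairs of different events have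
density `1 / p ^ 2`: union bound, and (Bonferroni) `1_{union} ≥ ∑ 1_e - ∑_{e ≠ f} 1_e 1_f` (sum over ordered pairs; for `k ≥ 1` events
`k - k (k - 1) ≤ 1`).
-/

set_option autoImplicit false

namespace PoolPK

open Finset

variable {V : Type} [Fintype V] [DecidableEq V]

private theorem den_le_one_div (H : Finset (V × V)) (b c : V × V → ℤ) (w : ℕ) (hok : Ok H c w)
    (S : V × V → Finset ℕ) {p : ℕ} (hp : p.Prime) (hwp : w < p) (hU : p ∈ Un H S) :
    dens p (All H b c S p) ≤ 1 / (p : ℝ) := by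
  unfold Un at hU
  rw [mem_biUnion] at hU
  obtain ⟨e, he, hpe⟩ := hU
  rw [← dens_edge b c e p hp (hok.loop e he) (hok.unit e he p hp hwp)]
  exact dens_mono _ _ _ fun v hv => hv e he hpe

private theorem den_le_sq (H : Finset (V × V)) (b c : V × V → ℤ) (w : ℕ) (hok : Ok H c w)
    (S : V × V → Finset ℕ) {p : ℕ} (hp : p.Prime) (hwp : w < p)
    (h2 : 2 ≤ #(H.filter (fun e => p ∈ S e))) :
    dens p (All H b c S p) ≤ 1 / (p : ℝ) ^ 2 := by
  obtain ⟨e, he, f, hf, hef⟩ := Finset.one_lt_card.1 h2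
  rw [mem_filter] at he hf
  rw [← dens_two b c e f p hp (hok.loop e he.1) (hok.loop f hf.1) (hok.unit e he.1 p hp hwp)
    (hok.unit f hf.1 p hp hwp) (hok.ends e he.1 f hf.1 hef)]
  exact dens_mono _ _ _ fun v hv => ⟨hv e he.1 he.2, hv f hf.1 hf.2⟩

private theorem den_eq (H : Finset (V × V)) (b c : V × V → ℤ) (w : ℕ) (hok : Ok H c w)
    (S : V × V → Finset ℕ) {p : ℕ} (hp : p.Prime) (hwp : w < p)
    (h1 : #(H.filter (fun e => p ∈ S e)) = 1) :
    dens p (All H b c S p) = 1 / (p : ℝ) := by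
  obtain ⟨e, he⟩ := Finset.card_eq_one.1 h1
  have he' : e ∈ H.filter (fun e => p ∈ S e) := by rw [he]; exact mem_singleton_self e
  rw [mem_filter] at he'
  rw [← dens_edge b c e p hp (hok.loop e he'.1) (hok.unit e he'.1 p hp hwp)]
  apply le_antisymm
  · exact dens_mono _ _ _ fun v hv => hv e he'.1 he'.2
  · refine dens_mono _ _ _ fun v hv f hf hpf => ?_
    have h2 : f ∈ H.filter (fun e => p ∈ S e) := mem_filter.2 ⟨hf, hpf⟩
    rw [he, mem_singleton] at h2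
    rw [h2]
    exact hv

theorem alp_le (H : Finset (V × V)) (b c : V × V → ℤ) (w z : ℕ) (hwz : w ≤ z) (hok : Ok H c w)
    (S : V × V → Finset ℕ) (hS : ∀ e ∈ H, ∀ p ∈ S e, p.Prime ∧ z < p) :
    0 ≤ alp H b c S ∧ alp H b c S ≤ ∏ p ∈ Un H S, 1 / (p : ℝ) := by
  have hU : ∀ p ∈ Un H S, p.Prime ∧ z < p := by
    intro p hp
    unfold Un at hp
    rw [mem_biUnion] at hp
    obtain ⟨e, he, hpe⟩ := hp
    exact hS e he p hpe
  unfold alp
  refine ⟨prod_nonneg fun p _ => dens_nonneg _ _, prod_le_prod (fun p _ => dens_nonneg _ _)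
    fun p hp => ?_⟩
  obtain ⟨h1, h2⟩ := hU p hp
  exact den_le_one_div H b c w hok S h1 (by omega) hp

private theorem prod_small {U : Finset ℕ} {a : ℕ → ℝ} {p0 z : ℕ} (hz : 1 ≤ z) (hp0 : p0 ∈ U)
    (hzp : z < p0) (h0 : ∀ p ∈ U, 0 ≤ a p) (h1 : ∀ p ∈ U, a p ≤ 1 / (p : ℝ))
    (h2 : a p0 ≤ 1 / (p0 : ℝ) ^ 2) :
    ∏ p ∈ U, a p ≤ 1 / (z : ℝ) * ∏ p ∈ U, 1 / (p : ℝ) := by
  rw [← mul_prod_erase U a hp0, ← mul_prod_erase U (fun p : ℕ => 1 / (p : ℝ)) hp0]
  have hz' : (0 : ℝ) < z := by exact_mod_cast hz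
  have hp' : (z : ℝ) ≤ p0 := by exact_mod_cast hzp.le
  have hp'' : (0 : ℝ) < p0 := hz'.trans_le hp'
  have h3 : ∏ p ∈ U.erase p0, a p ≤ ∏ p ∈ U.erase p0, 1 / (p : ℝ) :=
    prod_le_prod (fun p hp => h0 p (mem_of_mem_erase hp)) fun p hp => h1 p (mem_of_mem_erase hp)
  have h4 : 0 ≤ ∏ p ∈ U.erase p0, a p := prod_nonneg fun p hp => h0 p (mem_of_mem_erase hp)
  have h5 : (0 : ℝ) ≤ ∏ p ∈ U.erase p0, 1 / (p : ℝ) :=
    prod_nonneg fun p _ => by positivity
  calc a p0 * ∏ p ∈ U.erase p0, a p ≤ 1 / (p0 : ℝ) ^ 2 * ∏ p ∈ U.erase p0, 1 / (p : ℝ) :=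
        mul_le_mul h2 h3 h4 (by positivity)
    _ = 1 / (p0 : ℝ) * (1 / (p0 : ℝ) * ∏ p ∈ U.erase p0, 1 / (p : ℝ)) := by
        rw [sq, ← mul_assoc]
        congr 1
        rw [one_div_mul_one_div]
    _ ≤ 1 / (z : ℝ) * (1 / (p0 : ℝ) * ∏ p ∈ U.erase p0, 1 / (p : ℝ)) := by
        refine mul_le_mul_of_nonneg_right ?_ (mul_nonneg (by positivity) h5)
        exact one_div_le_one_div_of_le hz' hp'

theorem alp_close (H : Finset (V × V)) (b c : V × V → ℤ) (w z : ℕ) (hwz : w ≤ z) (hz : 1 ≤ z)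
    (hok : Ok H c w) (S : V × V → Finset ℕ) (hS : ∀ e ∈ H, ∀ p ∈ S e, p.Prime ∧ z < p) :
    |alp H b c S - ∏ e ∈ H, ∏ p ∈ S e, 1 / (p : ℝ)| ≤ 1 / (z : ℝ) * ∏ p ∈ Un H S, 1 / (p : ℝ) := by
  have hU : ∀ p ∈ Un H S, p.Prime ∧ z < p := by
    intro p hp
    unfold Un at hp
    rw [mem_biUnion] at hp
    obtain ⟨e, he, hpe⟩ := hp
    exact hS e he p hpe
  have hcard : ∀ p ∈ Un H S, 1 ≤ #(H.filter (fun e => p ∈ S e)) := by
    intro p hp
    unfold Un at hp
    rw [mem_biUnion] at hp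
    obtain ⟨e, he, hpe⟩ := hp
    exact card_pos.2 ⟨e, mem_filter.2 ⟨he, hpe⟩⟩
  have hex : ∏ e ∈ H, ∏ p ∈ S e, 1 / (p : ℝ) =
      ∏ p ∈ Un H S, (1 / (p : ℝ)) ^ #(H.filter (fun e => p ∈ S e)) := by
    rw [prod_comm' (s' := fun p => H.filter (fun e => p ∈ S e)) (t' := Un H S)]
    · refine prod_congr rfl fun p _ => ?_
      rw [prod_const]
    · intro e p
      unfold Un
      rw [mem_filter, mem_biUnion]
      constructor
      · rintro ⟨h1, h2⟩
        exact ⟨⟨h1, h2⟩, e, h1, h2⟩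
      · rintro ⟨⟨h1, h2⟩, -⟩
        exact ⟨h1, h2⟩
  rw [hex]
  have hB : (0 : ℝ) ≤ 1 / (z : ℝ) * ∏ p ∈ Un H S, 1 / (p : ℝ) :=
    mul_nonneg (by positivity) (prod_nonneg fun p _ => by positivity)
  by_cases hall : ∀ p ∈ Un H S, #(H.filter (fun e => p ∈ S e)) = 1
  · have h1 : alp H b c S = ∏ p ∈ Un H S, (1 / (p : ℝ)) ^ #(H.filter (fun e => p ∈ S e)) := by
      unfold alp
      refine prod_congr rfl fun p hp => ?_
      obtain ⟨h2, h3⟩ := hU p hp
      rw [hall p hp, pow_one, den_eq H b c w hok S h2 (by omega) (hall p hp)]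
    rw [h1, sub_self, abs_zero]
    exact hB
  · push Not at hall
    obtain ⟨p0, hp0, hne⟩ := hall
    have h2 : 2 ≤ #(H.filter (fun e => p0 ∈ S e)) := by
      have := hcard p0 hp0
      omega
    obtain ⟨hpp, hzp⟩ := hU p0 hp0
    have hX : alp H b c S ≤ 1 / (z : ℝ) * ∏ p ∈ Un H S, 1 / (p : ℝ) := by
      unfold alp
      refine prod_small hz hp0 hzp (fun p _ => dens_nonneg _ _) (fun p hp => ?_)
        (den_le_sq H b c w hok S hpp (by omega) h2)
      obtain ⟨h3, h4⟩ := hU p hp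
      exact den_le_one_div H b c w hok S h3 (by omega) hp
    have hone : ∀ p ∈ Un H S, (0 : ℝ) ≤ 1 / (p : ℝ) ∧ 1 / (p : ℝ) ≤ 1 := by
      intro p hp
      have : (1 : ℝ) ≤ p := by exact_mod_cast (hU p hp).1.one_lt.le
      exact ⟨by positivity, by rw [div_le_one (by linarith)]; exact this⟩
    have hY : ∏ p ∈ Un H S, (1 / (p : ℝ)) ^ #(H.filter (fun e => p ∈ S e)) ≤
        1 / (z : ℝ) * ∏ p ∈ Un H S, 1 / (p : ℝ) := by
      refine prod_small hz hp0 hzp (fun p hp => pow_nonneg (hone p hp).1 _) (fun p hp => ?_) ?_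
      · calc (1 / (p : ℝ)) ^ #(H.filter (fun e => p ∈ S e)) ≤ (1 / (p : ℝ)) ^ 1 :=
              pow_le_pow_of_le_one (hone p hp).1 (hone p hp).2 (hcard p hp)
          _ = 1 / (p : ℝ) := pow_one _
      · calc (1 / (p0 : ℝ)) ^ #(H.filter (fun e => p0 ∈ S e)) ≤ (1 / (p0 : ℝ)) ^ 2 :=
              pow_le_pow_of_le_one (hone p0 hp0).1 (hone p0 hp0).2 h2
          _ = 1 / (p0 : ℝ) ^ 2 := by rw [div_pow, one_pow]
    have hX0 : 0 ≤ alp H b c S := (alp_le H b c w z hwz hok S hS).1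
    have hY0 : (0 : ℝ) ≤ ∏ p ∈ Un H S, (1 / (p : ℝ)) ^ #(H.filter (fun e => p ∈ S e)) :=
      prod_nonneg fun p hp => pow_nonneg (hone p hp).1 _
    rw [abs_le]
    constructor <;> linarith

open Classical in
private theorem dens_eq (q : ℕ) (C : (V → ℤ) → Prop) :
    dens q C = (∑ v ∈ cube V q, if C v then (1 : ℝ) else 0) / (q : ℝ) ^ Fintype.card V := by
  unfold dens
  rw [sum_boole]

theorem bad_bounds (H : Finset (V × V)) (b c : V × V → ℤ) (w p : ℕ) (hok : Ok H c w) (hp : p.Prime)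
    (hwp : w < p) :
    (#H : ℝ) / p - (#H : ℝ) ^ 2 / (p : ℝ) ^ 2 ≤ dens p (Bad H b c p) ∧
      dens p (Bad H b c p) ≤ (#H : ℝ) / p := by
  classical
  have hN : (0 : ℝ) < (p : ℝ) ^ Fintype.card V := by
    have : (0 : ℝ) < p := by exact_mod_cast hp.pos
    positivity
  obtain ⟨I, hI⟩ : ∃ I : V × V → (V → ℤ) → ℝ, I = fun e v =>
    if (p : ℤ) ∣ psi b c e v then (1 : ℝ) else 0 := ⟨_, rfl⟩
  have hI0 : ∀ e v, 0 ≤ I e v := by
    intro e v
    rw [hI]
    beta_reduce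
    split_ifs <;> norm_num
  have hII : ∀ e v, I e v * I e v = I e v := by
    intro e v
    rw [hI]
    beta_reduce
    split_ifs <;> norm_num
  have h1 : ∀ e ∈ H, (∑ v ∈ cube V p, I e v) / (p : ℝ) ^ Fintype.card V = 1 / p := by
    intro e he
    rw [← dens_edge b c e p hp (hok.loop e he) (hok.unit e he p hp hwp), dens_eq, hI]
    congr 1
    refine sum_congr rfl fun v _ => ?_
    by_cases ha : (p : ℤ) ∣ psi b c e v <;> simp [ha]
  have h2 : ∀ e ∈ H, ∀ f ∈ H.erase e,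
      (∑ v ∈ cube V p, I e v * I f v) / (p : ℝ) ^ Fintype.card V = 1 / (p : ℝ) ^ 2 := by
    intro e he f hf
    rw [mem_erase] at hf
    rw [← dens_two b c e f p hp (hok.loop e he) (hok.loop f hf.2) (hok.unit e he p hp hwp)
      (hok.unit f hf.2 p hp hwp) (hok.ends e he f hf.2 hf.1.symm), dens_eq, hI]
    congr 1
    refine sum_congr rfl fun v _ => ?_
    by_cases ha : (p : ℤ) ∣ psi b c e v <;> by_cases hb : (p : ℤ) ∣ psi b c f v <;>
      simp [ha, hb]
  have hup : ∀ v, (if Bad H b c p v then (1 : ℝ) else 0) ≤ ∑ e ∈ H, I e v := by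
    intro v
    split_ifs with h
    · obtain ⟨e, he, hd⟩ := h
      have h3 := single_le_sum (f := fun e => I e v) (fun e _ => hI0 e v) he
      have h4 : I e v = 1 := by
        rw [hI]
        beta_reduce
        rw [if_pos hd]
      beta_reduce at h3
      rwa [h4] at h3
    · exact sum_nonneg fun e _ => hI0 e v
  have hlow : ∀ v, (∑ e ∈ H, I e v) - ∑ e ∈ H, ∑ f ∈ H.erase e, I e v * I f v ≤
      if Bad H b c p v then (1 : ℝ) else 0 := by
    intro v
    have h3 : ∑ e ∈ H, ∑ f ∈ H.erase e, I e v * I f v =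
        (∑ e ∈ H, I e v) * (∑ e ∈ H, I e v) - ∑ e ∈ H, I e v := by
      rw [sum_mul_sum, ← sum_sub_distrib]
      refine sum_congr rfl fun e he => ?_
      rw [← add_sum_erase H (fun f => I e v * I f v) he, hII]
      ring
    rw [h3]
    split_ifs with h
    · nlinarith [sq_nonneg ((∑ e ∈ H, I e v) - 1)]
    · have h4 : ∑ e ∈ H, I e v = 0 := by
        refine sum_eq_zero fun e he => ?_
        rw [hI]
        beta_reduce
        rw [if_neg fun hd => h ⟨e, he, hd⟩]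
      rw [h4]
      norm_num
  constructor
  · have h3 : (∑ v ∈ cube V p, ((∑ e ∈ H, I e v) - ∑ e ∈ H, ∑ f ∈ H.erase e, I e v * I f v)) /
        (p : ℝ) ^ Fintype.card V ≤ dens p (Bad H b c p) := by
      rw [dens_eq]
      exact div_le_div_of_nonneg_right (sum_le_sum fun v _ => hlow v) hN.le
    have h4 : (∑ v ∈ cube V p, ((∑ e ∈ H, I e v) - ∑ e ∈ H, ∑ f ∈ H.erase e, I e v * I f v)) /
        (p : ℝ) ^ Fintype.card V = (∑ e ∈ H, (∑ v ∈ cube V p, I e v) / (p : ℝ) ^ Fintype.card V) -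
        ∑ e ∈ H, ∑ f ∈ H.erase e,
          (∑ v ∈ cube V p, I e v * I f v) / (p : ℝ) ^ Fintype.card V := by
      simp only [← sum_div]
      rw [← sub_div, sum_sub_distrib]
      congr 2
      · exact sum_comm
      · rw [sum_comm]
        exact sum_congr rfl fun e _ => sum_comm
    rw [h4, sum_congr rfl h1, sum_congr rfl fun e he => sum_congr rfl (h2 e he)] at h3
    simp only [sum_const, nsmul_eq_mul] at h3
    refine le_trans ?_ h3
    have hp2 : (0 : ℝ) < (p : ℝ) ^ 2 := by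
      have : (0 : ℝ) < p := by exact_mod_cast hp.pos
      positivity
    have h5 : ∑ x ∈ H, (#(H.erase x) : ℝ) * (1 / (p : ℝ) ^ 2) ≤ (#H : ℝ) ^ 2 / (p : ℝ) ^ 2 := by
      calc ∑ x ∈ H, (#(H.erase x) : ℝ) * (1 / (p : ℝ) ^ 2)
          ≤ ∑ _x ∈ H, (#H : ℝ) * (1 / (p : ℝ) ^ 2) := by
            refine sum_le_sum fun x _ => mul_le_mul_of_nonneg_right ?_ (by positivity)
            exact_mod_cast card_le_card (erase_subset x H)
        _ = (#H : ℝ) ^ 2 / (p : ℝ) ^ 2 := by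
            rw [sum_const, nsmul_eq_mul]
            ring
    have h6 : (#H : ℝ) * (1 / p) = (#H : ℝ) / p := by ring
    rw [h6]
    linarith
  · have h3 : dens p (Bad H b c p) ≤ (∑ v ∈ cube V p, ∑ e ∈ H, I e v) /
        (p : ℝ) ^ Fintype.card V := by
      rw [dens_eq]
      exact div_le_div_of_nonneg_right (sum_le_sum fun v _ => hup v) hN.le
    rw [sum_comm, sum_div, sum_congr rfl h1, sum_const, nsmul_eq_mul, mul_one_div] at h3
    exact h3

end PoolPK
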