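import Pool.Agent.Work.MP_70e905_nt.PK.P.Defs

/-!
# PK/P/BoxC (size M): number of points of a box with a periodic condition

PROOF. For a residue `r ∈ [0, q)` the number `N i r` of the integers in `[A i, A i + l i)` congruent to `r` modulo `q`
satisfies `l i / q - 1 ≤ N i r ≤ l i / q + 1` (`Int.Ico_filter_modEq_card` or an elementary count). Sort the points
`v` of the box by `r = v mod q ∈ cube V q`: `#(box filter C) = ∑_{r ∈ cube V q, C r} ∏ i, N i (r i)` (`C v ↔ C r`,
`Finset.card_eq_sum_card_fiberwise`; the fibre over `r` is a `Fintype.piFinset`). With `x i = l i / q ≥ 1` (`q ≤ m0 ≤ l i`)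
`|∏ N i - ∏ x i| ≤ ∏ (x i + 1) - ∏ x i` (also for the lower bound: `0 ≤ x i - 1 ≤ N i` and
`∏ x i - ∏ (x i - 1) ≤ ∏ (x i + 1) - ∏ x i`; induction) and
`∏ (x i + 1) - ∏ x i ≤ (∏ x i) ((1 + q / m0) ^ n - 1) ≤ (∏ x i) 2 ^ n q / m0` (`1 / x i ≤ q / m0 ≤ 1`,
`(1 + t) ^ n ≤ 1 + 2 ^ n t` for `0 ≤ t ≤ 1` by induction on `n`), `n = card V`. Summing over the
`dens q C * q ^ n` residue vectors `r` with `C r` gives the claim (`∏ x i = (∏ l i) / q ^ n`).
-/

set_option autoImplicit false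

namespace PoolPK

open Finset

variable {V : Type} [Fintype V] [DecidableEq V]

private theorem prod_near {J : Type} (s : Finset J) (N x : J → ℝ) (hx : ∀ i ∈ s, 0 ≤ x i)
    (h : ∀ i ∈ s, |N i - x i| ≤ 1) :
    |∏ i ∈ s, N i - ∏ i ∈ s, x i| ≤ ∏ i ∈ s, (x i + 1) - ∏ i ∈ s, x i := by
  classical
  induction s using Finset.induction_on with
  | empty => simp
  | insert a s ha ih =>
    have ih' := ih (fun i hi => hx i (Finset.mem_insert_of_mem hi))
      (fun i hi => h i (Finset.mem_insert_of_mem hi))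
    have hxa := hx a (Finset.mem_insert_self _ _)
    have hNa := h a (Finset.mem_insert_self _ _)
    rw [Finset.prod_insert ha, Finset.prod_insert ha, Finset.prod_insert ha]
    have hPN : |∏ i ∈ s, N i| ≤ ∏ i ∈ s, (x i + 1) := by
      rw [Finset.abs_prod]
      refine Finset.prod_le_prod (fun i _ => abs_nonneg _) fun i hi => ?_
      have h1 := h i (Finset.mem_insert_of_mem hi)
      have h2 := hx i (Finset.mem_insert_of_mem hi)
      have h3 : |N i| ≤ |N i - x i| + |x i| := by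
        have := abs_add_le (N i - x i) (x i)
        rwa [sub_add_cancel] at this
      rw [abs_of_nonneg h2] at h3
      linarith
    have e1 : N a * ∏ i ∈ s, N i - x a * ∏ i ∈ s, x i =
        (N a - x a) * ∏ i ∈ s, N i + x a * (∏ i ∈ s, N i - ∏ i ∈ s, x i) := by ring
    rw [e1]
    refine (abs_add_le _ _).trans ?_
    rw [abs_mul, abs_mul, abs_of_nonneg hxa]
    have h4 : |N a - x a| * |∏ i ∈ s, N i| ≤ 1 * ∏ i ∈ s, (x i + 1) :=
      mul_le_mul hNa hPN (abs_nonneg _) zero_le_one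
    have h5 : x a * |∏ i ∈ s, N i - ∏ i ∈ s, x i| ≤
        x a * (∏ i ∈ s, (x i + 1) - ∏ i ∈ s, x i) := mul_le_mul_of_nonneg_left ih' hxa
    nlinarith

private theorem pow_near (n : ℕ) {t : ℝ} (h0 : 0 ≤ t) (h1 : t ≤ 1) :
    (1 + t) ^ n ≤ 1 + (2 ^ n - 1) * t := by
  induction n with
  | zero => simp
  | succ n ih =>
    have h2 : (1 : ℝ) ≤ 2 ^ n := one_le_pow₀ (by norm_num)
    calc (1 + t) ^ (n + 1) = (1 + t) ^ n * (1 + t) := pow_succ _ _
      _ ≤ (1 + (2 ^ n - 1) * t) * (1 + t) := mul_le_mul_of_nonneg_right ih (by linarith)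
      _ ≤ 1 + (2 ^ (n + 1) - 1) * t := by
        have h3 : (2 ^ n - 1) * t * t ≤ (2 ^ n - 1) * t * 1 :=
          mul_le_mul_of_nonneg_left h1 (mul_nonneg (by linarith) h0)
        rw [pow_succ]
        nlinarith

/-- the number of the integers of an interval in a residue class -/
private theorem count_near (a : ℤ) (l q : ℕ) (hq : 1 ≤ q) (r : ℤ) :
    |(#((Ico a (a + l)).filter (fun x => x ≡ r [ZMOD (q : ℤ)])) : ℝ) - (l : ℝ) / q| ≤ 1 := by
  have hq' : (0 : ℤ) < q := by exact_mod_cast hq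
  have h1 := Int.Ico_filter_modEq_card a (a + l) hq' r
  have hqQ : (0 : ℚ) < (q : ℤ) := by exact_mod_cast hq
  set α : ℚ := (((a + l : ℤ) : ℚ) - r) / ((q : ℤ) : ℚ) with hα
  set β : ℚ := ((a : ℚ) - r) / ((q : ℤ) : ℚ) with hβ
  have hαβ : α = β + (l : ℚ) / q := by
    rw [hα, hβ]
    push_cast
    rw [← add_div]
    congr 1
    ring
  have hlq : (0 : ℚ) ≤ (l : ℚ) / q := by positivity
  have hle : ⌈β⌉ ≤ ⌈α⌉ := Int.ceil_le_ceil (by linarith)
  have e1 : ((⌈α⌉ - ⌈β⌉ : ℤ) : ℚ) ≤ (l : ℚ) / q + 1 := by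
    have h2 := Int.ceil_lt_add_one α
    have h3 := Int.le_ceil β
    push_cast
    linarith
  have e2 : (l : ℚ) / q - 1 ≤ ((⌈α⌉ - ⌈β⌉ : ℤ) : ℚ) := by
    have h2 := Int.le_ceil α
    have h3 := Int.ceil_lt_add_one β
    push_cast
    linarith
  have h2 : ((#((Ico a (a + l)).filter (fun x => x ≡ r [ZMOD (q : ℤ)])) : ℕ) : ℤ) = ⌈α⌉ - ⌈β⌉ := by
    rw [h1]
    exact max_eq_left (by linarith)
  have h3 : ((#((Ico a (a + l)).filter (fun x => x ≡ r [ZMOD (q : ℤ)])) : ℕ) : ℝ) =
      (((⌈α⌉ - ⌈β⌉ : ℤ) : ℚ) : ℝ) := by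
    rw [← h2]
    push_cast
    rfl
  rw [h3, abs_le]
  have e1' : ((((⌈α⌉ - ⌈β⌉ : ℤ) : ℚ)) : ℝ) ≤ (((l : ℚ) / q + 1 : ℚ) : ℝ) := by exact_mod_cast e1
  have e2' : (((l : ℚ) / q - 1 : ℚ) : ℝ) ≤ ((((⌈α⌉ - ⌈β⌉ : ℤ) : ℚ)) : ℝ) := by exact_mod_cast e2
  push_cast at e1' e2' ⊢
  constructor <;> linarith

open Classical in
theorem box_count (q : ℕ) (hq : 1 ≤ q) (C : (V → ℤ) → Prop) (hC : Per q C) (A : V → ℤ) (l : V → ℕ)
    (m0 : ℕ) (hl : ∀ i, m0 ≤ l i) (hqm : q ≤ m0) :
    |(#((box A l).filter C) : ℝ) - (∏ i, (l i : ℝ)) * dens q C| ≤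
      (∏ i, (l i : ℝ)) * dens q C * (2 ^ Fintype.card V * q / m0) := by
  have hq0 : (0 : ℝ) < q := by exact_mod_cast hq
  have hqZ : (0 : ℤ) < q := by exact_mod_cast hq
  have hm0 : (0 : ℝ) < m0 := by exact_mod_cast (by omega : 0 < m0)
  set n := Fintype.card V with hn
  set t : ℝ := (q : ℝ) / m0 with ht
  have ht0 : 0 ≤ t := by positivity
  have ht1 : t ≤ 1 := by
    rw [ht, div_le_one hm0]
    exact_mod_cast hqm
  -- the fibres
  let N : (V → ℤ) → ℝ := fun r =>
    ∏ i, (#((Ico (A i) (A i + l i)).filter (fun x => x ≡ r i [ZMOD (q : ℤ)])) : ℝ)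
  have hcount : (#((box A l).filter C) : ℝ) = ∑ r ∈ (cube V q).filter C, N r := by
    have h1 : ∀ v ∈ (box A l).filter C, (fun i => v i % (q : ℤ)) ∈ (cube V q).filter C := by
      intro v hv
      rw [Finset.mem_filter] at hv
      rw [Finset.mem_filter]
      refine ⟨?_, ?_⟩
      · rw [cube, Fintype.mem_piFinset]
        intro i
        rw [Finset.mem_Ico]
        exact ⟨Int.emod_nonneg _ hqZ.ne', Int.emod_lt_of_pos _ hqZ⟩
      · refine (hC v _ ?_).1 hv.2
        intro i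
        have := Int.emod_add_mul_ediv (v i) q
        refine ⟨-(v i / q), ?_⟩
        linarith
    rw [Finset.card_eq_sum_card_fiberwise h1]
    push_cast
    refine Finset.sum_congr rfl fun r hr => ?_
    rw [Finset.mem_filter] at hr
    have hr1 := hr.1
    rw [cube, Fintype.mem_piFinset] at hr1
    have h2 : ((box A l).filter C).filter (fun v => (fun i => v i % (q : ℤ)) = r) =
        Fintype.piFinset (fun i => (Ico (A i) (A i + l i)).filter
          (fun x => x ≡ r i [ZMOD (q : ℤ)])) := by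
      ext v
      rw [Finset.mem_filter, Finset.mem_filter, box, Fintype.mem_piFinset, Fintype.mem_piFinset]
      constructor
      · rintro ⟨⟨h3, _⟩, h5⟩ i
        rw [Finset.mem_filter]
        refine ⟨h3 i, ?_⟩
        have h6 := congrFun h5 i
        have h7 := Finset.mem_Ico.1 (hr1 i)
        unfold Int.ModEq
        rw [h6]
        exact (Int.emod_eq_of_lt h7.1 h7.2).symm
      · intro h3
        have h4 : (fun i => v i % (q : ℤ)) = r := by
          funext i
          have h5 := (Finset.mem_filter.1 (h3 i)).2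
          have h7 := Finset.mem_Ico.1 (hr1 i)
          have h8 : v i % (q : ℤ) = r i % (q : ℤ) := h5
          rw [h8]
          exact Int.emod_eq_of_lt h7.1 h7.2
        refine ⟨⟨fun i => (Finset.mem_filter.1 (h3 i)).1, ?_⟩, h4⟩
        refine (hC v r ?_).2 hr.2
        intro i
        exact (Int.modEq_iff_dvd.1 (Finset.mem_filter.1 (h3 i)).2)
    rw [h2, Fintype.card_piFinset]
    push_cast
    rfl
  have hden : (#((cube V q).filter C) : ℝ) = dens q C * (q : ℝ) ^ n := by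
    rw [dens, div_mul_cancel₀ _ (pow_ne_zero _ hq0.ne')]
  have hx : (∏ i, (l i : ℝ)) = (∏ i, ((l i : ℝ) / q)) * (q : ℝ) ^ n := by
    rw [Finset.prod_div_distrib, Finset.prod_const, Finset.card_univ, div_mul_cancel₀]
    exact pow_ne_zero _ hq0.ne'
  set X : ℝ := ∏ i, ((l i : ℝ) / q) with hX
  have hX0 : 0 ≤ X := Finset.prod_nonneg fun i _ => by positivity
  have hone : ∀ r ∈ (cube V q).filter C, |N r - X| ≤ X * (2 ^ n * t) := by
    intro r _
    have h1 := prod_near Finset.univ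
      (fun i => (#((Ico (A i) (A i + l i)).filter (fun x => x ≡ r i [ZMOD (q : ℤ)])) : ℝ))
      (fun i => (l i : ℝ) / q) (fun i _ => by positivity) (fun i _ => count_near _ _ _ hq _)
    refine h1.trans ?_
    have h2 : ∏ i : V, ((l i : ℝ) / q + 1) ≤ X * (1 + t) ^ n := by
      have h3 : X * (1 + t) ^ n = ∏ i : V, ((l i : ℝ) / q * (1 + t)) := by
        rw [Finset.prod_mul_distrib, Finset.prod_const, Finset.card_univ]
      rw [h3]
      refine Finset.prod_le_prod (fun i _ => by positivity) fun i _ => ?_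
      have h4 : (1 : ℝ) ≤ (l i : ℝ) / q * t := by
        rw [ht, div_mul_div_comm, mul_comm (q : ℝ) (m0 : ℝ), mul_div_mul_right _ _ hq0.ne',
          one_le_div hm0]
        exact_mod_cast hl i
      linarith
    have h5 := pow_near n ht0 ht1
    have h6 : X * (1 + t) ^ n ≤ X * (1 + (2 ^ n - 1) * t) := mul_le_mul_of_nonneg_left h5 hX0
    have h7 : X * ((2 ^ n - 1) * t) ≤ X * (2 ^ n * t) :=
      mul_le_mul_of_nonneg_left (by nlinarith) hX0
    rw [← hX]
    nlinarith
  have hmain : (#((box A l).filter C) : ℝ) - (∏ i, (l i : ℝ)) * dens q C =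
      ∑ r ∈ (cube V q).filter C, (N r - X) := by
    rw [hcount, Finset.sum_sub_distrib, Finset.sum_const, nsmul_eq_mul, hden, hx]
    ring
  rw [hmain]
  refine (Finset.abs_sum_le_sum_abs _ _).trans ((Finset.sum_le_sum hone).trans ?_)
  rw [Finset.sum_const, nsmul_eq_mul, hden, hx, ht]
  apply le_of_eq
  ring

theorem card_box (A : V → ℤ) (l : V → ℕ) : #(box A l) = ∏ i, l i := by
  rw [box, Fintype.card_piFinset]
  refine Finset.prod_congr rfl fun i _ => ?_
  rw [Int.card_Ico]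
  simp

end PoolPK
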