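import Pool.Agent.Work.MP_70e905_nt.PK.P.Defs

/-!
# PK/P/Exp (size S-M): expansion of the product of the majorants; the main sum

PROOF. `∏_{e ∈ H} nu (psi e v) = Qf ^ #H * [∀ p ∈ prs w z, ¬ Bad p v] * ∏_{e ∈ H} ∑_{T ∈ fam} (if all of T divide psi e v then ρ T else 0)`,
and the last product is `∏_e ∑_{T ∈ t e} f e T = ∑_{S ∈ piFinset t} ∏_e f e (S e)` (`Finset.prod_univ_sum`) over all
`e : V × V` with `t e = if e ∈ H then fam (prs z R) (R ^ 2) else {∅}`, `f e T = if e ∈ H then (if .. then ρ T else 0) else 1`. For `S ∈ idx H z R` the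
product is `∏_{e ∈ H} ρ (S e)` if all `p ∈ S e` divide `psi e v` for all `e ∈ H`, i.e. `∀ p ∈ Un H S, All H b c S p v`, and `0` otherwise.
Sum over `v` in the box and exchange the sums. The second theorem is the same expansion for `f e T = ρ T ∏_{p ∈ T} 1 / p`.
-/

set_option autoImplicit false

namespace PoolPK

open Finset

variable {V : Type} [Fintype V] [DecidableEq V]

private theorem prod_idx (H : Finset (V × V)) (z R : ℕ) (f : V × V → Finset ℕ → ℝ) :
    ∏ e ∈ H, ∑ T ∈ fam (prs z R) (R ^ 2), f e T = ∑ S ∈ idx H z R, ∏ e ∈ H, f e (S e) := by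
  have h := Finset.prod_univ_sum
    (fun e : V × V => if e ∈ H then fam (prs z R) (R ^ 2) else {∅})
    (fun e T => if e ∈ H then f e T else (1 : ℝ))
  have h1 : ∏ e : V × V, ∑ T ∈ (if e ∈ H then fam (prs z R) (R ^ 2) else {∅}),
      (if e ∈ H then f e T else (1 : ℝ)) = ∏ e ∈ H, ∑ T ∈ fam (prs z R) (R ^ 2), f e T := by
    rw [← Finset.prod_subset (Finset.subset_univ H)]
    · refine Finset.prod_congr rfl fun e he => ?_
      rw [if_pos he]
      exact Finset.sum_congr rfl fun T _ => if_pos he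
    · intro e _ he
      rw [if_neg he, Finset.sum_singleton, if_neg he]
  rw [← h1, h]
  refine Finset.sum_congr rfl fun S _ => ?_
  rw [← Finset.prod_subset (Finset.subset_univ H)]
  · exact Finset.prod_congr rfl fun e he => if_pos he
  · intro e _ he
    exact if_neg he

open Classical in
private theorem exp_point (H : Finset (V × V)) (b c : V × V → ℤ) (w z R : ℕ) (ρ : Finset ℕ → ℝ)
    (v : V → ℤ) :
    ∏ e ∈ H, nu w z R ρ (psi b c e v) = ∑ S ∈ idx H z R, Qf w z R ^ #H * ((∏ e ∈ H, ρ (S e)) *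
      (if ((∀ p ∈ Un H S, All H b c S p v) ∧ ∀ p ∈ prs w z, ¬ Bad H b c p v) then (1 : ℝ)
        else 0)) := by
  by_cases hC : ∀ p ∈ prs w z, ¬ Bad H b c p v
  · have h2 : ∀ e ∈ H, nu w z R ρ (psi b c e v) =
        Qf w z R * tsum' (prs z R) (R ^ 2) ρ (psi b c e v) := by
      intro e he
      unfold nu
      rw [if_pos]
      intro p hp hd
      exact hC p hp ⟨e, he, hd⟩
    rw [Finset.prod_congr rfl h2, Finset.prod_mul_distrib, Finset.prod_const]
    have h3 : ∏ e ∈ H, tsum' (prs z R) (R ^ 2) ρ (psi b c e v) =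
        ∑ S ∈ idx H z R, (∏ e ∈ H, ρ (S e)) *
      (if ((∀ p ∈ Un H S, All H b c S p v) ∧ ∀ p ∈ prs w z, ¬ Bad H b c p v) then (1 : ℝ)
        else 0) := by
      unfold tsum'
      rw [prod_idx]
      refine Finset.sum_congr rfl fun S _ => ?_
      rw [Finset.prod_ite_zero]
      by_cases hE : ∀ p ∈ Un H S, All H b c S p v
      · rw [if_pos, if_pos ⟨hE, hC⟩, mul_one]
        intro e he p hp
        exact hE p (Finset.mem_biUnion.mpr ⟨e, he, hp⟩) e he hp
      · rw [if_neg, if_neg (fun h => hE h.1), mul_zero]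
        intro h
        apply hE
        intro p _ e he hpe
        exact h e he p hpe
    rw [h3, Finset.mul_sum]
  · push Not at hC
    obtain ⟨p, hp, e, he, hd⟩ := hC
    rw [Finset.prod_eq_zero he]
    · symm
      apply Finset.sum_eq_zero
      intro S _
      rw [if_neg (fun h => h.2 p hp ⟨e, he, hd⟩)]
      ring
    · unfold nu
      rw [if_neg]
      intro h
      exact h p hp hd

theorem expand (H : Finset (V × V)) (b c : V × V → ℤ) (w z R : ℕ) (ρ : Finset ℕ → ℝ) (A : V → ℤ)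
    (l : V → ℕ) :
    ∑ v ∈ box A l, ∏ e ∈ H, nu w z R ρ (psi b c e v) =
      Qf w z R ^ #H * ∑ S ∈ idx H z R, (∏ e ∈ H, ρ (S e)) * (cnt H b c w z S A l : ℝ) := by
  classical
  rw [Finset.sum_congr rfl fun v _ => exp_point H b c w z R ρ v, Finset.sum_comm, Finset.mul_sum]
  refine Finset.sum_congr rfl fun S _ => ?_
  rw [← Finset.mul_sum, ← Finset.mul_sum]
  congr 2
  unfold cnt
  rw [Finset.natCast_card_filter]

theorem prod_main (H : Finset (V × V)) (z R : ℕ) (ρ : Finset ℕ → ℝ) (hρ : Wt (prs z R) R ρ) :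
    ∑ S ∈ idx H z R, (∏ e ∈ H, ρ (S e)) * ∏ e ∈ H, ∏ p ∈ S e, 1 / (p : ℝ) =
      ((GS (prs z R) R)⁻¹) ^ #H := by
  have h1 : ∀ S ∈ idx H z R, (∏ e ∈ H, ρ (S e)) * ∏ e ∈ H, ∏ p ∈ S e, 1 / (p : ℝ) =
      ∏ e ∈ H, (ρ (S e) * ∏ p ∈ S e, 1 / (p : ℝ)) := fun S _ => Finset.prod_mul_distrib.symm
  rw [Finset.sum_congr rfl h1, ← prod_idx H z R (fun _ T => ρ T * ∏ p ∈ T, 1 / (p : ℝ)), hρ.main,
    Finset.prod_const]

end PoolPK
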