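import Pool.Agent.Work.MP_70e905_nt.PK.P.Defs

/-!
# PK/P/Rank (size S-M): Rankin bound for the tail

PROOF. Let `s = 1 / log z > 0`. For `K` with `Δ < z ∏ K` we have `1 ≤ (z ∏ K / Δ) ^ s`, so
`Tl ≤ (z / Δ) ^ s ∑_{K ⊆ prs w z} ∏_{p ∈ K} p ^ s g p = (z / Δ) ^ s ∏_{p ∈ prs w z} (1 + p ^ s g p)` (`Finset.prod_one_add`
or `Finset.prod_add`). `z ^ s = e`, `Δ ^ s = exp (log Δ / log z)`, `p ^ s ≤ z ^ s = e`, so the product is
`≤ exp (∑ e h / p) ≤ exp (3 h ∑_{n ≤ z} 1 / n) ≤ exp (3 h (1 + log z))` (`e ≤ 3`, harmonic sum).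
-/

set_option autoImplicit false

namespace PoolPK

open Finset

private lemma sum_inv_prs (w z : ℕ) : ∑ p ∈ prs w z, (1 : ℝ) / p ≤ 1 + Real.log z := by
  have h1 : ∑ p ∈ prs w z, (1 : ℝ) / p ≤ ∑ p ∈ Icc 1 z, (1 : ℝ) / p := by
    apply Finset.sum_le_sum_of_subset_of_nonneg
    · intro p hp
      simp only [prs, mem_filter, mem_Ioc, mem_Icc] at hp ⊢
      exact ⟨hp.2.one_lt.le, hp.1.2⟩
    · intro i _ _; positivity
  have h2 : ∑ p ∈ Icc 1 z, (1 : ℝ) / p = ((harmonic z : ℚ) : ℝ) := by
    rw [harmonic_eq_sum_Icc]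
    push_cast
    simp [one_div]
  exact h1.trans (h2 ▸ harmonic_le_one_add_log z)

theorem tl_nonneg (w z Δ : ℕ) (g : ℕ → ℝ) (hg : ∀ p ∈ prs w z, 0 ≤ g p) : 0 ≤ Tl g w z Δ := by
  unfold Tl
  apply Finset.sum_nonneg
  intro K hK
  rw [mem_filter, mem_powerset] at hK
  exact Finset.prod_nonneg (fun p hp => hg p (hK.1 hp))

theorem tl_le (h w z Δ : ℕ) (hz : 2 ≤ z) (hΔ : 1 ≤ Δ) (g : ℕ → ℝ)
    (hg : ∀ p ∈ prs w z, 0 ≤ g p ∧ g p ≤ h / (p : ℝ)) :
    Tl g w z Δ ≤ Real.exp 1 * Real.exp (-(Real.log Δ / Real.log z)) *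
      Real.exp (3 * h * (1 + Real.log z)) := by
  have hz1 : (1 : ℝ) < z := by exact_mod_cast (by omega : 1 < z)
  have hL : 0 < Real.log z := Real.log_pos hz1
  have hprs : ∀ p ∈ prs w z, p.Prime ∧ p ≤ z := by
    intro p hp
    simp only [prs, mem_filter, mem_Ioc] at hp
    exact ⟨hp.2, hp.1.2⟩
  set a : ℕ → ℝ := fun p => Real.exp (Real.log p / Real.log z) * g p with ha
  have ha0 : ∀ p ∈ prs w z, 0 ≤ a p := fun p hp => mul_nonneg (Real.exp_pos _).le (hg p hp).1
  have hterm : ∀ K ∈ (prs w z).powerset.filter (fun K => Δ < z * ∏ p ∈ K, p),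
      ∏ p ∈ K, g p ≤ Real.exp 1 * Real.exp (-(Real.log Δ / Real.log z)) * ∏ p ∈ K, a p := by
    intro K hK
    rw [mem_filter, mem_powerset] at hK
    obtain ⟨hKs, hK⟩ := hK
    have hg0 : 0 ≤ ∏ p ∈ K, g p := Finset.prod_nonneg (fun p hp => (hg p (hKs hp)).1)
    have hpp : ∀ p ∈ K, (0 : ℝ) < p := fun p hp => by
      exact_mod_cast (hprs p (hKs hp)).1.pos
    have hlog : Real.log Δ ≤ Real.log z + ∑ p ∈ K, Real.log p := by
      have h1 : Real.log Δ ≤ Real.log ((z * ∏ p ∈ K, p : ℕ) : ℝ) := by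
        apply Real.log_le_log
        · exact_mod_cast hΔ
        · exact_mod_cast hK.le
      have h2 : Real.log ((z * ∏ p ∈ K, p : ℕ) : ℝ) = Real.log z + ∑ p ∈ K, Real.log p := by
        push_cast
        rw [Real.log_mul (by positivity) (Finset.prod_ne_zero_iff.mpr (fun p hp => (hpp p hp).ne')),
          Real.log_prod (fun p hp => (hpp p hp).ne')]
      rw [← h2]; exact h1
    have heq : Real.exp 1 * Real.exp (-(Real.log Δ / Real.log z)) * ∏ p ∈ K, a p =
        Real.exp ((Real.log z + ∑ p ∈ K, Real.log p - Real.log Δ) / Real.log z) * ∏ p ∈ K, g p := by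
      rw [ha, Finset.prod_mul_distrib, ← Real.exp_sum, ← mul_assoc, ← Real.exp_add, ← Real.exp_add]
      congr 2
      rw [← Finset.sum_div]
      field_simp
      ring
    rw [heq]
    have h1 : (1 : ℝ) ≤ Real.exp ((Real.log z + ∑ p ∈ K, Real.log p - Real.log Δ) / Real.log z) := by
      apply Real.one_le_exp
      apply div_nonneg _ hL.le
      linarith
    nlinarith
  have hsum : Tl g w z Δ ≤ Real.exp 1 * Real.exp (-(Real.log Δ / Real.log z)) *
      ∏ p ∈ prs w z, (1 + a p) := by
    unfold Tl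
    calc _ ≤ ∑ K ∈ (prs w z).powerset.filter (fun K => Δ < z * ∏ p ∈ K, p),
          Real.exp 1 * Real.exp (-(Real.log Δ / Real.log z)) * ∏ p ∈ K, a p :=
          Finset.sum_le_sum hterm
      _ ≤ ∑ K ∈ (prs w z).powerset,
          Real.exp 1 * Real.exp (-(Real.log Δ / Real.log z)) * ∏ p ∈ K, a p := by
          apply Finset.sum_le_sum_of_subset_of_nonneg (Finset.filter_subset _ _)
          intro K hK _
          have : 0 ≤ ∏ p ∈ K, a p := Finset.prod_nonneg (fun p hp => ha0 p (mem_powerset.mp hK hp))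
          positivity
      _ = _ := by
          rw [← Finset.mul_sum, Finset.prod_one_add]
  refine hsum.trans ?_
  apply mul_le_mul_of_nonneg_left _ (by positivity)
  calc ∏ p ∈ prs w z, (1 + a p) ≤ ∏ p ∈ prs w z, Real.exp (a p) := by
        apply Finset.prod_le_prod
        · intro p hp; have := ha0 p hp; linarith
        · intro p hp; have := Real.add_one_le_exp (a p); linarith
    _ = Real.exp (∑ p ∈ prs w z, a p) := by rw [Real.exp_sum]
    _ ≤ _ := by
        apply Real.exp_le_exp.mpr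
        calc ∑ p ∈ prs w z, a p ≤ ∑ p ∈ prs w z, 3 * h * (1 / (p : ℝ)) := by
              apply Finset.sum_le_sum
              intro p hp
              have hp0 : (0 : ℝ) < p := by exact_mod_cast (hprs p hp).1.pos
              have h1 : Real.exp (Real.log p / Real.log z) ≤ 3 := by
                have h2 : Real.log p / Real.log z ≤ 1 := by
                  rw [div_le_one hL]
                  apply Real.log_le_log hp0
                  exact_mod_cast (hprs p hp).2
                have h3 : Real.exp (Real.log p / Real.log z) ≤ Real.exp 1 := Real.exp_le_exp.mpr h2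
                have h4 : Real.exp 1 < 3 := by
                  have := Real.exp_one_lt_d9
                  linarith
                linarith
              have h5 := hg p hp
              calc a p = Real.exp (Real.log p / Real.log z) * g p := rfl
                _ ≤ 3 * (h / (p : ℝ)) := mul_le_mul h1 h5.2 h5.1 (by norm_num)
                _ = _ := by ring
          _ = 3 * h * ∑ p ∈ prs w z, (1 : ℝ) / p := by rw [← Finset.mul_sum]
          _ ≤ _ := by
              apply mul_le_mul_of_nonneg_left (sum_inv_prs w z) (by positivity)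

end PoolPK
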