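import Pool.Agent.Work.MP_70e905_nt.PK.P.Defs
import Pool.Agent.Work.BV.DIVS

/-!
# PK/P/Sig (size M): absolute sum

PROOF. For `S ∈ idx H z R` the set `U = Un H S` is a set of primes in `(z, R]` with `∏ U ≤ ∏_{e ∈ H} ∏ (S e) ≤ R ^ (2 #H)` (a union;
every `p ∈ U` lies in some `S e`). Sort by `U`: `S` is determined by the subsets `S e ⊆ U`, `e ∈ H` (`S e = ∅` for `e ∉ H`), so there are at most
`(2 ^ #U) ^ #H` of them, and `∏_{e ∈ H} |ρ (S e)| ≤ ∏ 4 ^ #(S e) ≤ (4 ^ #U) ^ #H`. So the sum is at most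
`∑_U (8 ^ #H) ^ #U / ∏ U ≤ ∑_{q ≤ R ^ (2 #H)} (8 ^ #H) ^ ω(q) / q ≤ (1 + log (R ^ (2 #H))) ^ (8 ^ #H)` by `BV.omega_sum (8 ^ #H) (R ^ (2 #H))`
(`U ↦ ∏ U` is injective on sets of primes, `Nat.primeFactors_prod`).
-/

set_option autoImplicit false

namespace PoolPK

open Finset

variable {V : Type} [Fintype V] [DecidableEq V]

private lemma sig_prod_biUnion_le {ι : Type*} [DecidableEq ι] (H : Finset ι) (S : ι → Finset ℕ)
    (hp : ∀ e ∈ H, ∀ p ∈ S e, 0 < p) :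
    ∏ p ∈ H.biUnion S, p ≤ ∏ e ∈ H, ∏ p ∈ S e, p := by
  induction H using Finset.induction_on with
  | empty => simp
  | insert e H he ih =>
    rw [Finset.biUnion_insert, Finset.prod_insert he]
    have h1 := ih (fun e' h' => hp e' (Finset.mem_insert_of_mem h'))
    have h2 := Finset.prod_union_inter (s₁ := S e) (s₂ := H.biUnion S) (f := fun p : ℕ => p)
    have h3 : 0 < ∏ p ∈ S e ∩ H.biUnion S, p := by
      apply Finset.prod_pos
      intro p hpp
      exact hp e (Finset.mem_insert_self _ _) p (Finset.mem_inter.1 hpp).1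
    calc ∏ p ∈ S e ∪ H.biUnion S, p
        ≤ (∏ p ∈ S e ∪ H.biUnion S, p) * ∏ p ∈ S e ∩ H.biUnion S, p :=
          Nat.le_mul_of_pos_right _ h3
      _ = (∏ p ∈ S e, p) * ∏ p ∈ H.biUnion S, p := h2
      _ ≤ _ := Nat.mul_le_mul_left _ h1

private lemma sig_mem_idx {H : Finset (V × V)} {z R : ℕ} {S : V × V → Finset ℕ}
    (hS : S ∈ idx H z R) (e : V × V) (he : e ∈ H) :
    S e ⊆ prs z R ∧ ∏ p ∈ S e, p ≤ R ^ 2 := by
  have h := Fintype.mem_piFinset.1 hS e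
  rw [if_pos he, fam, Finset.mem_filter, Finset.mem_powerset] at h
  exact h

private lemma sig_mem_idx' {H : Finset (V × V)} {z R : ℕ} {S : V × V → Finset ℕ}
    (hS : S ∈ idx H z R) (e : V × V) (he : e ∉ H) : S e = ∅ := by
  have h := Fintype.mem_piFinset.1 hS e
  rw [if_neg he, Finset.mem_singleton] at h
  exact h

private lemma sig_prime {z R p : ℕ} (hp : p ∈ prs z R) : p.Prime := (Finset.mem_filter.1 hp).2

private lemma sig_un_sub {H : Finset (V × V)} {z R : ℕ} {S : V × V → Finset ℕ}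
    (hS : S ∈ idx H z R) : Un H S ⊆ prs z R := by
  intro p hp
  rw [Un, Finset.mem_biUnion] at hp
  obtain ⟨e, he, hpe⟩ := hp
  exact (sig_mem_idx hS e he).1 hpe

private lemma sig_prod_un_le (H : Finset (V × V)) (z R : ℕ) (S : V × V → Finset ℕ)
    (hS : S ∈ idx H z R) : ∏ p ∈ Un H S, p ≤ R ^ (2 * #H) := by
  rw [Un]
  refine (sig_prod_biUnion_le H S fun e he p hp =>
    (sig_prime ((sig_mem_idx hS e he).1 hp)).pos).trans ?_
  calc ∏ e ∈ H, ∏ p ∈ S e, p ≤ ∏ _e ∈ H, R ^ 2 :=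
        Finset.prod_le_prod' fun e he => (sig_mem_idx hS e he).2
    _ = R ^ (2 * #H) := by rw [Finset.prod_const, ← pow_mul]

private lemma sig_term (H : Finset (V × V)) (z R : ℕ) (ρ : Finset ℕ → ℝ)
    (hρ : ∀ T, |ρ T| ≤ 4 ^ (#T)) (S : V × V → Finset ℕ) (U : Finset ℕ) (hU : Un H S = U) :
    (∏ e ∈ H, |ρ (S e)|) * ∏ p ∈ Un H S, 1 / (p : ℝ) ≤
      ((4 : ℝ) ^ (#U)) ^ (#H) * ∏ p ∈ U, 1 / (p : ℝ) := by
  rw [hU]
  apply mul_le_mul_of_nonneg_right _ (Finset.prod_nonneg fun p _ => by positivity)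
  calc ∏ e ∈ H, |ρ (S e)| ≤ ∏ _e ∈ H, (4 : ℝ) ^ (#U) := by
        apply Finset.prod_le_prod (fun e _ => abs_nonneg _)
        intro e he
        refine (hρ _).trans (pow_le_pow_right₀ (by norm_num) (Finset.card_le_card ?_))
        rw [← hU, Un]
        exact Finset.subset_biUnion_of_mem S he
    _ = _ := by rw [Finset.prod_const]

private lemma sig_card (H : Finset (V × V)) (z R : ℕ) (U : Finset ℕ) :
    #((idx H z R).filter (fun S => Un H S = U)) ≤ (2 ^ (#U)) ^ (#H) := by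
  have h1 : (idx H z R).filter (fun S => Un H S = U) ⊆
      Fintype.piFinset (fun e => if e ∈ H then U.powerset else {∅}) := by
    intro S hS
    rw [Finset.mem_filter] at hS
    rw [Fintype.mem_piFinset]
    intro e
    by_cases he : e ∈ H
    · rw [if_pos he, Finset.mem_powerset, ← hS.2, Un]
      exact Finset.subset_biUnion_of_mem S he
    · rw [if_neg he, Finset.mem_singleton]
      exact sig_mem_idx' hS.1 e he
  refine (Finset.card_le_card h1).trans ?_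
  rw [Fintype.card_piFinset]
  have h2 : ∀ e : V × V, #(if e ∈ H then U.powerset else {∅}) = if e ∈ H then 2 ^ (#U) else 1 := by
    intro e
    by_cases he : e ∈ H
    · rw [if_pos he, if_pos he, Finset.card_powerset]
    · rw [if_neg he, if_neg he, Finset.card_singleton]
  rw [Finset.prod_congr rfl (fun e _ => h2 e), Finset.prod_ite_mem, Finset.univ_inter,
    Finset.prod_const]

theorem sig (H : Finset (V × V)) (z R : ℕ) (hR : 1 ≤ R) (ρ : Finset ℕ → ℝ)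
    (hρ : ∀ T, |ρ T| ≤ 4 ^ (#T)) :
    ∑ S ∈ idx H z R, (∏ e ∈ H, |ρ (S e)|) * ∏ p ∈ Un H S, 1 / (p : ℝ) ≤
      (1 + 2 * #H * Real.log R) ^ (8 ^ #H) := by
  classical
  set 𝒰 : Finset (Finset ℕ) := (idx H z R).image (Un H) with h𝒰
  have hmem : ∀ U ∈ 𝒰, U ⊆ prs z R ∧ ∏ p ∈ U, p ≤ R ^ (2 * #H) := by
    intro U hU
    rw [h𝒰, Finset.mem_image] at hU
    obtain ⟨S, hS, rfl⟩ := hU
    exact ⟨sig_un_sub hS, sig_prod_un_le H z R S hS⟩
  have hpr : ∀ U ∈ 𝒰, ∀ p ∈ U, p.Prime := fun U hU p hp => sig_prime ((hmem U hU).1 hp)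
  -- sort by the union
  have h1 : ∑ S ∈ idx H z R, (∏ e ∈ H, |ρ (S e)|) * ∏ p ∈ Un H S, 1 / (p : ℝ) ≤
      ∑ U ∈ 𝒰, ((8 ^ #H : ℕ) : ℝ) ^ (#U) * ∏ p ∈ U, 1 / (p : ℝ) := by
    rw [← Finset.sum_fiberwise_of_maps_to (s := idx H z R) (t := 𝒰) (g := Un H)
      (fun S hS => Finset.mem_image_of_mem _ hS)]
    apply Finset.sum_le_sum
    intro U hU
    have hnn : (0 : ℝ) ≤ ∏ p ∈ U, 1 / (p : ℝ) := Finset.prod_nonneg fun p _ => by positivity
    calc ∑ S ∈ (idx H z R).filter (fun S => Un H S = U),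
          (∏ e ∈ H, |ρ (S e)|) * ∏ p ∈ Un H S, 1 / (p : ℝ)
        ≤ ∑ _S ∈ (idx H z R).filter (fun S => Un H S = U),
          ((4 : ℝ) ^ (#U)) ^ (#H) * ∏ p ∈ U, 1 / (p : ℝ) := by
          apply Finset.sum_le_sum
          intro S hS
          exact sig_term H z R ρ hρ S U (Finset.mem_filter.1 hS).2
      _ = (#((idx H z R).filter (fun S => Un H S = U)) : ℝ) *
          (((4 : ℝ) ^ (#U)) ^ (#H) * ∏ p ∈ U, 1 / (p : ℝ)) := by
          rw [Finset.sum_const, nsmul_eq_mul]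
      _ ≤ (((2 : ℝ) ^ (#U)) ^ (#H)) * (((4 : ℝ) ^ (#U)) ^ (#H) * ∏ p ∈ U, 1 / (p : ℝ)) := by
          apply mul_le_mul_of_nonneg_right _ (by positivity)
          exact_mod_cast sig_card H z R U
      _ = ((8 ^ #H : ℕ) : ℝ) ^ (#U) * ∏ p ∈ U, 1 / (p : ℝ) := by
          rw [← mul_assoc, ← mul_pow, ← mul_pow]
          push_cast
          norm_num
          left
          rw [← pow_mul, ← pow_mul, mul_comm]
  refine h1.trans ?_
  -- the map to integers
  have h2 : ∀ U ∈ 𝒰, ((8 ^ #H : ℕ) : ℝ) ^ (#U) * ∏ p ∈ U, 1 / (p : ℝ) =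
      ((8 ^ #H : ℕ) : ℝ) ^ (#(∏ p ∈ U, p).primeFactors) / ((∏ p ∈ U, p : ℕ) : ℝ) := by
    intro U hU
    rw [Nat.primeFactors_prod (hpr U hU), Nat.cast_prod, div_eq_mul_inv, ← Finset.prod_inv_distrib]
    congr 1
    exact Finset.prod_congr rfl fun p _ => one_div _
  rw [Finset.sum_congr rfl h2]
  have hinj : Set.InjOn (fun U : Finset ℕ => ∏ p ∈ U, p) 𝒰 := by
    intro U hU U' hU' h
    have h3 : (∏ p ∈ U, p).primeFactors = (∏ p ∈ U', p).primeFactors := congrArg _ h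
    rwa [Nat.primeFactors_prod (hpr U hU), Nat.primeFactors_prod (hpr U' hU')] at h3
  rw [← Finset.sum_image (s := 𝒰) (g := fun U : Finset ℕ => ∏ p ∈ U, p)
    (f := fun q : ℕ => ((8 ^ #H : ℕ) : ℝ) ^ (#q.primeFactors) / (q : ℝ)) hinj]
  have hQ : 0 < R ^ (2 * #H) := by positivity
  have h4 := BV.omega_sum (8 ^ #H) (R ^ (2 * #H)) hQ
  have h5 : Real.log ((R ^ (2 * #H) : ℕ) : ℝ) = 2 * #H * Real.log R := by
    push_cast
    rw [Real.log_pow]
    push_cast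
    ring
  rw [h5] at h4
  refine le_trans ?_ h4
  apply Finset.sum_le_sum_of_subset_of_nonneg
  · intro q hq
    rw [Finset.mem_image] at hq
    obtain ⟨U, hU, rfl⟩ := hq
    rw [Finset.mem_Icc]
    exact ⟨Finset.prod_pos fun p hp => (hpr U hU p hp).pos, (hmem U hU).2⟩
  · intro q _ _
    positivity

theorem prod_un_le (H : Finset (V × V)) (z R : ℕ) (hR : 1 ≤ R) (S : V × V → Finset ℕ)
    (hS : S ∈ idx H z R) : ∏ p ∈ Un H S, p ≤ R ^ (2 * #H) :=
  sig_prod_un_le H z R S hS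

end PoolPK
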