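import Pool.Agent.Work.MP_70e905_nt.PK.P.Sift
import Pool.Agent.Work.MP_70e905_nt.PK.P.Alp
import Pool.Agent.Work.MP_70e905_nt.PK.P.Exp
import Pool.Agent.Work.MP_70e905_nt.PK.P.Sig
import Pool.Agent.Work.MP_70e905_nt.PK.P.Rank
import Pool.Agent.Work.MP_70e905_nt.PK.S.QUp

/-!
# PK/P/Comb (size M): the correlation sum with an explicit error

PROOF. Write `X = ∏ l i`, `h = #H`, `n = card V`, `Q = Qf w z R`, `G = GS (prs z R) R`, `E = 2 Tl + 2 * 2 ^ n Δ ^ 2 R ^ (2 h) / m0`. `expand`: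
the sum is `Q ^ h ∑_S (∏ ρ (S e)) cnt S`. For `S ∈ idx H z R` the elements of `S e`, `e ∈ H`, are primes `> z`, `∏ (Un H S) ≤ R ^ (2 h)` (`prod_un_le`), so
`cnt_asymp` gives `cnt S = X alp S Vf + θ X alp S E`, `|θ| ≤ 1`. By `alp_le`, `alp_close`, `0 ≤ Vf ≤ 1` (densities are in `[0, 1]`):
`|∑_S (∏ ρ) cnt S - X Vf ∑_S (∏ ρ) ∏_{e} ∏_{p ∈ S e} 1 / p| ≤ X (E + 1 / z) ∑_S ∏ |ρ (S e)| ∏_{p ∈ Un} 1 / p ≤ X (E + 1 / z) (1 + 2 h log R) ^ (8 ^ h)` (`sig`).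
`prod_main`: the main sum is `G ^ (-h)`, and `Q ^ h G ^ (-h) = (∏_{p ∈ prs w z} (1 - 1 / p)⁻¹) ^ h` (`G > 0`). `Q > 0`.
-/

set_option autoImplicit false

namespace PoolPK

open Finset

variable {V : Type} [Fintype V] [DecidableEq V]

private theorem idx_mem {H : Finset (V × V)} {z R : ℕ} {S : V × V → Finset ℕ}
    (hS : S ∈ idx H z R) : ∀ e ∈ H, ∀ p ∈ S e, p.Prime ∧ z < p := by
  intro e he p hp
  have h1 := Fintype.mem_piFinset.1 hS e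
  rw [if_pos he, fam, mem_filter, mem_powerset] at h1
  have h2 := h1.1 hp
  rw [prs, mem_filter, mem_Ioc] at h2
  exact ⟨h2.2, h2.1.1⟩

private theorem vf_bd (H : Finset (V × V)) (b c : V × V → ℤ) (w z : ℕ) :
    0 ≤ Vf H b c w z ∧ Vf H b c w z ≤ 1 := by
  have h : ∀ p, 0 ≤ 1 - dens p (Bad H b c p) := fun p => by
    have := dens_le_one p (Bad H b c p)
    linarith
  refine ⟨prod_nonneg fun p _ => h p, prod_le_one (fun p _ => h p) fun p _ => ?_⟩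
  have := dens_nonneg p (Bad H b c p)
  linarith

theorem comb (H : Finset (V × V)) (b c : V × V → ℤ) (w z R Δ m0 : ℕ) (hwz : w ≤ z) (hz : 2 ≤ z)
    (hR : 1 ≤ R) (hΔ : 1 ≤ Δ) (hok : Ok H c w) (ρ : Finset ℕ → ℝ) (hρ : Wt (prs z R) R ρ)
    (A : V → ℤ) (l : V → ℕ) (hl : ∀ i, m0 ≤ l i) (hm : Δ * R ^ (2 * #H) ≤ m0) :
    |∑ v ∈ box A l, ∏ e ∈ H, nu w z R ρ (psi b c e v) -
        (∏ i, (l i : ℝ)) * (Vf H b c w z * (∏ p ∈ prs w z, (1 - 1 / (p : ℝ))⁻¹) ^ #H)| ≤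
      (∏ i, (l i : ℝ)) * (Qf w z R ^ #H * (1 + 2 * #H * Real.log R) ^ (8 ^ #H) *
        (2 * Tl (fun p => dens p (Bad H b c p)) w z Δ +
          2 * 2 ^ Fintype.card V * (Δ : ℝ) ^ 2 * (R : ℝ) ^ (2 * #H) / m0 + 1 / z)) := by
  obtain ⟨Cq, -, hCq⟩ := qf_upper
  have hQ0 : 0 < Qf w z R := (hCq w z R hz hR).1
  have hG : 1 ≤ GS (prs z R) R := gs_pos _ (fun p hp => (mem_filter.1 hp).2) R hR
  obtain ⟨X, hX⟩ : ∃ X : ℝ, X = ∏ i, (l i : ℝ) := ⟨_, rfl⟩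
  have hX0 : 0 ≤ X := by
    rw [hX]
    exact prod_nonneg fun i _ => Nat.cast_nonneg _
  obtain ⟨M, hM⟩ : ∃ M : ℝ, M = ∏ p ∈ prs w z, (1 - 1 / (p : ℝ))⁻¹ := ⟨_, rfl⟩
  obtain ⟨Vv, hVv⟩ : ∃ Vv : ℝ, Vv = Vf H b c w z := ⟨_, rfl⟩
  obtain ⟨hV0, hV1⟩ := vf_bd H b c w z
  rw [← hVv] at hV0 hV1
  obtain ⟨T, hT⟩ : ∃ T : ℝ, T = Tl (fun p => dens p (Bad H b c p)) w z Δ := ⟨_, rfl⟩
  have hT0 : 0 ≤ T := by
    rw [hT]
    exact tl_nonneg w z Δ _ fun p _ => dens_nonneg p _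
  obtain ⟨E, hE⟩ : ∃ E : ℝ, E = 2 * 2 ^ Fintype.card V * (Δ : ℝ) ^ 2 * (R : ℝ) ^ (2 * #H) / m0 :=
    ⟨_, rfl⟩
  have hE0 : 0 ≤ E := by
    rw [hE]
    positivity
  have hzi : 0 ≤ 1 / (z : ℝ) := by positivity
  rw [← hX, ← hVv, ← hM, ← hT, ← hE]
  have hQM : Qf w z R ^ #H * ((GS (prs z R) R)⁻¹) ^ #H = M ^ #H := by
    rw [← mul_pow]
    congr 1
    rw [Qf, ← hM]
    have hG0 : GS (prs z R) R ≠ 0 := by linarith
    field_simp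
  have hmain := prod_main H z R ρ hρ
  rw [expand H b c w z R ρ A l, ← hQM, ← hmain]
  have e1 : Qf w z R ^ #H * ∑ S ∈ idx H z R, (∏ e ∈ H, ρ (S e)) * (cnt H b c w z S A l : ℝ) -
      X * (Vv * (Qf w z R ^ #H * ∑ S ∈ idx H z R,
        (∏ e ∈ H, ρ (S e)) * ∏ e ∈ H, ∏ p ∈ S e, 1 / (p : ℝ))) =
      Qf w z R ^ #H * ∑ S ∈ idx H z R, (∏ e ∈ H, ρ (S e)) *
        ((cnt H b c w z S A l : ℝ) - X * Vv * ∏ e ∈ H, ∏ p ∈ S e, 1 / (p : ℝ)) := by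
    have e2 : ∑ S ∈ idx H z R, (∏ e ∈ H, ρ (S e)) *
        ((cnt H b c w z S A l : ℝ) - X * Vv * ∏ e ∈ H, ∏ p ∈ S e, 1 / (p : ℝ)) =
        ∑ S ∈ idx H z R, (∏ e ∈ H, ρ (S e)) * (cnt H b c w z S A l : ℝ) -
          X * Vv * ∑ S ∈ idx H z R, (∏ e ∈ H, ρ (S e)) * ∏ e ∈ H, ∏ p ∈ S e, 1 / (p : ℝ) := by
      rw [mul_sum, ← sum_sub_distrib]
      refine sum_congr rfl fun S _ => ?_
      ring
    rw [e2]
    ring
  rw [e1, abs_mul, abs_of_pos (pow_pos hQ0 _)]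
  have hterm : ∀ S ∈ idx H z R,
      |(cnt H b c w z S A l : ℝ) - X * Vv * ∏ e ∈ H, ∏ p ∈ S e, 1 / (p : ℝ)| ≤
        X * (2 * T + E + 1 / z) * ∏ p ∈ Un H S, 1 / (p : ℝ) := by
    intro S hS
    have hSp := idx_mem hS
    have hun : (∏ p ∈ Un H S, p) ≤ R ^ (2 * #H) := prod_un_le H z R hR S hS
    have hunR : (∏ p ∈ Un H S, (p : ℝ)) ≤ (R : ℝ) ^ (2 * #H) := by
      have h1 : ((∏ p ∈ Un H S, p : ℕ) : ℝ) ≤ ((R ^ (2 * #H) : ℕ) : ℝ) := Nat.cast_le.2 hun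
      push_cast at h1
      exact h1
    have hc := cnt_asymp H b c w z Δ m0 hΔ S hSp A l hl
      ((Nat.mul_le_mul_left _ hun).trans hm)
    rw [← hX, ← hVv, ← hT] at hc
    obtain ⟨ha0, ha1⟩ := alp_le H b c w z hwz hok S hSp
    have hcl := alp_close H b c w z hwz (by omega) hok S hSp
    obtain ⟨a, ha⟩ : ∃ a : ℝ, a = alp H b c S := ⟨_, rfl⟩
    obtain ⟨β, hβ⟩ : ∃ β : ℝ, β = ∏ e ∈ H, ∏ p ∈ S e, 1 / (p : ℝ) := ⟨_, rfl⟩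
    obtain ⟨π, hπ⟩ : ∃ π : ℝ, π = ∏ p ∈ Un H S, 1 / (p : ℝ) := ⟨_, rfl⟩
    obtain ⟨E', hE'⟩ : ∃ E' : ℝ, E' = 2 * 2 ^ Fintype.card V * (Δ : ℝ) ^ 2 *
      (∏ p ∈ Un H S, (p : ℝ)) / m0 := ⟨_, rfl⟩
    rw [← ha, ← hE'] at hc
    rw [← ha, ← hπ] at ha1
    rw [← ha] at ha0
    rw [← ha, ← hβ, ← hπ] at hcl
    rw [← hβ, ← hπ]
    have hEE : E' ≤ E := by
      rw [hE', hE]
      gcongr
    have hE'0 : 0 ≤ E' := by
      rw [hE']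
      have : 0 ≤ ∏ p ∈ Un H S, (p : ℝ) := prod_nonneg fun p _ => Nat.cast_nonneg _
      positivity
    have h1 : |(cnt H b c w z S A l : ℝ) - X * Vv * β| ≤
        |(cnt H b c w z S A l : ℝ) - X * a * Vv| + |X * Vv * (a - β)| := by
      have h2 : (cnt H b c w z S A l : ℝ) - X * Vv * β =
          ((cnt H b c w z S A l : ℝ) - X * a * Vv) + X * Vv * (a - β) := by ring
      rw [h2]
      exact abs_add_le _ _
    have h3 : |X * Vv * (a - β)| ≤ X * (1 / z * π) := by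
      rw [abs_mul, abs_of_nonneg (mul_nonneg hX0 hV0)]
      calc X * Vv * |a - β| ≤ X * 1 * |a - β| :=
            mul_le_mul_of_nonneg_right (mul_le_mul_of_nonneg_left hV1 hX0) (abs_nonneg _)
        _ ≤ X * 1 * (1 / z * π) := mul_le_mul_of_nonneg_left hcl (by positivity)
        _ = X * (1 / z * π) := by ring
    have h4 : X * a * (2 * T + E') ≤ X * π * (2 * T + E) :=
      mul_le_mul (mul_le_mul_of_nonneg_left ha1 hX0) (by linarith) (by positivity)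
        (mul_nonneg hX0 (ha0.trans ha1))
    calc |(cnt H b c w z S A l : ℝ) - X * Vv * β| ≤ X * π * (2 * T + E) + X * (1 / z * π) := by
          linarith
      _ = X * (2 * T + E + 1 / z) * π := by ring
  have hsum : |∑ S ∈ idx H z R, (∏ e ∈ H, ρ (S e)) *
      ((cnt H b c w z S A l : ℝ) - X * Vv * ∏ e ∈ H, ∏ p ∈ S e, 1 / (p : ℝ))| ≤
      X * (2 * T + E + 1 / z) * (1 + 2 * #H * Real.log R) ^ (8 ^ #H) := by
    refine (abs_sum_le_sum_abs _ _).trans ?_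
    calc ∑ S ∈ idx H z R, |(∏ e ∈ H, ρ (S e)) *
          ((cnt H b c w z S A l : ℝ) - X * Vv * ∏ e ∈ H, ∏ p ∈ S e, 1 / (p : ℝ))|
        ≤ ∑ S ∈ idx H z R, X * (2 * T + E + 1 / z) *
            ((∏ e ∈ H, |ρ (S e)|) * ∏ p ∈ Un H S, 1 / (p : ℝ)) := by
          refine sum_le_sum fun S hS => ?_
          rw [abs_mul, abs_prod]
          calc (∏ e ∈ H, |ρ (S e)|) * |(cnt H b c w z S A l : ℝ) -
                X * Vv * ∏ e ∈ H, ∏ p ∈ S e, 1 / (p : ℝ)|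
              ≤ (∏ e ∈ H, |ρ (S e)|) *
                (X * (2 * T + E + 1 / z) * ∏ p ∈ Un H S, 1 / (p : ℝ)) :=
                mul_le_mul_of_nonneg_left (hterm S hS) (prod_nonneg fun e _ => abs_nonneg _)
            _ = _ := by ring
      _ = X * (2 * T + E + 1 / z) * ∑ S ∈ idx H z R,
            (∏ e ∈ H, |ρ (S e)|) * ∏ p ∈ Un H S, 1 / (p : ℝ) := by rw [mul_sum]
      _ ≤ X * (2 * T + E + 1 / z) * (1 + 2 * #H * Real.log R) ^ (8 ^ #H) :=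
          mul_le_mul_of_nonneg_left (sig H z R hR ρ hρ.bound) (by positivity)
  calc Qf w z R ^ #H * |∑ S ∈ idx H z R, (∏ e ∈ H, ρ (S e)) *
        ((cnt H b c w z S A l : ℝ) - X * Vv * ∏ e ∈ H, ∏ p ∈ S e, 1 / (p : ℝ))|
      ≤ Qf w z R ^ #H * (X * (2 * T + E + 1 / z) * (1 + 2 * #H * Real.log R) ^ (8 ^ #H)) :=
        mul_le_mul_of_nonneg_left hsum (pow_pos hQ0 _).le
    _ = _ := by ring

end PoolPK
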