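import Mathlib

/-!
# PK/P/Defs : definitions of the blocks S (Selberg weights), P (correlations of the majorant)

Fixed file, do not change. A squarefree number is represented by its finite set of primes.
-/

set_option autoImplicit false

namespace PoolPK

open Finset

/-- the primes in `(w, z]` -/
def prs (w z : ℕ) : Finset ℕ := (Ioc w z).filter Nat.Prime

/-- the subsets of `P` with product at most `R` -/
def fam (P : Finset ℕ) (R : ℕ) : Finset (Finset ℕ) := P.powerset.filter (fun T => ∏ p ∈ T, p ≤ R)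

/-- the Selberg sum -/
noncomputable def GS (P : Finset ℕ) (R : ℕ) : ℝ := ∑ T ∈ fam P R, ∏ p ∈ T, 1 / ((p : ℝ) - 1)

open Classical in
/-- `sum of ρ T` over the `T` in `fam P Y` all elements of which divide `n` -/
noncomputable def tsum' (P : Finset ℕ) (Y : ℕ) (ρ : Finset ℕ → ℝ) (n : ℤ) : ℝ :=
  ∑ T ∈ fam P Y, if (∀ p ∈ T, (p : ℤ) ∣ n) then ρ T else 0

/-- the normalising factor `Q` -/
noncomputable def Qf (w z R : ℕ) : ℝ :=
  GS (prs z R) R * ∏ p ∈ prs w z, (1 - 1 / (p : ℝ))⁻¹

open Classical in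
/-- the majorant, a function of the integer `n` -/
noncomputable def nu (w z R : ℕ) (ρ : Finset ℕ → ℝ) (n : ℤ) : ℝ :=
  if (∀ p ∈ prs w z, ¬ (p : ℤ) ∣ n) then Qf w z R * tsum' (prs z R) (R ^ 2) ρ n else 0

/-- the properties of the Selberg weights which are used -/
structure Wt (P : Finset ℕ) (R : ℕ) (ρ : Finset ℕ → ℝ) : Prop where
  bound : ∀ T, |ρ T| ≤ 4 ^ (#T)
  empty : ρ ∅ = 1
  nonneg : ∀ n : ℤ, 0 ≤ tsum' P (R ^ 2) ρ n
  main : ∑ T ∈ fam P (R ^ 2), ρ T * ∏ p ∈ T, 1 / (p : ℝ) = (GS P R)⁻¹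

section box

variable {V : Type} [Fintype V] [DecidableEq V]

/-- the box with lower corner `A` and side lengths `l` -/
noncomputable def box (A : V → ℤ) (l : V → ℕ) : Finset (V → ℤ) :=
  Fintype.piFinset (fun i => Ico (A i) (A i + l i))

/-- a complete system of residues modulo `q` -/
noncomputable def cube (V : Type) [Fintype V] [DecidableEq V] (q : ℕ) : Finset (V → ℤ) :=
  Fintype.piFinset (fun _ => Ico (0 : ℤ) q)

open Classical in
/-- density of a condition modulo `q` -/
noncomputable def dens (q : ℕ) (C : (V → ℤ) → Prop) : ℝ :=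
  (#((cube V q).filter C) : ℝ) / (q : ℝ) ^ (Fintype.card V)

/-- `C v` depends only on `v` modulo `q` -/
def Per (q : ℕ) (C : (V → ℤ) → Prop) : Prop :=
  ∀ v v' : V → ℤ, (∀ i, (q : ℤ) ∣ v' i - v i) → (C v ↔ C v')

/-- the form of the edge `e` -/
def psi (b c : V × V → ℤ) (e : V × V) (v : V → ℤ) : ℤ := b e + c e * (v e.2 - v e.1)

/-- `H` is a set of edges without loops, two different edges do not have the same ends, and
`c e` is not divisible by the primes larger than `w` -/
structure Ok (H : Finset (V × V)) (c : V × V → ℤ) (w : ℕ) : Prop where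
  loop : ∀ e ∈ H, e.1 ≠ e.2
  ends : ∀ e ∈ H, ∀ f ∈ H, e ≠ f → ∃ x, (x = f.1 ∨ x = f.2) ∧ x ≠ e.1 ∧ x ≠ e.2
  unit : ∀ e ∈ H, ∀ p : ℕ, p.Prime → w < p → ¬ (p : ℤ) ∣ c e

/-- some form is divisible by `p` -/
def Bad (H : Finset (V × V)) (b c : V × V → ℤ) (p : ℕ) (v : V → ℤ) : Prop :=
  ∃ e ∈ H, (p : ℤ) ∣ psi b c e v

/-- the forms of the edges `e` with `p ∈ S e` are divisible by `p` -/
def All (H : Finset (V × V)) (b c : V × V → ℤ) (S : V × V → Finset ℕ) (p : ℕ) (v : V → ℤ) : Prop :=
  ∀ e ∈ H, p ∈ S e → (p : ℤ) ∣ psi b c e v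

/-- the union of the `S e` -/
def Un (H : Finset (V × V)) (S : V × V → Finset ℕ) : Finset ℕ := H.biUnion S

/-- the density belonging to `S` -/
noncomputable def alp (H : Finset (V × V)) (b c : V × V → ℤ) (S : V × V → Finset ℕ) : ℝ :=
  ∏ p ∈ Un H S, dens p (All H b c S p)

open Classical in
/-- the number of `v` in the box with all conditions -/
noncomputable def cnt (H : Finset (V × V)) (b c : V × V → ℤ) (w z : ℕ) (S : V × V → Finset ℕ)
    (A : V → ℤ) (l : V → ℕ) : ℕ :=
  #((box A l).filter (fun v => (∀ p ∈ Un H S, All H b c S p v) ∧ ∀ p ∈ prs w z, ¬ Bad H b c p v))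

/-- the product of the densities of the unsieved classes for the primes in `(w, z]` -/
noncomputable def Vf (H : Finset (V × V)) (b c : V × V → ℤ) (w z : ℕ) : ℝ :=
  ∏ p ∈ prs w z, (1 - dens p (Bad H b c p))

/-- the sum over the large sets of primes in `(w, z]` -/
noncomputable def Tl (g : ℕ → ℝ) (w z Δ : ℕ) : ℝ :=
  ∑ K ∈ (prs w z).powerset.filter (fun K => Δ < z * ∏ p ∈ K, p), ∏ p ∈ K, g p

/-- the index set of the expansion of the product over the edges in `H` -/
noncomputable def idx (H : Finset (V × V)) (z R : ℕ) : Finset (V × V → Finset ℕ) :=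
  Fintype.piFinset (fun e => if e ∈ H then fam (prs z R) (R ^ 2) else {∅})

end box

end PoolPK
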