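import Pool.Agent.Work.MP_70e905_nt.PK.P.Defs

/-!
# PK/P/Eul (size M): the Euler product is near 1

PROOF. Let `p > w ≥ 2 h + 2`, `x = 1 / p`. `(1 - g p) (1 - x) ^ (-h)`: from `1 - h x ≤ 1 - g p ≤ 1 - h x + h ^ 2 x ^ 2` and
`1 - h x ≤ (1 - x) ^ h ≤ 1 - h x + h ^ 2 x ^ 2` (Bernoulli; the upper bound by induction on `h`), `(1 - x) ^ h ≥ 1 - h x ≥ 1 / 2`, the factor
lies in `[1 - 2 h ^ 2 x ^ 2, 1 + 2 h ^ 2 x ^ 2]`. With `a_p = 2 h ^ 2 / p ^ 2 ≤ 1 / 2`: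
`1 - ∑ a_p ≤ ∏ ≤ exp (∑ a_p)` and `∑_{p > w} a_p ≤ 2 h ^ 2 / w` (`∑_{n > w} 1 / n ^ 2 ≤ 1 / w`, telescoping). So `|∏ - 1| ≤ C / w` with
`C = 4 h ^ 2 + 4 h ^ 2 e ^ (2 h ^ 2)` or so (`exp t - 1 ≤ t exp t`, `t ≤ 2 h ^ 2 / w ≤ 2 h ^ 2`). Any `C` depending on `h` only will do.
-/

set_option autoImplicit false

namespace PoolPK

open Finset

private theorem eul_up (x : ℝ) (hx : 0 ≤ x) (hx1 : x ≤ 1) (h : ℕ) :
    (1 - x) ^ h ≤ 1 - h * x + (h : ℝ) ^ 2 * x ^ 2 := by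
  induction h with
  | zero => simp
  | succ h ih =>
    have h0 : (0 : ℝ) ≤ h := Nat.cast_nonneg h
    have h1 : 0 ≤ 1 - x := by linarith
    have h2 : (1 - x) ^ (h + 1) ≤ (1 - h * x + (h : ℝ) ^ 2 * x ^ 2) * (1 - x) := by
      rw [pow_succ]
      exact mul_le_mul_of_nonneg_right ih h1
    have h3 : 0 ≤ (h : ℝ) ^ 2 * x ^ 3 := by positivity
    have h4 : 0 ≤ (h : ℝ) * x ^ 2 := by positivity
    have h5 : 0 ≤ x ^ 2 := by positivity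
    push_cast
    nlinarith

private theorem eul_lo (x : ℝ) (hx1 : x ≤ 1) (h : ℕ) : 1 - h * x ≤ (1 - x) ^ h := by
  have := one_add_mul_le_pow (a := -x) (by linarith) h
  have e : 1 + (h : ℝ) * -x = 1 - h * x := by ring
  have e2 : (1 : ℝ) + -x = 1 - x := by ring
  rwa [e, e2] at this

private theorem eul_factor (h : ℕ) (x g : ℝ) (hx : 0 ≤ x) (hx1 : x ≤ 1) (hh : (h : ℝ) * x ≤ 1 / 2)
    (h1 : (h : ℝ) * x - (h : ℝ) ^ 2 * x ^ 2 ≤ g) (h2 : g ≤ (h : ℝ) * x) :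
    1 - 2 * (h : ℝ) ^ 2 * x ^ 2 ≤ (1 - g) * ((1 - x)⁻¹) ^ h ∧
      (1 - g) * ((1 - x)⁻¹) ^ h ≤ 1 + 2 * (h : ℝ) ^ 2 * x ^ 2 := by
  have hlo := eul_lo x hx1 h
  have hup := eul_up x hx hx1 h
  set P := (1 - x) ^ h with hP
  set y := (h : ℝ) * x with hy
  have hy2 : (h : ℝ) ^ 2 * x ^ 2 = y ^ 2 := by rw [hy]; ring
  have hy0 : 0 ≤ y := by positivity
  have hPpos : 0 < P := by linarith
  have e : (1 - g) * ((1 - x)⁻¹) ^ h = (1 - g) / P := by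
    rw [inv_pow, div_eq_mul_inv]
  rw [e]
  have e2 : 2 * (h : ℝ) ^ 2 * x ^ 2 = 2 * y ^ 2 := by rw [mul_assoc, hy2]
  rw [e2]
  rw [hy2] at h1 hup
  have hsq : y ^ 2 ≤ 1 / 4 := by nlinarith
  constructor
  · rw [le_div_iff₀ hPpos]
    nlinarith [sq_nonneg y, mul_nonneg (sq_nonneg y) hPpos.le]
  · rw [div_le_iff₀ hPpos]
    nlinarith [sq_nonneg y, mul_nonneg (sq_nonneg y) hPpos.le]

private theorem eul_prod_lo {ι : Type*} (s : Finset ι) (t a : ι → ℝ) (h0 : ∀ i ∈ s, 0 ≤ a i)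
    (h1 : ∀ i ∈ s, a i ≤ 1) (h : ∀ i ∈ s, 1 - a i ≤ t i) :
    1 - ∑ i ∈ s, a i ≤ ∏ i ∈ s, t i := by
  classical
  induction s using Finset.induction_on with
  | empty => simp
  | @insert i s hi ih =>
    have ih' := ih (fun j hj => h0 j (Finset.mem_insert_of_mem hj))
      (fun j hj => h1 j (Finset.mem_insert_of_mem hj)) (fun j hj => h j (Finset.mem_insert_of_mem hj))
    rw [Finset.sum_insert hi, Finset.prod_insert hi]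
    have a0 := h0 i (Finset.mem_insert_self i s)
    have a1 := h1 i (Finset.mem_insert_self i s)
    have ai := h i (Finset.mem_insert_self i s)
    have hS : 0 ≤ ∑ j ∈ s, a j :=
      Finset.sum_nonneg fun j hj => h0 j (Finset.mem_insert_of_mem hj)
    have hp : 0 ≤ ∏ j ∈ s, t j := Finset.prod_nonneg fun j hj => by
      have b1 := h1 j (Finset.mem_insert_of_mem hj)
      have b2 := h j (Finset.mem_insert_of_mem hj)
      linarith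
    have h3 : (1 - a i) * ∏ j ∈ s, t j ≤ t i * ∏ j ∈ s, t j := mul_le_mul_of_nonneg_right ai hp
    have h4 : (1 - a i) * (1 - ∑ j ∈ s, a j) ≤ (1 - a i) * ∏ j ∈ s, t j :=
      mul_le_mul_of_nonneg_left ih' (by linarith)
    nlinarith [mul_nonneg a0 hS]

private theorem eul_prod_up {ι : Type*} (s : Finset ι) (t a : ι → ℝ) (h0 : ∀ i ∈ s, 0 ≤ t i)
    (h : ∀ i ∈ s, t i ≤ 1 + a i) : ∏ i ∈ s, t i ≤ Real.exp (∑ i ∈ s, a i) := by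
  rw [Real.exp_sum]
  refine Finset.prod_le_prod h0 fun i hi => (h i hi).trans ?_
  have := Real.add_one_le_exp (a i)
  linarith

private theorem eul_sum (w z : ℕ) (hw : w ≠ 0) :
    ∑ p ∈ prs w z, (1 / (p : ℝ)) ^ 2 ≤ 1 / (w : ℝ) := by
  have h1 : ∑ p ∈ prs w z, (1 / (p : ℝ)) ^ 2 ≤ ∑ p ∈ Ioc w z, ((p : ℝ) ^ 2)⁻¹ := by
    have h2 : ∑ p ∈ prs w z, (1 / (p : ℝ)) ^ 2 = ∑ p ∈ prs w z, ((p : ℝ) ^ 2)⁻¹ := by
      refine Finset.sum_congr rfl fun p _ => ?_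
      rw [one_div, inv_pow]
    rw [h2]
    exact Finset.sum_le_sum_of_subset_of_nonneg (Finset.filter_subset _ _)
      fun p _ _ => by positivity
  refine h1.trans ?_
  rcases le_or_gt w z with h | h
  · have h2 := sum_Ioc_inv_sq_le_sub (α := ℝ) hw h
    have h3 : (0 : ℝ) ≤ (z : ℝ)⁻¹ := by positivity
    rw [one_div]
    linarith
  · rw [Finset.Ioc_eq_empty (by omega), Finset.sum_empty]
    positivity

theorem eul (h : ℕ) : ∃ C : ℝ, 0 < C ∧ ∀ w z : ℕ, 2 * h + 2 ≤ w → ∀ g : ℕ → ℝ,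
    (∀ p ∈ prs w z, (h : ℝ) / p - (h : ℝ) ^ 2 / (p : ℝ) ^ 2 ≤ g p ∧ g p ≤ (h : ℝ) / p) →
    |(∏ p ∈ prs w z, (1 - g p)) * (∏ p ∈ prs w z, (1 - 1 / (p : ℝ))⁻¹) ^ h - 1| ≤ C / w := by
  refine ⟨2 * (h : ℝ) ^ 2 * Real.exp (2 * (h : ℝ) ^ 2) + 2 * (h : ℝ) ^ 2 + 1, by positivity, ?_⟩
  intro w z hw g hg
  have hwpos : (0 : ℝ) < w := by
    have : 0 < w := by omega
    exact_mod_cast this
  have hw1 : (1 : ℝ) ≤ w := by
    have : 1 ≤ w := by omega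
    exact_mod_cast this
  have hprod : (∏ p ∈ prs w z, (1 - g p)) * (∏ p ∈ prs w z, (1 - 1 / (p : ℝ))⁻¹) ^ h =
      ∏ p ∈ prs w z, (1 - g p) * ((1 - 1 / (p : ℝ))⁻¹) ^ h := by
    rw [← Finset.prod_pow, ← Finset.prod_mul_distrib]
  rw [hprod]
  have hfac : ∀ p ∈ prs w z, 1 - 2 * (h : ℝ) ^ 2 * (1 / (p : ℝ)) ^ 2 ≤
      (1 - g p) * ((1 - 1 / (p : ℝ))⁻¹) ^ h ∧ (1 - g p) * ((1 - 1 / (p : ℝ))⁻¹) ^ h ≤
        1 + 2 * (h : ℝ) ^ 2 * (1 / (p : ℝ)) ^ 2 ∧ (h : ℝ) * (1 / (p : ℝ)) ≤ 1 / 2 := by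
    intro p hp
    have hpw : w < p := (Finset.mem_Ioc.1 (Finset.mem_filter.1 hp).1).1
    have hp1 : (2 * h + 2 : ℝ) ≤ p := by
      have : 2 * h + 2 ≤ p := by omega
      exact_mod_cast this
    have h0 : (0 : ℝ) ≤ h := Nat.cast_nonneg h
    have hppos : (0 : ℝ) < p := by linarith
    have hx1 : 1 / (p : ℝ) ≤ 1 := by
      rw [div_le_one hppos]
      linarith
    have hhx : (h : ℝ) * (1 / (p : ℝ)) ≤ 1 / 2 := by
      rw [mul_one_div, div_le_iff₀ hppos]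
      linarith
    obtain ⟨g1, g2⟩ := hg p hp
    have e1 : (h : ℝ) / p = h * (1 / (p : ℝ)) := by rw [mul_one_div]
    have e2 : (h : ℝ) ^ 2 / (p : ℝ) ^ 2 = (h : ℝ) ^ 2 * (1 / (p : ℝ)) ^ 2 := by
      rw [one_div, inv_pow, div_eq_mul_inv]
    rw [e1, e2] at g1
    rw [e1] at g2
    obtain ⟨k1, k2⟩ := eul_factor h (1 / (p : ℝ)) (g p) (by positivity) hx1 hhx g1 g2
    exact ⟨k1, k2, hhx⟩
  have ha0 : ∀ p ∈ prs w z, 0 ≤ 2 * (h : ℝ) ^ 2 * (1 / (p : ℝ)) ^ 2 := fun p _ => by positivity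
  have ha1 : ∀ p ∈ prs w z, 2 * (h : ℝ) ^ 2 * (1 / (p : ℝ)) ^ 2 ≤ 1 := by
    intro p hp
    have h1 := (hfac p hp).2.2
    have h2 : 0 ≤ (h : ℝ) * (1 / (p : ℝ)) := by positivity
    have h3 : 2 * (h : ℝ) ^ 2 * (1 / (p : ℝ)) ^ 2 = 2 * ((h : ℝ) * (1 / (p : ℝ))) ^ 2 := by ring
    rw [h3]
    nlinarith
  have hlo := eul_prod_lo (prs w z) (fun p => (1 - g p) * ((1 - 1 / (p : ℝ))⁻¹) ^ h)
    (fun p => 2 * (h : ℝ) ^ 2 * (1 / (p : ℝ)) ^ 2) ha0 ha1 (fun p hp => (hfac p hp).1)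
  have hup := eul_prod_up (prs w z) (fun p => (1 - g p) * ((1 - 1 / (p : ℝ))⁻¹) ^ h)
    (fun p => 2 * (h : ℝ) ^ 2 * (1 / (p : ℝ)) ^ 2)
    (fun p hp => by
      have h1 := (hfac p hp).1
      have h2 := ha1 p hp
      linarith) (fun p hp => (hfac p hp).2.1)
  have hs : ∑ p ∈ prs w z, 2 * (h : ℝ) ^ 2 * (1 / (p : ℝ)) ^ 2 ≤ 2 * (h : ℝ) ^ 2 / w := by
    rw [← Finset.mul_sum]
    have := eul_sum w z (by omega)
    calc 2 * (h : ℝ) ^ 2 * ∑ p ∈ prs w z, (1 / (p : ℝ)) ^ 2 ≤ 2 * (h : ℝ) ^ 2 * (1 / w) :=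
          mul_le_mul_of_nonneg_left this (by positivity)
      _ = _ := by ring
  have hs0 : 0 ≤ ∑ p ∈ prs w z, 2 * (h : ℝ) ^ 2 * (1 / (p : ℝ)) ^ 2 :=
    Finset.sum_nonneg ha0
  set S := ∑ p ∈ prs w z, 2 * (h : ℝ) ^ 2 * (1 / (p : ℝ)) ^ 2 with hS
  have hw2 : 2 * (h : ℝ) ^ 2 / w ≤ 2 * (h : ℝ) ^ 2 := div_le_self (by positivity) hw1
  have hexp : Real.exp S - 1 ≤ S * Real.exp (2 * (h : ℝ) ^ 2) := by
    have h1 := Real.add_one_le_exp (-S)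
    have h2 : Real.exp (-S) * Real.exp S = 1 := by
      rw [← Real.exp_add, neg_add_cancel, Real.exp_zero]
    have h3 : 0 < Real.exp S := Real.exp_pos S
    have h4 : Real.exp S ≤ Real.exp (2 * (h : ℝ) ^ 2) := Real.exp_le_exp.2 (hs.trans hw2)
    have h5 : (-S + 1) * Real.exp S ≤ 1 := by
      calc (-S + 1) * Real.exp S ≤ Real.exp (-S) * Real.exp S :=
            mul_le_mul_of_nonneg_right h1 h3.le
        _ = 1 := h2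
    nlinarith [mul_le_mul_of_nonneg_left h4 hs0]
  have hC : (2 * (h : ℝ) ^ 2 * Real.exp (2 * (h : ℝ) ^ 2) + 2 * (h : ℝ) ^ 2 + 1) / w =
      2 * (h : ℝ) ^ 2 / w * Real.exp (2 * (h : ℝ) ^ 2) + 2 * (h : ℝ) ^ 2 / w + 1 / w := by
    field_simp
  rw [hC, abs_le]
  have hinv : 0 ≤ 1 / (w : ℝ) := by positivity
  have hE : 0 < Real.exp (2 * (h : ℝ) ^ 2) := Real.exp_pos _
  have hq0 : 0 ≤ 2 * (h : ℝ) ^ 2 / w := by positivity
  have hmul : S * Real.exp (2 * (h : ℝ) ^ 2) ≤ 2 * (h : ℝ) ^ 2 / w * Real.exp (2 * (h : ℝ) ^ 2) :=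
    mul_le_mul_of_nonneg_right hs hE.le
  have hmul0 : 0 ≤ 2 * (h : ℝ) ^ 2 / w * Real.exp (2 * (h : ℝ) ^ 2) := by positivity
  constructor
  · linarith
  · linarith

end PoolPK
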