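import Pool.Agent.Work.MP_70e905_nt.PK.P.ParD
import Pool.Agent.Work.MP_70e905_nt.PK.S.QUp

/-!
# PK/P/Par (size M): the error tends to 0

PROOF. Let `t = log M → ∞`, `z = zf hm M`, `R = Rf hm M`, `Δ = Df M`, `B = Bex hm`. For large `M`: `t ^ B / 2 ≤ z ≤ t ^ B`, so
`log z ≤ B log t` and `log (z + 1) ≤ 2 B log t`; `1 ≤ R ≤ M ^ (1 / (32 (hm + 1)))`, so `R ^ (2 h) ≤ R ^ (2 hm) ≤ M ^ (1 / 16)` and `2 h log R ≤ t / 16`;
`M ^ (1 / 8) / 2 ≤ Δ ≤ M ^ (1 / 8)`, `log Δ ≥ t / 16`. First line: `Δ R ^ (2 hm) ≤ M ^ (3 / 16) ≤ κ M`. `qf_upper`: `Qf ≤ C (2 B log t) ^ 8 (1 + t) ^ 2 ≤ C t ^ 3`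
for large `M` (uniformly in `w`), so `Qf ^ h (1 + 2 h log R) ^ (8 ^ h) ≤ (1 + C) ^ hm t ^ (3 hm + 8 ^ hm)` (`1 + t / 16 ≤ t`, `t ≥ 1`). The three terms:
* `exp (- log Δ / log z) exp (3 h (1 + log z)) ≤ exp (- t / (16 B log t) + 3 hm (1 + B log t))`, smaller than every power of `1 / t`;
* `2 ^ n Δ ^ 2 R ^ (2 h) / (κ M) ≤ 2 ^ n M ^ (5 / 16 - 1) / κ`;
* `1 / z ≤ 2 t ^ (- B)`, and `B = 3 hm + 8 ^ hm + 1`.
Each of the three products tends to 0. Finitely many `h ≤ hm`, `n' ≤ n` (or monotonicity). `par_low`: `log R ≥ t / (32 (hm + 1)) - log 2`, `R ^ 2 ≤ M ^ (1 / 16) < M`,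
`z ≤ t ^ B < M`, `z → ∞`.
-/

set_option autoImplicit false

namespace PoolPK

open Finset

private lemma log_M_tendsto : Filter.Tendsto (fun M : ℕ => Real.log (M : ℝ)) Filter.atTop
    Filter.atTop :=
  Real.tendsto_log_atTop.comp tendsto_natCast_atTop_atTop

/-- everything which is used about large `t` -/
private lemma ev_t (k : ℕ) (c : ℝ) : ∀ᶠ t : ℝ in Filter.atTop, c * Real.log t ^ k ≤ t := by
  have h := (Real.isLittleO_pow_log_id_atTop (n := k)).bound
    (show (0 : ℝ) < 1 / (|c| + 1) by positivity)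
  filter_upwards [h, Filter.eventually_ge_atTop (1 : ℝ)] with t ht ht1
  have h1 : 0 ≤ Real.log t := Real.log_nonneg ht1
  rw [Real.norm_of_nonneg (by positivity), id, Real.norm_of_nonneg (by linarith)] at ht
  have h2 : (|c| + 1) * Real.log t ^ k ≤ t := by
    have : (|c| + 1) * Real.log t ^ k ≤ (|c| + 1) * (1 / (|c| + 1) * t) :=
      mul_le_mul_of_nonneg_left ht (by positivity)
    calc _ ≤ _ := this
      _ = t := by field_simp
  have h3 : c * Real.log t ^ k ≤ (|c| + 1) * Real.log t ^ k := by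
    apply mul_le_mul_of_nonneg_right _ (by positivity)
    have := le_abs_self c
    linarith
  linarith

private lemma ev_exp (k : ℕ) (b : ℝ) (hb : 0 < b) :
    ∀ᶠ t : ℝ in Filter.atTop, t ^ k ≤ Real.exp (b * t) := by
  have h := (isLittleO_pow_exp_pos_mul_atTop (k := k) hb).bound (show (0 : ℝ) < 1 by norm_num)
  filter_upwards [h, Filter.eventually_ge_atTop (1 : ℝ)] with t ht ht1
  rw [Real.norm_of_nonneg (by positivity), Real.norm_of_nonneg (by positivity), one_mul] at ht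
  exact ht

private lemma M_pow (M : ℕ) (hM : 0 < M) (x : ℝ) : (M : ℝ) ^ x = Real.exp (x * Real.log M) := by
  rw [Real.rpow_def_of_pos (by exact_mod_cast hM), mul_comm]

private lemma Rf_le (hm M : ℕ) (hM : 0 < M) :
    (Rf hm M : ℝ) ≤ Real.exp (Real.log M / (32 * (hm + 1))) := by
  have h1 : (Rf hm M : ℝ) ≤ (M : ℝ) ^ ((1 : ℝ) / (32 * (hm + 1))) := Nat.floor_le (by positivity)
  rw [M_pow M hM] at h1
  convert h1 using 2
  ring

private lemma Rf_one (hm M : ℕ) (hM : 0 < M) : 1 ≤ Rf hm M := by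
  apply Nat.le_floor
  rw [M_pow M hM]
  push_cast
  apply Real.one_le_exp
  have : 0 ≤ Real.log M := Real.log_natCast_nonneg M
  positivity

private lemma Rf_ge (hm M : ℕ) (hM : 0 < M) (ht : 32 * (hm + 1) ≤ Real.log M) :
    Real.exp (Real.log M / (32 * (hm + 1))) / 2 ≤ (Rf hm M : ℝ) := by
  have h1 : (M : ℝ) ^ ((1 : ℝ) / (32 * (hm + 1))) < (Rf hm M : ℝ) + 1 := Nat.lt_floor_add_one _
  rw [M_pow M hM] at h1
  have h2 : (1 : ℝ) / (32 * (hm + 1)) * Real.log M = Real.log M / (32 * (hm + 1)) := by ring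
  rw [h2] at h1
  have h3 : (1 : ℝ) ≤ Real.log M / (32 * (hm + 1)) := by
    rw [one_le_div (by positivity)]
    exact ht
  have h4 : Real.exp 1 ≤ Real.exp (Real.log M / (32 * (hm + 1))) := Real.exp_le_exp.mpr h3
  have h5 : (2 : ℝ) ≤ Real.exp 1 := by
    have := Real.exp_one_gt_d9
    linarith
  linarith

private lemma Rf_pow_le (hm M h : ℕ) (hM : 0 < M) (hh : h ≤ hm) :
    (Rf hm M : ℝ) ^ (2 * h) ≤ Real.exp (Real.log M / 16) := by
  have hL : 0 ≤ Real.log M := Real.log_natCast_nonneg M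
  calc (Rf hm M : ℝ) ^ (2 * h) ≤ Real.exp (Real.log M / (32 * (hm + 1))) ^ (2 * h) :=
        pow_le_pow_left₀ (by positivity) (Rf_le hm M hM) _
    _ = Real.exp ((2 * h : ℕ) * (Real.log M / (32 * (hm + 1)))) := by rw [← Real.exp_nat_mul]
    _ ≤ _ := by
        apply Real.exp_le_exp.mpr
        have hh' : (h : ℝ) ≤ hm := by exact_mod_cast hh
        rw [← mul_div_assoc, div_le_div_iff₀ (by positivity) (by norm_num)]
        push_cast
        nlinarith

private lemma log_Rf (hm M h : ℕ) (hM : 0 < M) (hh : h ≤ hm) :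
    0 ≤ Real.log (Rf hm M) ∧ 2 * h * Real.log (Rf hm M) ≤ Real.log M / 16 ∧
      Real.log (Rf hm M) ≤ Real.log M := by
  have hL : 0 ≤ Real.log M := Real.log_natCast_nonneg M
  have h1 : Real.log (Rf hm M) ≤ Real.log M / (32 * (hm + 1)) := by
    have hpos : (0 : ℝ) < Rf hm M := by exact_mod_cast Rf_one hm M hM
    rw [Real.log_le_iff_le_exp hpos]
    exact Rf_le hm M hM
  have hh' : (h : ℝ) ≤ hm := by exact_mod_cast hh
  refine ⟨Real.log_natCast_nonneg _, ?_, ?_⟩
  · calc 2 * h * Real.log (Rf hm M) ≤ 2 * h * (Real.log M / (32 * (hm + 1))) :=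
          mul_le_mul_of_nonneg_left h1 (by positivity)
      _ ≤ _ := by
        rw [← mul_div_assoc, div_le_div_iff₀ (by positivity) (by norm_num)]
        nlinarith
  · refine h1.trans ?_
    apply div_le_self hL
    have : (0 : ℝ) ≤ hm := by positivity
    linarith

private lemma Df_le (M : ℕ) (hM : 0 < M) : (Df M : ℝ) ≤ Real.exp (Real.log M / 8) := by
  have h1 : (Df M : ℝ) ≤ (M : ℝ) ^ ((1 : ℝ) / 8) := Nat.floor_le (by positivity)
  rw [M_pow M hM] at h1
  convert h1 using 2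
  ring

private lemma Df_ge (M : ℕ) (hM : 0 < M) (ht : 16 ≤ Real.log M) :
    1 ≤ Df M ∧ Real.log M / 16 ≤ Real.log (Df M) := by
  have h1 : (M : ℝ) ^ ((1 : ℝ) / 8) < (Df M : ℝ) + 1 := Nat.lt_floor_add_one _
  rw [M_pow M hM] at h1
  have h2 : (1 : ℝ) / 8 * Real.log M = Real.log M / 8 := by ring
  rw [h2] at h1
  have h3 : Real.exp 1 ≤ Real.exp (Real.log M / 8) := Real.exp_le_exp.mpr (by linarith)
  have h5 : (2 : ℝ) ≤ Real.exp 1 := by
    have := Real.exp_one_gt_d9
    linarith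
  have h6 : Real.exp (Real.log M / 8) / 2 ≤ (Df M : ℝ) := by linarith
  have h7 : Real.exp (Real.log M / 16) ≤ (Df M : ℝ) := by
    refine le_trans ?_ h6
    have h8 : Real.exp (Real.log M / 8) = Real.exp (Real.log M / 16) * Real.exp (Real.log M / 16) := by
      rw [← Real.exp_add]; congr 1; ring
    have h9 : Real.exp 1 ≤ Real.exp (Real.log M / 16) := Real.exp_le_exp.mpr (by linarith)
    rw [h8]
    nlinarith [Real.exp_pos (Real.log M / 16)]
  have hpos : (0 : ℝ) < Df M := lt_of_lt_of_le (Real.exp_pos _) h7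
  refine ⟨?_, ?_⟩
  · exact Nat.one_le_iff_ne_zero.mpr (fun h => by rw [h] at hpos; simp at hpos)
  · rw [Real.le_log_iff_exp_le hpos]
    exact h7

private lemma two_le_Bex (hm : ℕ) : 2 ≤ Bex hm := by
  unfold Bex
  have : 1 ≤ 8 ^ hm := Nat.one_le_pow _ _ (by norm_num)
  omega

private lemma zf_bounds (hm M : ℕ) (ht : 2 ≤ Real.log M) :
    (zf hm M : ℝ) ≤ Real.log M ^ Bex hm ∧ Real.log M ^ Bex hm / 2 ≤ (zf hm M : ℝ) ∧
    2 ≤ zf hm M ∧ Real.log (zf hm M) ≤ Bex hm * Real.log (Real.log M) ∧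
    Real.log (zf hm M + 1) ≤ 2 * Bex hm * Real.log (Real.log M) := by
  have hB := two_le_Bex hm
  have h4 : (4 : ℝ) ≤ Real.log M ^ Bex hm := by
    calc (4 : ℝ) = 2 ^ 2 := by norm_num
      _ ≤ 2 ^ Bex hm := pow_le_pow_right₀ (by norm_num) hB
      _ ≤ _ := pow_le_pow_left₀ (by norm_num) ht _
  have h1 : (zf hm M : ℝ) ≤ Real.log M ^ Bex hm := Nat.floor_le (by positivity)
  have h2 : Real.log M ^ Bex hm < (zf hm M : ℝ) + 1 := Nat.lt_floor_add_one _
  have h3 : Real.log M ^ Bex hm / 2 ≤ (zf hm M : ℝ) := by linarith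
  have h5 : (2 : ℝ) ≤ zf hm M := by linarith
  refine ⟨h1, h3, by exact_mod_cast h5, ?_, ?_⟩
  · rw [← Real.log_pow]
    exact Real.log_le_log (by linarith) h1
  · have h6 : Real.log ((zf hm M : ℝ) + 1) ≤ Real.log ((Real.log M ^ Bex hm) ^ 2) := by
      apply Real.log_le_log (by linarith)
      nlinarith
    rw [← pow_mul, Real.log_pow] at h6
    push_cast at h6
    linarith

theorem par (n hm : ℕ) (κ η : ℝ) (hκ : 0 < κ) (hη : 0 < η) : ∃ M0 : ℕ, ∀ M : ℕ, M0 ≤ M →
    2 ≤ zf hm M ∧ 1 ≤ Rf hm M ∧ 1 ≤ Df M ∧ (Df M : ℝ) * (Rf hm M : ℝ) ^ (2 * hm) ≤ κ * M ∧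
    ∀ h n' w : ℕ, h ≤ hm → n' ≤ n →
      Qf w (zf hm M) (Rf hm M) ^ h * (1 + 2 * h * Real.log (Rf hm M)) ^ (8 ^ h) *
        (2 * (Real.exp 1 * Real.exp (-(Real.log (Df M) / Real.log (zf hm M))) *
            Real.exp (3 * h * (1 + Real.log (zf hm M)))) +
          2 * 2 ^ n' * (Df M : ℝ) ^ 2 * (Rf hm M : ℝ) ^ (2 * h) / (κ * M) +
          1 / (zf hm M : ℝ)) ≤ η := by
  obtain ⟨C, hC, hQ⟩ := qf_upper
  set B : ℕ := Bex hm with hBdef
  set K : ℕ := 3 * hm + 8 ^ hm with hK
  have hBK : B = K + 1 := by rw [hBdef, hK]; rfl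
  set A : ℝ := (1 + C) ^ hm with hA
  have hA0 : 0 < A := by positivity
  set a : ℝ := K + 3 * hm * B with ha
  set D : ℝ := A * (2 * Real.exp (1 + 3 * hm) + 2 * 2 ^ n / κ + 2) with hD
  have hev : ∀ᶠ t : ℝ in Filter.atTop, 16 ≤ t ∧ 16 * B * (a + 1) * Real.log t ^ 2 ≤ t ∧
      t ^ (K + 1) ≤ Real.exp (11 / 16 * t) ∧ 4 * (2 * B) ^ 8 * Real.log t ^ 8 ≤ t ∧
      D / η ≤ t ∧ -(16 / 13) * Real.log κ ≤ t := by
    filter_upwards [Filter.eventually_ge_atTop (16 : ℝ), ev_t 2 (16 * B * (a + 1)),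
      ev_exp (K + 1) (11 / 16) (by norm_num), ev_t 8 (4 * (2 * B) ^ 8),
      Filter.eventually_ge_atTop (D / η), Filter.eventually_ge_atTop (-(16 / 13) * Real.log κ)]
      with t h1 h2 h3 h4 h5 h6
    exact ⟨h1, h2, h3, h4, h5, h6⟩
  obtain ⟨M0, hM0⟩ := Filter.eventually_atTop.mp (log_M_tendsto.eventually hev)
  refine ⟨max M0 1, fun M hM => ?_⟩
  have hM1 : 0 < M := lt_of_lt_of_le one_pos ((le_max_right M0 1).trans hM)
  obtain ⟨e1, e2, e3, e4, e5, e6⟩ := hM0 M ((le_max_left M0 1).trans hM)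
  set t : ℝ := Real.log M with ht
  have hMe : (M : ℝ) = Real.exp t := (Real.exp_log (by exact_mod_cast hM1)).symm
  have hD0 : 0 < D := by positivity
  obtain ⟨z1, z2, z3, z4, z5⟩ := zf_bounds hm M (by linarith)
  obtain ⟨d1, d2⟩ := Df_ge M hM1 e1
  have d3 := Df_le M hM1
  have hlt : 1 ≤ Real.log t := by
    rw [Real.le_log_iff_exp_le (by linarith)]
    have := Real.exp_one_lt_d9
    linarith
  refine ⟨z3, Rf_one hm M hM1, d1, ?_, ?_⟩
  · calc (Df M : ℝ) * (Rf hm M : ℝ) ^ (2 * hm) ≤ Real.exp (t / 8) * Real.exp (t / 16) :=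
          mul_le_mul d3 (Rf_pow_le hm M hm hM1 le_rfl) (by positivity) (by positivity)
      _ = Real.exp (3 / 16 * t) := by rw [← Real.exp_add]; congr 1; ring
      _ ≤ Real.exp (Real.log κ + t) := by
          apply Real.exp_le_exp.mpr
          linarith
      _ = κ * M := by rw [Real.exp_add, Real.exp_log hκ, hMe]
  · intro h n' w hh hn
    have hh' : (h : ℝ) ≤ hm := by exact_mod_cast hh
    obtain ⟨r1, r2, r3⟩ := log_Rf hm M h hM1 hh
    obtain ⟨q1, q2⟩ := hQ w (zf hm M) (Rf hm M) z3 (Rf_one hm M hM1)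
    -- the bound of `Qf`
    have hQt : Qf w (zf hm M) (Rf hm M) ≤ (1 + C) * t ^ 3 := by
      have hlz : 0 ≤ Real.log ((zf hm M : ℝ) + 1) := Real.log_nonneg (by
        have : (0 : ℝ) ≤ zf hm M := by positivity
        linarith)
      calc Qf w (zf hm M) (Rf hm M)
          ≤ C * Real.log (zf hm M + 1) ^ 8 * (1 + Real.log (Rf hm M)) ^ 2 := q2
        _ ≤ C * (2 * B * Real.log t) ^ 8 * (2 * t) ^ 2 := by
            apply mul_le_mul
            · apply mul_le_mul_of_nonneg_left _ hC.le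
              exact pow_le_pow_left₀ hlz z5 _
            · exact pow_le_pow_left₀ (by linarith) (by linarith) _
            · positivity
            · positivity
        _ = C * (4 * (2 * B) ^ 8 * Real.log t ^ 8) * t ^ 2 := by ring
        _ ≤ C * t * t ^ 2 := by
            apply mul_le_mul_of_nonneg_right _ (by positivity)
            exact mul_le_mul_of_nonneg_left e4 hC.le
        _ ≤ (1 + C) * t ^ 3 := by nlinarith [pow_pos (show (0 : ℝ) < t by linarith) 3]
    have hbase : 1 ≤ (1 + C) * t ^ 3 := by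
      have : 1 ≤ t ^ 3 := one_le_pow₀ (by linarith)
      nlinarith
    have hQh : Qf w (zf hm M) (Rf hm M) ^ h ≤ A * t ^ (3 * hm) := by
      calc Qf w (zf hm M) (Rf hm M) ^ h ≤ ((1 + C) * t ^ 3) ^ h := pow_le_pow_left₀ q1.le hQt _
        _ ≤ ((1 + C) * t ^ 3) ^ hm := pow_le_pow_right₀ hbase hh
        _ = A * t ^ (3 * hm) := by rw [mul_pow, ← pow_mul]
    have hlh : (1 + 2 * h * Real.log (Rf hm M)) ^ (8 ^ h) ≤ t ^ (8 ^ hm) := by
      calc (1 + 2 * h * Real.log (Rf hm M)) ^ (8 ^ h) ≤ t ^ (8 ^ h) := by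
            apply pow_le_pow_left₀ (by positivity)
            linarith
        _ ≤ _ := pow_le_pow_right₀ (by linarith) (Nat.pow_le_pow_right (by norm_num) hh)
    have hpre : Qf w (zf hm M) (Rf hm M) ^ h * (1 + 2 * h * Real.log (Rf hm M)) ^ (8 ^ h) ≤
        A * t ^ K := by
      calc _ ≤ (A * t ^ (3 * hm)) * t ^ (8 ^ hm) :=
            mul_le_mul hQh hlh (by positivity) (by positivity)
        _ = _ := by rw [hK, pow_add]; ring
    have ht0 : 0 < t := by linarith
    have hlz2 : 0 < Real.log (zf hm M) := Real.log_pos (by exact_mod_cast (by omega : 1 < zf hm M))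
    have hB0 : (0 : ℝ) < B := by rw [hBK]; positivity
    -- first term
    have hT1 : t ^ K * (2 * (Real.exp 1 * Real.exp (-(Real.log (Df M) / Real.log (zf hm M))) *
        Real.exp (3 * h * (1 + Real.log (zf hm M))))) ≤ 2 * Real.exp (1 + 3 * hm) / t := by
      have htK : t ^ K = Real.exp (K * Real.log t) := by
        rw [Real.exp_nat_mul, Real.exp_log ht0]
      have hti : 2 * Real.exp (1 + 3 * hm) / t = 2 * Real.exp (1 + 3 * hm - Real.log t) := by
        rw [Real.exp_sub, Real.exp_log ht0]; ring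
      have hx : (a + 1) * Real.log t ≤ Real.log (Df M) / Real.log (zf hm M) := by
        rw [le_div_iff₀ hlz2]
        calc (a + 1) * Real.log t * Real.log (zf hm M)
            ≤ (a + 1) * Real.log t * (B * Real.log t) := by
              apply mul_le_mul_of_nonneg_left z4
              have : 0 ≤ a := by positivity
              positivity
          _ ≤ t / 16 := by nlinarith
          _ ≤ _ := d2
      rw [htK, hti]
      calc _ = 2 * Real.exp (K * Real.log t + 1 + -(Real.log (Df M) / Real.log (zf hm M)) +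
            3 * h * (1 + Real.log (zf hm M))) := by
            rw [Real.exp_add, Real.exp_add, Real.exp_add]; ring
        _ ≤ _ := by
            apply mul_le_mul_of_nonneg_left _ (by norm_num)
            apply Real.exp_le_exp.mpr
            have h1 : 3 * (h : ℝ) * (1 + Real.log (zf hm M)) ≤ 3 * hm * (1 + B * Real.log t) := by
              apply mul_le_mul (by linarith) (by linarith) (by linarith) (by positivity)
            have h2 : (a + 1) * Real.log t = K * Real.log t + 3 * hm * (B * Real.log t) +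
                Real.log t := by rw [ha]; ring
            nlinarith
    -- second term
    have hT2 : t ^ K * (2 * 2 ^ n' * (Df M : ℝ) ^ 2 * (Rf hm M : ℝ) ^ (2 * h) / (κ * M)) ≤
        2 * 2 ^ n / κ / t := by
      have h1 : (Df M : ℝ) ^ 2 ≤ Real.exp (t / 4) := by
        calc (Df M : ℝ) ^ 2 ≤ Real.exp (t / 8) ^ 2 := pow_le_pow_left₀ (by positivity) d3 _
          _ = Real.exp (t / 4) := by rw [← Real.exp_nat_mul]; congr 1; push_cast; ring
      have h2 := Rf_pow_le hm M h hM1 hh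
      have h3 : (2 : ℝ) ^ n' ≤ 2 ^ n := pow_le_pow_right₀ (by norm_num) hn
      have h4 : 2 * 2 ^ n' * (Df M : ℝ) ^ 2 * (Rf hm M : ℝ) ^ (2 * h) / (κ * M) ≤
          2 * 2 ^ n / κ * Real.exp (-(11 / 16 * t)) := by
        rw [div_le_iff₀ (by positivity)]
        calc 2 * 2 ^ n' * (Df M : ℝ) ^ 2 * (Rf hm M : ℝ) ^ (2 * h)
            ≤ 2 * 2 ^ n * Real.exp (t / 4) * Real.exp (t / 16) := by
              apply mul_le_mul _ h2 (by positivity) (by positivity)
              apply mul_le_mul _ h1 (by positivity) (by positivity)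
              linarith
          _ = 2 * 2 ^ n / κ * Real.exp (-(11 / 16 * t)) * (κ * M) := by
              have h7 : Real.exp (t / 4) * Real.exp (t / 16) =
                  Real.exp (-(11 / 16 * t)) * Real.exp t := by
                rw [← Real.exp_add, ← Real.exp_add]; congr 1; ring
              have h8 : 2 * 2 ^ n / κ * Real.exp (-(11 / 16 * t)) * (κ * M) =
                  2 * 2 ^ n * (Real.exp (-(11 / 16 * t)) * M) := by
                field_simp
              rw [h8, hMe, ← h7]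
              ring
      have h5 : t ^ K * Real.exp (-(11 / 16 * t)) ≤ 1 / t := by
        rw [le_div_iff₀ ht0, Real.exp_neg]
        have : t ^ K * (Real.exp (11 / 16 * t))⁻¹ * t = t ^ (K + 1) / Real.exp (11 / 16 * t) := by
          rw [pow_succ]; field_simp
        rw [this, div_le_one (Real.exp_pos _)]
        exact e3
      calc _ ≤ t ^ K * (2 * 2 ^ n / κ * Real.exp (-(11 / 16 * t))) :=
            mul_le_mul_of_nonneg_left h4 (by positivity)
        _ = 2 * 2 ^ n / κ * (t ^ K * Real.exp (-(11 / 16 * t))) := by ring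
        _ ≤ 2 * 2 ^ n / κ * (1 / t) := mul_le_mul_of_nonneg_left h5 (by positivity)
        _ = _ := by ring
    -- third term
    have hT3 : t ^ K * (1 / (zf hm M : ℝ)) ≤ 2 / t := by
      have hz0 : (0 : ℝ) < zf hm M := by
        have : (2 : ℝ) ≤ zf hm M := by exact_mod_cast z3
        linarith
      rw [mul_one_div, div_le_div_iff₀ hz0 ht0]
      have : t ^ K * t = t ^ B := by rw [hBK, pow_succ]
      rw [this]
      linarith
    have hlog0 : 0 ≤ Real.log (zf hm M) := hlz2.le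
    calc _ ≤ A * t ^ K * (2 * (Real.exp 1 * Real.exp (-(Real.log (Df M) / Real.log (zf hm M))) *
            Real.exp (3 * h * (1 + Real.log (zf hm M)))) +
          2 * 2 ^ n' * (Df M : ℝ) ^ 2 * (Rf hm M : ℝ) ^ (2 * h) / (κ * M) +
          1 / (zf hm M : ℝ)) := mul_le_mul_of_nonneg_right hpre (by positivity)
      _ = A * (t ^ K * (2 * (Real.exp 1 * Real.exp (-(Real.log (Df M) / Real.log (zf hm M))) *
            Real.exp (3 * h * (1 + Real.log (zf hm M))))) +
          t ^ K * (2 * 2 ^ n' * (Df M : ℝ) ^ 2 * (Rf hm M : ℝ) ^ (2 * h) / (κ * M)) +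
          t ^ K * (1 / (zf hm M : ℝ))) := by ring
      _ ≤ A * (2 * Real.exp (1 + 3 * hm) / t + 2 * 2 ^ n / κ / t + 2 / t) := by
          apply mul_le_mul_of_nonneg_left _ hA0.le
          linarith
      _ = D / t := by rw [hD]; ring
      _ ≤ η := by
          rw [div_le_iff₀ ht0]
          rw [div_le_iff₀ hη] at e5
          linarith

theorem par_low (hm w : ℕ) : ∃ M0 : ℕ, ∀ M : ℕ, M0 ≤ M →
    Real.log M / (64 * (hm + 1)) ≤ Real.log (Rf hm M) ∧ Rf hm M ^ 2 < M ∧ zf hm M < M ∧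
      w ≤ zf hm M := by
  have hev : ∀ᶠ t : ℝ in Filter.atTop, 64 * (hm + 1) ≤ t ∧ t ^ (Bex hm) ≤ Real.exp (1 / 2 * t) ∧
      (2 * w : ℝ) + 2 ≤ t := by
    filter_upwards [Filter.eventually_ge_atTop (64 * ((hm : ℝ) + 1)),
      ev_exp (Bex hm) (1 / 2) (by norm_num), Filter.eventually_ge_atTop ((2 * w : ℝ) + 2)]
      with t h1 h2 h3
    exact ⟨h1, h2, h3⟩
  obtain ⟨M0, hM0⟩ := Filter.eventually_atTop.mp (log_M_tendsto.eventually hev)
  refine ⟨max M0 1, fun M hM => ?_⟩
  have hM1 : 0 < M := lt_of_lt_of_le one_pos ((le_max_right M0 1).trans hM)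
  obtain ⟨e1, e2, e3⟩ := hM0 M ((le_max_left M0 1).trans hM)
  set t : ℝ := Real.log M with ht
  have hMe : (M : ℝ) = Real.exp t := (Real.exp_log (by exact_mod_cast hM1)).symm
  have hhm : (0 : ℝ) ≤ hm := by positivity
  have ht64 : 64 ≤ t := by nlinarith
  obtain ⟨z1, z2, z3, z4, z5⟩ := zf_bounds hm M (by linarith)
  refine ⟨?_, ?_, ?_, ?_⟩
  · have h1 := Rf_ge hm M hM1 (by nlinarith)
    have hpos : (0 : ℝ) < Rf hm M := by exact_mod_cast Rf_one hm M hM1
    rw [Real.le_log_iff_exp_le hpos]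
    refine le_trans ?_ h1
    have h2 : Real.log M / (32 * ((hm : ℝ) + 1)) = t / (64 * (hm + 1)) + t / (64 * (hm + 1)) := by
      field_simp
      ring
    have h3 : (1 : ℝ) ≤ t / (64 * (hm + 1)) := by
      rw [one_le_div (by positivity)]
      exact e1
    have h4 : Real.exp 1 ≤ Real.exp (t / (64 * (hm + 1))) := Real.exp_le_exp.mpr h3
    have h5 : (2 : ℝ) ≤ Real.exp 1 := by
      have := Real.exp_one_gt_d9
      linarith
    rw [h2, Real.exp_add]
    nlinarith [Real.exp_pos (t / (64 * (hm + 1)))]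
  · have h1 : ((Rf hm M ^ 2 : ℕ) : ℝ) < M := by
      push_cast
      calc (Rf hm M : ℝ) ^ 2 ≤ Real.exp (Real.log M / (32 * (hm + 1))) ^ 2 :=
            pow_le_pow_left₀ (by positivity) (Rf_le hm M hM1) _
        _ = Real.exp (2 * (Real.log M / (32 * (hm + 1)))) := by
            rw [← Real.exp_nat_mul]; norm_num
        _ < Real.exp t := by
            apply Real.exp_lt_exp.mpr
            rw [← mul_div_assoc, div_lt_iff₀ (by positivity)]
            nlinarith
        _ = M := hMe.symm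
    exact_mod_cast h1
  · have h1 : (zf hm M : ℝ) < M := by
      calc (zf hm M : ℝ) ≤ t ^ Bex hm := z1
        _ ≤ Real.exp (1 / 2 * t) := e2
        _ < Real.exp t := Real.exp_lt_exp.mpr (by linarith)
        _ = M := hMe.symm
    exact_mod_cast h1
  · have h1 : (w : ℝ) ≤ zf hm M := by
      have h2 : t ≤ t ^ Bex hm := by
        calc t = t ^ 1 := (pow_one t).symm
          _ ≤ t ^ Bex hm := pow_le_pow_right₀ (by linarith) (by have := two_le_Bex hm; omega)
      linarith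
    exact_mod_cast h1

end PoolPK
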