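import Pool.Agent.Work.MP_70e905_nt.PK.P.Comb
import Pool.Agent.Work.MP_70e905_nt.PK.P.Eul
import Pool.Agent.Work.MP_70e905_nt.PK.P.Par

/-!
# PK/P/LFb (size S-M): correlations of the majorant in boxes

PROOF. `eul h` for all `h ≤ hm` gives a common `C`; `w0 = max (2 hm + 2) (2 C / η)` (rounded up). Given `w ≥ w0` take `M0` from `par n hm κ (η / 2)` and `par_low hm w`
(for `w ≤ z`). Let `h = #H`, `m0 = ⌈κ M⌉₊`, so `m0 ≤ l i` and `κ M ≤ m0`. `comb` applies (`Δ R ^ (2 h) ≤ Δ R ^ (2 hm) ≤ κ M ≤ m0`); in its error `Tl ≤ ...` by `tl_le`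
(`0 ≤ dens ≤ h / p` from `dens_nonneg`, `bad_bounds`) and `1 / m0 ≤ 1 / (κ M)`; so the error is at most `(η / 2) ∏ l i`. The main term is `∏ l i` times
`Vf (∏ (1 - 1 / p)⁻¹) ^ h ∈ [1 - C / w, 1 + C / w]` by `eul` and `bad_bounds`, and `C / w ≤ η / 2`.
-/

set_option autoImplicit false

namespace PoolPK

open Finset

theorem lf_box (n hm : ℕ) (κ η : ℝ) (hκ : 0 < κ) (hη : 0 < η) : ∃ w0 : ℕ, ∀ w : ℕ, w0 ≤ w →
    ∃ M0 : ℕ, ∀ M : ℕ, M0 ≤ M → ∀ ρ : Finset ℕ → ℝ,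
    Wt (prs (zf hm M) (Rf hm M)) (Rf hm M) ρ →
    ∀ (V : Type) [Fintype V] [DecidableEq V], Fintype.card V ≤ n →
    ∀ (H : Finset (V × V)) (b c : V × V → ℤ), Ok H c w → #H ≤ hm →
    ∀ (A : V → ℤ) (l : V → ℕ), (∀ i, κ * M ≤ (l i : ℝ)) →
      |∑ v ∈ box A l, ∏ e ∈ H, nu w (zf hm M) (Rf hm M) ρ (psi b c e v) - ∏ i, (l i : ℝ)| ≤
        η * ∏ i, (l i : ℝ) := by
  choose Ce hCe0 hCe using eul
  obtain ⟨C, hC⟩ : ∃ C : ℝ, C = ∑ h ∈ range (hm + 1), Ce h := ⟨_, rfl⟩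
  have hCle : ∀ h, h ≤ hm → Ce h ≤ C := by
    intro h hh
    rw [hC]
    exact single_le_sum (f := Ce) (fun i _ => (hCe0 i).le) (mem_range.2 (by omega))
  have hC0 : 0 < C := lt_of_lt_of_le (hCe0 0) (hCle 0 (Nat.zero_le _))
  refine ⟨max (2 * hm + 2) ⌈2 * C / η⌉₊, fun w hw => ?_⟩
  have hw1 : 2 * hm + 2 ≤ w := (le_max_left _ _).trans hw
  have hw2 : 2 * C / η ≤ w := (Nat.le_ceil _).trans (Nat.cast_le.2 ((le_max_right _ _).trans hw))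
  have hw0 : (0 : ℝ) < w := by
    have : 0 < w := by omega
    exact_mod_cast this
  have hCw : C / w ≤ η / 2 := by
    rw [div_le_iff₀ hw0]
    rw [div_le_iff₀ hη] at hw2
    linarith
  obtain ⟨M1, hM1⟩ := par n hm κ (η / 2) hκ (by positivity)
  obtain ⟨M2, hM2⟩ := par_low hm w
  refine ⟨max M1 M2, fun M hM ρ hρ V _ _ hV H b c hok hH A l hl => ?_⟩
  obtain ⟨hz, hR, hΔ, hDR, hpar⟩ := hM1 M ((le_max_left _ _).trans hM)
  obtain ⟨-, -, hzM, hwz⟩ := hM2 M ((le_max_right _ _).trans hM)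
  obtain ⟨z, hzdef⟩ : ∃ z : ℕ, z = zf hm M := ⟨_, rfl⟩
  obtain ⟨R, hRdef⟩ : ∃ R : ℕ, R = Rf hm M := ⟨_, rfl⟩
  obtain ⟨Δ, hΔdef⟩ : ∃ Δ : ℕ, Δ = Df M := ⟨_, rfl⟩
  rw [← hzdef, ← hRdef] at hρ ⊢
  rw [← hzdef] at hz hzM hwz
  rw [← hRdef] at hR
  rw [← hΔdef] at hΔ
  rw [← hΔdef, ← hRdef] at hDR
  rw [← hzdef, ← hΔdef, ← hRdef] at hpar
  have hM0 : (0 : ℝ) < M := by
    have : 0 < M := by omega
    exact_mod_cast this
  have hκM : 0 < κ * M := mul_pos hκ hM0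
  obtain ⟨m0, hm0⟩ : ∃ m0 : ℕ, m0 = ⌈κ * M⌉₊ := ⟨_, rfl⟩
  have hm1 : κ * M ≤ m0 := by
    rw [hm0]
    exact Nat.le_ceil _
  have hm2 : ∀ i, m0 ≤ l i := fun i => by
    rw [hm0]
    exact Nat.ceil_le.2 (hl i)
  have hR1 : (1 : ℝ) ≤ R := by exact_mod_cast hR
  have hm3 : Δ * R ^ (2 * #H) ≤ m0 := by
    have h1 : (Δ : ℝ) * (R : ℝ) ^ (2 * #H) ≤ m0 := by
      refine le_trans ?_ hm1
      refine le_trans ?_ hDR
      exact mul_le_mul_of_nonneg_left (pow_le_pow_right₀ hR1 (by omega)) (Nat.cast_nonneg _)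
    exact_mod_cast h1
  have hcomb := comb H b c w z R Δ m0 hwz hz hR hΔ hok ρ hρ A l hm2 hm3
  have hp := hpar #H (Fintype.card V) w hH hV
  have hg : ∀ p ∈ prs w z, ((#H : ℝ) / p - (#H : ℝ) ^ 2 / (p : ℝ) ^ 2 ≤ dens p (Bad H b c p) ∧
      dens p (Bad H b c p) ≤ (#H : ℝ) / p) := by
    intro p hp
    rw [prs, mem_filter, mem_Ioc] at hp
    exact bad_bounds H b c w p hok hp.2 hp.1.1
  have hT := tl_le #H w z Δ hz hΔ (fun p => dens p (Bad H b c p))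
    (fun p hp => ⟨dens_nonneg _ _, (hg p hp).2⟩)
  have he := (hCe #H w z (by omega) (fun p => dens p (Bad H b c p)) hg).trans
    ((div_le_div_of_nonneg_right (hCle _ hH) hw0.le).trans hCw)
  obtain ⟨X, hX⟩ : ∃ X : ℝ, X = ∏ i, (l i : ℝ) := ⟨_, rfl⟩
  have hX0 : 0 ≤ X := by
    rw [hX]
    exact prod_nonneg fun i _ => Nat.cast_nonneg _
  obtain ⟨Y, hY⟩ : ∃ Y : ℝ, Y = Vf H b c w z * (∏ p ∈ prs w z, (1 - 1 / (p : ℝ))⁻¹) ^ #H :=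
    ⟨_, rfl⟩
  have he' : |Y - 1| ≤ η / 2 := by
    rw [hY]
    exact he
  rw [← hX, ← hY] at hcomb
  rw [← hX]
  have hQ0 : 0 ≤ Qf w z R := by
    obtain ⟨Cq, -, hCq⟩ := qf_upper
    exact (hCq w z R hz hR).1.le
  have hlR : 0 ≤ Real.log R := Real.log_nonneg hR1
  have herr : Qf w z R ^ #H * (1 + 2 * #H * Real.log R) ^ (8 ^ #H) *
      (2 * Tl (fun p => dens p (Bad H b c p)) w z Δ +
        2 * 2 ^ Fintype.card V * (Δ : ℝ) ^ 2 * (R : ℝ) ^ (2 * #H) / m0 + 1 / z) ≤ η / 2 := by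
    refine le_trans ?_ hp
    refine mul_le_mul_of_nonneg_left ?_ (by positivity)
    have h1 : 2 * 2 ^ Fintype.card V * (Δ : ℝ) ^ 2 * (R : ℝ) ^ (2 * #H) / m0 ≤
        2 * 2 ^ Fintype.card V * (Δ : ℝ) ^ 2 * (R : ℝ) ^ (2 * #H) / (κ * M) :=
      div_le_div_of_nonneg_left (by positivity) hκM hm1
    linarith
  have h1 : |X * Y - X| ≤ η / 2 * X := by
    have h2 : X * Y - X = X * (Y - 1) := by ring
    rw [h2, abs_mul, abs_of_nonneg hX0, mul_comm]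
    exact mul_le_mul_of_nonneg_right he' hX0
  have h2 := hcomb.trans (mul_le_mul_of_nonneg_left herr hX0)
  obtain ⟨Z, hZ⟩ : ∃ Z : ℝ, Z = ∑ v ∈ box A l, ∏ e ∈ H, nu w z R ρ (psi b c e v) := ⟨_, rfl⟩
  rw [← hZ] at h2 ⊢
  have h3 : Z - X = (Z - X * Y) + (X * Y - X) := by ring
  rw [h3]
  refine (abs_add_le _ _).trans ?_
  linarith

end PoolPK
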