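import Pool.Agent.Work.MP_70e905_nt.PK.P.Defs

/-!
# PK/P/Leg (size S-M): truncated Legendre formula

PROOF. If `∏ T ≤ Δ` then `fam T Δ` is the whole powerset and the sum is `1` for `T = ∅`, `0` otherwise
(`Finset.sum_powerset_neg_one_pow_card`). If `∏ T > Δ ≥ 1` then `T ≠ ∅`; fix `p ∈ T`. The map `K ↦ K ∪ {p}` pairs the
`K ∈ fam T Δ` not containing `p` for which also `p ∏ K ≤ Δ` with the elements of `fam T Δ` containing `p` (inverse `K ↦ K \ {p}`), and the two terms
of a pair cancel. There remain the `K ∈ fam T Δ`, `p ∉ K`, with `p ∏ K > Δ`, and these satisfy `Δ < z ∏ K`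
(`p ≤ z`); so the absolute value of the sum is at most their number. `card_fam`: the map `K ↦ ∏ K` is injective on sets of primes
(`Nat.primeFactors_prod`) with values in `[1, Δ]`.
-/

set_option autoImplicit false

namespace PoolPK

open Finset

theorem legendre (z Δ : ℕ) (hΔ : 1 ≤ Δ) (T : Finset ℕ) (hT : ∀ p ∈ T, p.Prime ∧ p ≤ z) :
    |(if T = ∅ then (1 : ℝ) else 0) - ∑ K ∈ fam T Δ, (-1 : ℝ) ^ #K| ≤
      (#((fam T Δ).filter (fun K => Δ < z * ∏ p ∈ K, p)) : ℝ) := by
  classical
  rcases T.eq_empty_or_nonempty with hT0 | ⟨p, hp⟩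
  · subst hT0
    have h1 : fam ∅ Δ = {∅} := by
      unfold fam
      rw [Finset.powerset_empty]
      ext K
      simp only [Finset.mem_filter, Finset.mem_singleton]
      constructor
      · exact fun h => h.1
      · rintro rfl
        exact ⟨rfl, by simpa using hΔ⟩
    rw [h1]
    simp
  · rw [if_neg (Finset.ne_empty_of_mem hp), zero_sub, abs_neg]
    set F := fam T Δ with hF
    have hmem : ∀ K, K ∈ F ↔ K ⊆ T ∧ ∏ q ∈ K, q ≤ Δ := fun K => by
      rw [hF, fam, Finset.mem_filter, Finset.mem_powerset]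
    have hpp : p.Prime := (hT p hp).1
    rw [← Finset.sum_filter_add_sum_filter_not F (fun K => p ∈ K),
      ← Finset.sum_filter_add_sum_filter_not (F.filter (fun K => ¬ p ∈ K))
        (fun K => p * ∏ q ∈ K, q ≤ Δ)]
    have hbij : ∑ K ∈ F.filter (fun K => p ∈ K), (-1 : ℝ) ^ #K =
        -∑ K ∈ (F.filter (fun K => ¬ p ∈ K)).filter (fun K => p * ∏ q ∈ K, q ≤ Δ),
          (-1 : ℝ) ^ #K := by
      rw [← Finset.sum_neg_distrib]
      refine Finset.sum_nbij' (fun K => K.erase p) (fun K => insert p K) ?_ ?_ ?_ ?_ ?_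
      · intro K hK
        rw [Finset.mem_filter, hmem] at hK
        obtain ⟨⟨h1, h2⟩, h3⟩ := hK
        rw [Finset.mem_filter, Finset.mem_filter, hmem]
        have h4 : p * ∏ q ∈ K.erase p, q = ∏ q ∈ K, q :=
          Finset.mul_prod_erase K (fun q => q) h3
        refine ⟨⟨⟨(Finset.erase_subset _ _).trans h1, ?_⟩, Finset.notMem_erase _ _⟩, ?_⟩
        · calc ∏ q ∈ K.erase p, q ≤ p * ∏ q ∈ K.erase p, q :=
              Nat.le_mul_of_pos_left _ hpp.pos
            _ ≤ Δ := by rw [h4]; exact h2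
        · rw [h4]
          exact h2
      · intro K hK
        rw [Finset.mem_filter, Finset.mem_filter, hmem] at hK
        obtain ⟨⟨⟨h1, h2⟩, h3⟩, h4⟩ := hK
        rw [Finset.mem_filter, hmem]
        refine ⟨⟨Finset.insert_subset hp h1, ?_⟩, Finset.mem_insert_self _ _⟩
        rw [Finset.prod_insert h3]
        exact h4
      · intro K hK
        rw [Finset.mem_filter] at hK
        exact Finset.insert_erase hK.2
      · intro K hK
        rw [Finset.mem_filter, Finset.mem_filter] at hK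
        exact Finset.erase_insert hK.1.2
      · intro K hK
        rw [Finset.mem_filter] at hK
        rw [Finset.card_erase_of_mem hK.2]
        obtain ⟨k, hk⟩ : ∃ k, #K = k + 1 :=
          ⟨#K - 1, by have := Finset.card_pos.mpr ⟨p, hK.2⟩; omega⟩
        rw [hk, Nat.add_sub_cancel, pow_succ]
        ring
    rw [hbij, neg_add_cancel_left]
    refine (Finset.abs_sum_le_sum_abs _ _).trans ?_
    have h1 : ∀ K ∈ (F.filter (fun K => ¬ p ∈ K)).filter (fun K => ¬ p * ∏ q ∈ K, q ≤ Δ),
        |(-1 : ℝ) ^ #K| = 1 := fun K _ => by rw [abs_pow, abs_neg, abs_one, one_pow]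
    rw [Finset.sum_congr rfl h1, Finset.sum_const, nsmul_eq_mul, mul_one]
    have h2 : #((F.filter (fun K => ¬ p ∈ K)).filter (fun K => ¬ p * ∏ q ∈ K, q ≤ Δ)) ≤
        #(F.filter (fun K => Δ < z * ∏ p ∈ K, p)) := by
      apply Finset.card_le_card
      intro K hK
      rw [Finset.mem_filter, Finset.mem_filter] at hK
      obtain ⟨⟨h3, -⟩, h4⟩ := hK
      rw [Finset.mem_filter]
      refine ⟨h3, ?_⟩
      push Not at h4
      exact lt_of_lt_of_le h4 (Nat.mul_le_mul_right _ (hT p hp).2)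
    exact_mod_cast h2

theorem card_fam (P : Finset ℕ) (hP : ∀ p ∈ P, p.Prime) (Δ : ℕ) : #(fam P Δ) ≤ Δ := by
  have h1 : #(fam P Δ) ≤ #(Finset.Icc 1 Δ) := by
    apply Finset.card_le_card_of_injOn (fun K => ∏ p ∈ K, p)
    · intro K hK
      rw [Finset.mem_coe, fam, Finset.mem_filter, Finset.mem_powerset] at hK
      rw [Finset.mem_coe, Finset.mem_Icc]
      exact ⟨Finset.prod_pos fun p hp => (hP p (hK.1 hp)).pos, hK.2⟩
    · intro K hK L hL h
      rw [Finset.mem_coe, fam, Finset.mem_filter, Finset.mem_powerset] at hK hL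
      have h2 := Nat.primeFactors_prod (fun p hp => hP p (hK.1 hp))
      have h3 := Nat.primeFactors_prod (fun p hp => hP p (hL.1 hp))
      beta_reduce at h
      rw [← h2, ← h3, h]
  rwa [Nat.card_Icc, Nat.add_sub_cancel] at h1

end PoolPK
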