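import Pool.Agent.Work.MP_70e905_nt.PK.P.Defs

/-!
# PK/P/Loc (size M): local densities of one and of two forms

PROOF. General remark: let `x : V`, let `C : (V → ℤ) → Prop` be a condition which does not depend on the coordinate
`x`, and let `D` be a condition such that for every `v ∈ cube V p` exactly one value `v x ∈ [0, p)` (the other coordinates
fixed) satisfies `D`. Then `#{v ∈ cube : C v ∧ D v} = #{v ∈ cube : C v} / p` (fibres of `v ↦ Function.update v x 0`,
for instance). For `dens_edge`: `C = True`, `x = e.2`, `D v = (p ∣ b e + c e (v e.2 - v e.1))`: as `c e` is a unit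
modulo `p` (`p` prime, `p ∤ c e`) and `e.1 ≠ e.2`, there is exactly one `v e.2` modulo `p`. For `dens_two`: `x` is the end of `f`
which is no end of `e`; `C v = (p ∣ psi b c e v)` does not depend on `v x`, and `p ∣ psi b c f v` has exactly one solution
`v x` modulo `p` (`x = f.1` or `x = f.2`, the coefficient of `v x` is `∓ c f`). So the density is `(1 / p) (1 / p)`.
-/

set_option autoImplicit false

namespace PoolPK

open Finset

variable {V : Type} [Fintype V] [DecidableEq V]

private theorem uniq_sol {p : ℕ} (hp : p.Prime) {c : ℤ} (hc : ¬ (p : ℤ) ∣ c) (a : ℤ) :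
    ∃ t : ℤ, (0 ≤ t ∧ t < p ∧ (p : ℤ) ∣ a + c * t) ∧
      ∀ t' : ℤ, 0 ≤ t' → t' < p → (p : ℤ) ∣ a + c * t' → t' = t := by
  have hp0 : (0 : ℤ) < p := by exact_mod_cast hp.pos
  have hpi : Prime (p : ℤ) := Nat.prime_iff_prime_int.1 hp
  have hcop : IsCoprime (p : ℤ) c := (hpi.irreducible.coprime_iff_not_dvd).2 hc
  obtain ⟨w, u, hu⟩ := hcop
  refine ⟨(-a * u) % p, ⟨Int.emod_nonneg _ hp0.ne', Int.emod_lt_of_pos _ hp0, ?_⟩, ?_⟩
  · have h1 : (-a * u) % p = -a * u - p * ((-a * u) / p) := by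
      have := Int.emod_add_mul_ediv (-a * u) p
      linarith
    rw [h1]
    refine ⟨a * w - c * ((-a * u) / p), ?_⟩
    linear_combination (-a) * hu
  · intro t' h0 h1 h2
    have h3 : (p : ℤ) ∣ a + c * (-a * u) := ⟨a * w, by linear_combination (-a) * hu⟩
    have h4 : (p : ℤ) ∣ c * (t' - (-a * u)) := by
      have := dvd_sub h2 h3
      have e : a + c * t' - (a + c * (-a * u)) = c * (t' - (-a * u)) := by ring
      rwa [e] at this
    have h5 : (p : ℤ) ∣ t' - (-a * u) := (hpi.dvd_or_dvd h4).resolve_left hc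
    have h6 : t' % p = (-a * u) % p := Int.emod_eq_emod_iff_emod_sub_eq_zero.2
      (Int.emod_eq_zero_of_dvd h5)
    rw [← h6, Int.emod_eq_of_lt h0 h1]

private theorem mem_cube {q : ℕ} {v : V → ℤ} : v ∈ cube V q ↔ ∀ i, 0 ≤ v i ∧ v i < q := by
  unfold cube
  rw [Fintype.mem_piFinset]
  simp only [mem_Ico]

private theorem upd_mem {q : ℕ} {v : V → ℤ} (hv : v ∈ cube V q) (x : V) {t : ℤ} (h0 : 0 ≤ t)
    (h1 : t < q) : Function.update v x t ∈ cube V q := by
  rw [mem_cube] at hv ⊢
  intro i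
  by_cases hi : i = x
  · subst hi
    rw [Function.update_self]
    exact ⟨h0, h1⟩
  · rw [Function.update_of_ne hi]
    exact hv i

open Classical in
private theorem fib_card (q : ℕ) (x : V) (C D : (V → ℤ) → Prop)
    (hC : ∀ v t, C (Function.update v x t) ↔ C v)
    (hD : ∀ v : V → ℤ, ∃ t : ℤ, (0 ≤ t ∧ t < q ∧ D (Function.update v x t)) ∧
      ∀ t' : ℤ, 0 ≤ t' → t' < q → D (Function.update v x t') → t' = t) :
    #((cube V q).filter (fun v => C v ∧ D v)) * q = #((cube V q).filter C) := by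
  have h1 : #(((cube V q).filter (fun v => C v ∧ D v)) ×ˢ (Ico (0 : ℤ) q)) =
      #((cube V q).filter C) := by
    refine card_bij (fun z _ => Function.update z.1 x z.2) ?_ ?_ ?_
    · rintro ⟨v, t⟩ hz
      rw [mem_product, mem_filter, mem_Ico] at hz
      rw [mem_filter]
      exact ⟨upd_mem hz.1.1 x hz.2.1 hz.2.2, (hC _ _).2 hz.1.2.1⟩
    · rintro ⟨v, t⟩ hz ⟨v', t'⟩ hz' he
      rw [mem_product, mem_filter, mem_Ico] at hz hz'
      simp only at hz hz' he
      have ht : t = t' := by
        have := congrFun he x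
        rwa [Function.update_self, Function.update_self] at this
      have hoff : ∀ i, i ≠ x → v i = v' i := by
        intro i hi
        have := congrFun he i
        rwa [Function.update_of_ne hi, Function.update_of_ne hi] at this
      obtain ⟨t0, -, hu⟩ := hD v
      have hv := mem_cube.1 hz.1.1 x
      have hv' := mem_cube.1 hz'.1.1 x
      have e1 : v x = t0 := hu _ hv.1 hv.2 (by rw [Function.update_eq_self]; exact hz.1.2.2)
      have e2 : v' x = t0 := by
        refine hu _ hv'.1 hv'.2 ?_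
        have : Function.update v x (v' x) = v' := by
          funext i
          by_cases hi : i = x
          · subst hi
            rw [Function.update_self]
          · rw [Function.update_of_ne hi, hoff i hi]
        rw [this]
        exact hz'.1.2.2
      have hvv : v = v' := by
        funext i
        by_cases hi : i = x
        · subst hi
          rw [e1, e2]
        · exact hoff i hi
      rw [hvv, ht]
    · intro u hu
      rw [mem_filter] at hu
      obtain ⟨t0, ⟨h0, h1, h2⟩, -⟩ := hD u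
      have hux := mem_cube.1 hu.1 x
      refine ⟨(Function.update u x t0, u x), ?_, ?_⟩
      · rw [mem_product, mem_filter, mem_Ico]
        exact ⟨⟨upd_mem hu.1 x h0 h1, (hC _ _).2 hu.2, h2⟩, hux⟩
      · show Function.update (Function.update u x t0) x (u x) = u
        rw [Function.update_idem, Function.update_eq_self]
  rw [card_product, Int.card_Ico, sub_zero, Int.toNat_natCast] at h1
  exact h1

private theorem dens_fib {q : ℕ} (hq : 0 < q) (x : V) (C D : (V → ℤ) → Prop)
    (hC : ∀ v t, C (Function.update v x t) ↔ C v)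
    (hD : ∀ v : V → ℤ, ∃ t : ℤ, (0 ≤ t ∧ t < q ∧ D (Function.update v x t)) ∧
      ∀ t' : ℤ, 0 ≤ t' → t' < q → D (Function.update v x t') → t' = t) :
    dens q (fun v => C v ∧ D v) = dens q C / q := by
  classical
  have h := fib_card q x C D hC hD
  have hq' : (q : ℝ) ≠ 0 := by positivity
  unfold dens
  rw [← h]
  push_cast
  field_simp
  congr!

private theorem dens_true (q : ℕ) (hq : 0 < q) : dens q (fun _ : V → ℤ => True) = 1 := by
  unfold dens
  rw [filter_true, cube, Fintype.card_piFinset, prod_const, card_univ, Int.card_Ico, sub_zero,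
    Int.toNat_natCast]
  push_cast
  exact div_self (by positivity)

private theorem psi_upd_snd (b c : V × V → ℤ) (e : V × V) (he : e.1 ≠ e.2) (v : V → ℤ) (t : ℤ) :
    psi b c e (Function.update v e.2 t) = (b e - c e * v e.1) + c e * t := by
  unfold psi
  rw [Function.update_self, Function.update_of_ne he]
  ring

private theorem psi_upd_fst (b c : V × V → ℤ) (e : V × V) (he : e.1 ≠ e.2) (v : V → ℤ) (t : ℤ) :
    psi b c e (Function.update v e.1 t) = (b e + c e * v e.2) + (-c e) * t := by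
  unfold psi
  rw [Function.update_self, Function.update_of_ne he.symm]
  ring

private theorem sol_snd (b c : V × V → ℤ) (e : V × V) (p : ℕ) (hp : p.Prime) (he : e.1 ≠ e.2)
    (hc : ¬ (p : ℤ) ∣ c e) (v : V → ℤ) :
    ∃ t : ℤ, (0 ≤ t ∧ t < p ∧ (p : ℤ) ∣ psi b c e (Function.update v e.2 t)) ∧
      ∀ t' : ℤ, 0 ≤ t' → t' < p → (p : ℤ) ∣ psi b c e (Function.update v e.2 t') → t' = t := by
  simp only [psi_upd_snd b c e he]
  exact uniq_sol hp hc _

private theorem sol_fst (b c : V × V → ℤ) (e : V × V) (p : ℕ) (hp : p.Prime) (he : e.1 ≠ e.2)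
    (hc : ¬ (p : ℤ) ∣ c e) (v : V → ℤ) :
    ∃ t : ℤ, (0 ≤ t ∧ t < p ∧ (p : ℤ) ∣ psi b c e (Function.update v e.1 t)) ∧
      ∀ t' : ℤ, 0 ≤ t' → t' < p → (p : ℤ) ∣ psi b c e (Function.update v e.1 t') → t' = t := by
  simp only [psi_upd_fst b c e he]
  exact uniq_sol hp (by rwa [dvd_neg]) _

theorem dens_edge (b c : V × V → ℤ) (e : V × V) (p : ℕ) (hp : p.Prime) (he : e.1 ≠ e.2)
    (hc : ¬ (p : ℤ) ∣ c e) :
    dens p (fun v : V → ℤ => (p : ℤ) ∣ psi b c e v) = 1 / (p : ℝ) := by
  have h := dens_fib hp.pos e.2 (fun _ => True) (fun v => (p : ℤ) ∣ psi b c e v)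
    (fun _ _ => Iff.rfl) (sol_snd b c e p hp he hc)
  rw [dens_true p hp.pos] at h
  rw [← h]
  congr 1
  funext v
  rw [true_and]

theorem dens_two (b c : V × V → ℤ) (e f : V × V) (p : ℕ) (hp : p.Prime) (he : e.1 ≠ e.2)
    (hf : f.1 ≠ f.2) (hc : ¬ (p : ℤ) ∣ c e) (hcf : ¬ (p : ℤ) ∣ c f)
    (hx : ∃ x, (x = f.1 ∨ x = f.2) ∧ x ≠ e.1 ∧ x ≠ e.2) :
    dens p (fun v : V → ℤ => (p : ℤ) ∣ psi b c e v ∧ (p : ℤ) ∣ psi b c f v) = 1 / (p : ℝ) ^ 2 := by
  obtain ⟨x, hx1, hx2, hx3⟩ := hx
  have hC : ∀ (v : V → ℤ) (t : ℤ), (p : ℤ) ∣ psi b c e (Function.update v x t) ↔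
      (p : ℤ) ∣ psi b c e v := by
    intro v t
    unfold psi
    rw [Function.update_of_ne hx2.symm, Function.update_of_ne hx3.symm]
  have hD : ∀ v : V → ℤ, ∃ t : ℤ,
      (0 ≤ t ∧ t < p ∧ (p : ℤ) ∣ psi b c f (Function.update v x t)) ∧
      ∀ t' : ℤ, 0 ≤ t' → t' < p → (p : ℤ) ∣ psi b c f (Function.update v x t') → t' = t := by
    rcases hx1 with rfl | rfl
    · exact sol_fst b c f p hp hf hcf
    · exact sol_snd b c f p hp hf hcf
  rw [dens_fib hp.pos x (fun v => (p : ℤ) ∣ psi b c e v) (fun v => (p : ℤ) ∣ psi b c f v) hC hD,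
    dens_edge b c e p hp he hc, div_div, sq]

end PoolPK
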