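import Pool.Agent.Work.MP_70e905_nt.PK.P.Defs

/-!
# PK/P/ParD : the parameters (fixed file, do not change)
-/

set_option autoImplicit false

namespace PoolPK

open Finset

/-- exponent of `log M` in the sieving limit -/
def Bex (hm : ℕ) : ℕ := 3 * hm + 8 ^ hm + 1

/-- the sieving limit `z` -/
noncomputable def zf (hm M : ℕ) : ℕ := ⌊Real.log M ^ Bex hm⌋₊

/-- the level `R` of the Selberg weights -/
noncomputable def Rf (hm M : ℕ) : ℕ := ⌊(M : ℝ) ^ ((1 : ℝ) / (32 * (hm + 1)))⌋₊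

/-- the truncation `Δ` of the Legendre formula -/
noncomputable def Df (M : ℕ) : ℕ := ⌊(M : ℝ) ^ ((1 : ℝ) / 8)⌋₊

end PoolPK
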