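import Pool.Agent.Work.MP_70e905_nt.PK.P.Den
import Pool.Agent.Work.MP_70e905_nt.PK.P.BoxC
import Pool.Agent.Work.MP_70e905_nt.PK.P.Leg

/-!
# PK/P/Sift (size M-L): the number of `v` in the box with all conditions

PROOF. Let `P₀ = prs w z`, `U = Un H S`, `g p = dens p (Bad H b c p) ∈ [0, 1]`, `n = card V`, `X = ∏ l i`. For `K ⊆ P₀`
with `∏ K ≤ Δ` let `N K = #{v ∈ box : (∀ p ∈ U, All p v) ∧ (∀ p ∈ K, Bad p v)}`. `K` and `U` are disjoint sets of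
primes (the elements of `U` are `> z`), so with the condition `C p = if p ≤ z then Bad p else All p` the two
conditions together are `∀ p ∈ K ∪ U, C p v`, which is periodic modulo `∏ (K ∪ U) = ∏ K ∏ U ≤ Δ ∏ U ≤ m0` with
density `(∏_{p ∈ K} g p) * alp` (`dens_prod`, `per_all_prod`). `box_count`:
`|N K - X alp g(K)| ≤ X alp g(K) 2 ^ n ∏ K ∏ U / m0`, where `g(K) = ∏_{p ∈ K} g p`.
For `v` in the box with `∀ p ∈ U, All p v` let `B v = {p ∈ P₀ : Bad p v}`. `legendre` for `T = B v`: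
`|[B v = ∅] - ∑_{K ∈ fam P₀ Δ, K ⊆ B v} (-1) ^ #K| ≤ #{K ∈ fam P₀ Δ : K ⊆ B v, Δ < z ∏ K}` (`fam (B v) Δ = {K ∈ fam P₀ Δ : K ⊆ B v}`).
Sum over `v`: `|cnt - ∑_{K ∈ fam P₀ Δ} (-1) ^ #K N K| ≤ ∑_{K ∈ fam P₀ Δ, Δ < z ∏ K} N K`. Now
* `∑_{K ∈ fam P₀ Δ} X alp g(K) 2 ^ n ∏ K ∏ U / m0 ≤ X alp 2 ^ n Δ ^ 2 ∏ U / m0` (`g ≤ 1`, `∏ K ≤ Δ`, `card_fam`);
* `∑_{K ∈ fam P₀ Δ, Δ < z ∏ K} N K ≤ X alp (Tl g w z Δ + 2 ^ n Δ ^ 2 ∏ U / m0)`;
* `∑_{K ∈ fam P₀ Δ} (-1) ^ #K g(K) = ∏_{p ∈ P₀} (1 - g p) - ∑_{K ⊆ P₀, ∏ K > Δ} (-1) ^ #K g(K)` (`Finset.prod_one_sub` type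
  expansion, `Finset.prod_add`) and the last sum is at most `Tl g w z Δ` in absolute value (`∏ K > Δ` implies `Δ < z ∏ K` if
  `z ≥ 1`; if `z = 0` then `P₀ = ∅` and the only `K = ∅` has `∏ K = 1 ≤ Δ`).
Adding up: at most `X alp (2 Tl + 2 * 2 ^ n Δ ^ 2 ∏ U / m0)`.
-/

set_option autoImplicit false

namespace PoolPK

open Finset

variable {V : Type} [Fintype V] [DecidableEq V]

private theorem mem_fam' {P : Finset ℕ} {R : ℕ} {K : Finset ℕ} :
    K ∈ fam P R ↔ K ⊆ P ∧ ∏ p ∈ K, p ≤ R := by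
  simp [fam]

open Classical in
private noncomputable def NK (H : Finset (V × V)) (b c : V × V → ℤ) (S : V × V → Finset ℕ)
    (A : V → ℤ) (l : V → ℕ) (K : Finset ℕ) : ℕ :=
  #((box A l).filter (fun v => (∀ p ∈ Un H S, All H b c S p v) ∧ ∀ p ∈ K, Bad H b c p v))

private theorem NK_est (H : Finset (V × V)) (b c : V × V → ℤ) (w z Δ m0 : ℕ)
    (S : V × V → Finset ℕ) (hS : ∀ e ∈ H, ∀ p ∈ S e, p.Prime ∧ z < p) (A : V → ℤ) (l : V → ℕ)
    (hl : ∀ i, m0 ≤ l i) (hm : Δ * ∏ p ∈ Un H S, p ≤ m0) (K : Finset ℕ)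
    (hK : K ∈ fam (prs w z) Δ) :
    |(NK H b c S A l K : ℝ) -
        (∏ i, (l i : ℝ)) * alp H b c S * ∏ p ∈ K, dens p (Bad H b c p)| ≤
      (∏ i, (l i : ℝ)) * alp H b c S * (∏ p ∈ K, dens p (Bad H b c p)) *
        (2 ^ Fintype.card V * ((∏ p ∈ K, (p : ℝ)) * (∏ p ∈ Un H S, (p : ℝ))) / m0) := by
  classical
  obtain ⟨hKP, hKR⟩ := mem_fam'.1 hK
  have hKz : ∀ p ∈ K, p.Prime ∧ p ≤ z := by
    intro p hp
    have h := hKP hp
    simp only [prs, Finset.mem_filter, Finset.mem_Ioc] at h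
    exact ⟨h.2, h.1.2⟩
  have hU : ∀ p ∈ Un H S, p.Prime ∧ z < p := by
    intro p hp
    simp only [Un, Finset.mem_biUnion] at hp
    obtain ⟨e, he, hpe⟩ := hp
    exact hS e he p hpe
  have hdisj : Disjoint K (Un H S) := by
    rw [Finset.disjoint_left]
    intro p hp hp'
    have h1 := (hKz p hp).2
    have h2 := (hU p hp').2
    omega
  obtain ⟨C, hC⟩ : ∃ C : ℕ → (V → ℤ) → Prop,
      ∀ p, C p = if p ≤ z then Bad H b c p else All H b c S p := ⟨_, fun p => rfl⟩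
  have hCK : ∀ p ∈ K, C p = Bad H b c p := fun p hp => by
    rw [hC, if_pos (hKz p hp).2]
  have hCU : ∀ p ∈ Un H S, C p = All H b c S p := fun p hp => by
    rw [hC, if_neg (not_le.2 (hU p hp).2)]
  have hper : ∀ p ∈ K ∪ Un H S, Per p (C p) := by
    intro p hp
    rcases Finset.mem_union.1 hp with h | h
    · rw [hCK p h]; exact per_bad H b c p
    · rw [hCU p h]; exact per_all H b c S p
  have hprime : ∀ p ∈ K ∪ Un H S, p.Prime := by
    intro p hp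
    rcases Finset.mem_union.1 hp with h | h
    · exact (hKz p h).1
    · exact (hU p h).1
  have hprod : ∏ p ∈ K ∪ Un H S, p = (∏ p ∈ K, p) * ∏ p ∈ Un H S, p := Finset.prod_union hdisj
  have hd := dens_prod (K ∪ Un H S) hprime C hper
  have hd2 : ∏ p ∈ K ∪ Un H S, dens p (C p) =
      (∏ p ∈ K, dens p (Bad H b c p)) * alp H b c S := by
    rw [Finset.prod_union hdisj]
    congr 1
    · exact Finset.prod_congr rfl fun p hp => by rw [hCK p hp]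
    · exact Finset.prod_congr rfl fun p hp => by rw [hCU p hp]
  have hq1 : 1 ≤ ∏ p ∈ K ∪ Un H S, p := Finset.prod_pos (fun p hp => (hprime p hp).pos)
  have hqm : ∏ p ∈ K ∪ Un H S, p ≤ m0 := by
    rw [hprod]; exact (Nat.mul_le_mul_right _ hKR).trans hm
  obtain ⟨Dp, hDp⟩ : ∃ Dp : (V → ℤ) → Prop, Dp = fun v => ∀ p ∈ K ∪ Un H S, C p v := ⟨_, rfl⟩
  have hb := box_count (∏ p ∈ K ∪ Un H S, p) hq1 Dp
    (by rw [hDp]; exact per_all_prod _ C hper) A l m0 hl hqm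
  have key : ∀ (s : Finset (V → ℤ)), (∀ v, v ∈ s ↔ v ∈ box A l ∧
      ((∀ p ∈ Un H S, All H b c S p v) ∧ ∀ p ∈ K, Bad H b c p v)) → #s = NK H b c S A l K := by
    intro s hs
    unfold NK
    congr 1
    ext v
    rw [hs, Finset.mem_filter]
  have hdd : dens (∏ p ∈ K ∪ Un H S, p) Dp =
      (∏ p ∈ K, dens p (Bad H b c p)) * alp H b c S := by
    rw [hDp]; exact hd.trans hd2
  rw [hdd, key _ (by
    intro v
    rw [Finset.mem_filter]
    refine and_congr_right fun _ => ?_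
    rw [hDp]
    constructor
    · intro h
      exact ⟨fun p hp => by rw [← hCU p hp]; exact h p (Finset.mem_union_right _ hp),
        fun p hp => by rw [← hCK p hp]; exact h p (Finset.mem_union_left _ hp)⟩
    · rintro ⟨h1, h2⟩ p hp
      rcases Finset.mem_union.1 hp with h | h
      · rw [hCK p h]; exact h2 p h
      · rw [hCU p h]; exact h1 p h), hprod] at hb
  push_cast at hb
  have e1 : (∏ i, (l i : ℝ)) * ((∏ p ∈ K, dens p (Bad H b c p)) * alp H b c S) =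
      (∏ i, (l i : ℝ)) * alp H b c S * ∏ p ∈ K, dens p (Bad H b c p) := by ring
  rw [e1] at hb
  exact hb

private theorem cnt_leg (H : Finset (V × V)) (b c : V × V → ℤ) (w z Δ : ℕ) (hΔ : 1 ≤ Δ)
    (S : V × V → Finset ℕ) (A : V → ℤ) (l : V → ℕ) :
    |(cnt H b c w z S A l : ℝ) -
        ∑ K ∈ fam (prs w z) Δ, (-1 : ℝ) ^ #K * (NK H b c S A l K : ℝ)| ≤
      ∑ K ∈ (fam (prs w z) Δ).filter (fun K => Δ < z * ∏ p ∈ K, p),
        (NK H b c S A l K : ℝ) := by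
  classical
  obtain ⟨D, hD⟩ : ∃ D : Finset (V → ℤ), ∀ v, v ∈ D ↔
      v ∈ box A l ∧ ∀ p ∈ Un H S, All H b c S p v :=
    ⟨(box A l).filter (fun v => ∀ p ∈ Un H S, All H b c S p v), fun v => Finset.mem_filter⟩
  obtain ⟨B, hB⟩ : ∃ B : (V → ℤ) → Finset ℕ, ∀ v p, p ∈ B v ↔ p ∈ prs w z ∧ Bad H b c p v :=
    ⟨fun v => (prs w z).filter (fun p => Bad H b c p v), fun v p => Finset.mem_filter⟩
  have hcnt : (cnt H b c w z S A l : ℝ) = ∑ v ∈ D, (if B v = ∅ then (1:ℝ) else 0) := by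
    rw [Finset.sum_boole]
    unfold cnt
    congr 2
    ext v
    simp only [Finset.mem_filter, hD]
    rw [and_assoc]
    refine and_congr_right fun _ => and_congr_right fun _ => ?_
    rw [Finset.eq_empty_iff_forall_notMem]
    constructor
    · intro h p hp
      exact h p ((hB v p).1 hp).1 ((hB v p).1 hp).2
    · intro h p hp hb
      exact h p ((hB v p).2 ⟨hp, hb⟩)
  have hNK : ∀ K ∈ fam (prs w z) Δ,
      (NK H b c S A l K : ℝ) = ∑ v ∈ D, (if K ⊆ B v then (1:ℝ) else 0) := by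
    intro K hK
    rw [Finset.sum_boole]
    unfold NK
    congr 2
    ext v
    simp only [Finset.mem_filter, hD]
    rw [and_assoc]
    refine and_congr_right fun _ => and_congr_right fun _ => ?_
    constructor
    · intro h p hp
      exact (hB v p).2 ⟨(mem_fam'.1 hK).1 hp, h p hp⟩
    · intro h p hp
      exact ((hB v p).1 (h hp)).2
  have hfam : ∀ v, fam (B v) Δ = (fam (prs w z) Δ).filter (fun K => K ⊆ B v) := by
    intro v
    ext K
    rw [Finset.mem_filter, mem_fam', mem_fam']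
    constructor
    · rintro ⟨h1, h2⟩
      exact ⟨⟨fun p hp => ((hB v p).1 (h1 hp)).1, h2⟩, h1⟩
    · rintro ⟨⟨_, h2⟩, h3⟩
      exact ⟨h3, h2⟩
  have h1 : ∑ K ∈ fam (prs w z) Δ, (-1 : ℝ) ^ #K * (NK H b c S A l K : ℝ) =
      ∑ v ∈ D, ∑ K ∈ fam (B v) Δ, (-1:ℝ) ^ #K := by
    have e1 : ∑ K ∈ fam (prs w z) Δ, (-1 : ℝ) ^ #K * (NK H b c S A l K : ℝ) =
        ∑ K ∈ fam (prs w z) Δ, ∑ v ∈ D, (if K ⊆ B v then (-1:ℝ) ^ #K else 0) := by
      refine Finset.sum_congr rfl fun K hK => ?_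
      rw [hNK K hK, Finset.mul_sum]
      refine Finset.sum_congr rfl fun v _ => ?_
      split_ifs <;> simp
    rw [e1, Finset.sum_comm]
    refine Finset.sum_congr rfl fun v _ => ?_
    rw [hfam v, Finset.sum_filter]
  have h2 : ∑ K ∈ (fam (prs w z) Δ).filter (fun K => Δ < z * ∏ p ∈ K, p),
        (NK H b c S A l K : ℝ) =
      ∑ v ∈ D, (#((fam (B v) Δ).filter (fun K => Δ < z * ∏ p ∈ K, p)) : ℝ) := by
    have e1 : ∑ K ∈ (fam (prs w z) Δ).filter (fun K => Δ < z * ∏ p ∈ K, p),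
        (NK H b c S A l K : ℝ) =
        ∑ K ∈ (fam (prs w z) Δ).filter (fun K => Δ < z * ∏ p ∈ K, p),
          ∑ v ∈ D, (if K ⊆ B v then (1:ℝ) else 0) :=
      Finset.sum_congr rfl fun K hK => hNK K (Finset.mem_filter.1 hK).1
    rw [e1, Finset.sum_comm]
    refine Finset.sum_congr rfl fun v _ => ?_
    rw [Finset.sum_boole, hfam v, Finset.filter_filter, Finset.filter_filter]
    congr 2
    ext K
    simp only [Finset.mem_filter]
    tauto
  rw [hcnt, h1, h2, ← Finset.sum_sub_distrib]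
  refine (Finset.abs_sum_le_sum_abs _ _).trans (Finset.sum_le_sum fun v _ => ?_)
  refine legendre z Δ hΔ (B v) (fun p hp => ?_)
  have h := ((hB v p).1 hp).1
  simp only [prs, Finset.mem_filter, Finset.mem_Ioc] at h
  exact ⟨h.2, h.1.2⟩

private theorem sum_pow (g : ℕ → ℝ) (P : Finset ℕ) :
    ∏ p ∈ P, (1 - g p) = ∑ K ∈ P.powerset, (-1 : ℝ) ^ #K * ∏ p ∈ K, g p := by
  have h := Finset.prod_add (fun p => - g p) (fun _ => (1 : ℝ)) P
  have e : ∏ p ∈ P, (1 - g p) = ∏ p ∈ P, (- g p + 1) :=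
    Finset.prod_congr rfl fun p _ => by ring
  rw [e, h]
  refine Finset.sum_congr rfl fun K _ => ?_
  rw [Finset.prod_const_one, mul_one]
  have e2 : ∏ p ∈ K, - g p = ∏ p ∈ K, (-1) * g p := Finset.prod_congr rfl fun p _ => by ring
  rw [e2, Finset.prod_mul_distrib, Finset.prod_const]

private theorem main_trunc (g : ℕ → ℝ) (hg0 : ∀ p, 0 ≤ g p) (w z Δ : ℕ) (hΔ : 1 ≤ Δ) :
    |(∑ K ∈ fam (prs w z) Δ, (-1 : ℝ) ^ #K * ∏ p ∈ K, g p) - ∏ p ∈ prs w z, (1 - g p)| ≤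
      Tl g w z Δ := by
  classical
  rw [sum_pow]
  have hs : ∑ K ∈ (prs w z).powerset, (-1 : ℝ) ^ #K * ∏ p ∈ K, g p =
      (∑ K ∈ fam (prs w z) Δ, (-1 : ℝ) ^ #K * ∏ p ∈ K, g p) +
      ∑ K ∈ (prs w z).powerset.filter (fun K => ¬ ∏ p ∈ K, p ≤ Δ),
        (-1 : ℝ) ^ #K * ∏ p ∈ K, g p := by
    unfold fam
    rw [Finset.sum_filter_add_sum_filter_not]
  rw [hs, sub_add_cancel_left, abs_neg]
  refine (Finset.abs_sum_le_sum_abs _ _).trans ?_
  have h1 : ∑ K ∈ (prs w z).powerset.filter (fun K => ¬ ∏ p ∈ K, p ≤ Δ),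
        |(-1 : ℝ) ^ #K * ∏ p ∈ K, g p| =
      ∑ K ∈ (prs w z).powerset.filter (fun K => ¬ ∏ p ∈ K, p ≤ Δ), ∏ p ∈ K, g p := by
    refine Finset.sum_congr rfl fun K _ => ?_
    rw [abs_mul, abs_pow, abs_neg, abs_one, one_pow, one_mul,
      abs_of_nonneg (Finset.prod_nonneg fun p _ => hg0 p)]
  rw [h1]
  unfold Tl
  refine Finset.sum_le_sum_of_subset_of_nonneg ?_
    (fun K _ _ => Finset.prod_nonneg fun p _ => hg0 p)
  intro K hK
  rw [Finset.mem_filter] at hK ⊢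
  refine ⟨hK.1, ?_⟩
  have h2 : Δ < ∏ p ∈ K, p := not_le.1 hK.2
  rcases Nat.eq_zero_or_pos z with hz | hz
  · have hP : K = ∅ := by
      have := Finset.mem_powerset.1 hK.1
      rw [Finset.eq_empty_iff_forall_notMem]
      intro p hp
      have h := this hp
      simp only [prs, Finset.mem_filter, Finset.mem_Ioc] at h
      omega
    rw [hP] at h2
    simp only [Finset.prod_empty] at h2
    omega
  · exact lt_of_lt_of_le h2 (Nat.le_mul_of_pos_left _ hz)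

theorem cnt_asymp (H : Finset (V × V)) (b c : V × V → ℤ) (w z Δ m0 : ℕ) (hΔ : 1 ≤ Δ)
    (S : V × V → Finset ℕ) (hS : ∀ e ∈ H, ∀ p ∈ S e, p.Prime ∧ z < p) (A : V → ℤ) (l : V → ℕ)
    (hl : ∀ i, m0 ≤ l i) (hm : Δ * ∏ p ∈ Un H S, p ≤ m0) :
    |(cnt H b c w z S A l : ℝ) - (∏ i, (l i : ℝ)) * alp H b c S * Vf H b c w z| ≤
      (∏ i, (l i : ℝ)) * alp H b c S * (2 * Tl (fun p => dens p (Bad H b c p)) w z Δ +
        2 * 2 ^ Fintype.card V * (Δ : ℝ) ^ 2 * (∏ p ∈ Un H S, (p : ℝ)) / m0) := by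
  classical
  obtain ⟨g, hg⟩ : ∃ g : ℕ → ℝ, ∀ p, g p = dens p (Bad H b c p) := ⟨_, fun p => rfl⟩
  have hg0 : ∀ p, 0 ≤ g p := fun p => by rw [hg]; exact dens_nonneg _ _
  have hg1 : ∀ p, g p ≤ 1 := fun p => by rw [hg]; exact dens_le_one _ _
  have halp : 0 ≤ alp H b c S := Finset.prod_nonneg fun p _ => dens_nonneg _ _
  obtain ⟨X, hX⟩ : ∃ X : ℝ, X = ∏ i, (l i : ℝ) := ⟨_, rfl⟩
  have hX0 : 0 ≤ X := by rw [hX]; exact Finset.prod_nonneg fun i _ => Nat.cast_nonneg _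
  obtain ⟨Y, hY⟩ : ∃ Y : ℝ, Y = X * alp H b c S := ⟨_, rfl⟩
  have hY0 : 0 ≤ Y := by rw [hY]; exact mul_nonneg hX0 halp
  obtain ⟨u, hu⟩ : ∃ u : ℝ, u = ∏ p ∈ Un H S, (p : ℝ) := ⟨_, rfl⟩
  have hu0 : 0 ≤ u := by rw [hu]; exact Finset.prod_nonneg fun i _ => Nat.cast_nonneg _
  obtain ⟨n2, hn2⟩ : ∃ n2 : ℝ, n2 = 2 ^ Fintype.card V := ⟨_, rfl⟩
  have hn20 : 0 ≤ n2 := by rw [hn2]; positivity
  have hgf : (fun p => dens p (Bad H b c p)) = g := by
    funext p; exact (hg p).symm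
  have hest : ∀ K ∈ fam (prs w z) Δ, |(NK H b c S A l K : ℝ) - Y * ∏ p ∈ K, g p| ≤
      Y * (∏ p ∈ K, g p) * (n2 * ((∏ p ∈ K, (p : ℝ)) * u) / m0) := by
    intro K hK
    have h := NK_est H b c w z Δ m0 S hS A l hl hm K hK
    have e : ∏ p ∈ K, dens p (Bad H b c p) = ∏ p ∈ K, g p :=
      Finset.prod_congr rfl fun p _ => (hg p).symm
    rw [e, ← hX, ← hY, ← hu, ← hn2] at h
    exact h
  -- the uniform error of one term
  obtain ⟨E, hE⟩ : ∃ E : ℝ, E = n2 * (Δ : ℝ) * u / m0 := ⟨_, rfl⟩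
  have hE0 : 0 ≤ E := by rw [hE]; positivity
  have hP1 : ∀ K : Finset ℕ, 0 ≤ ∏ p ∈ K, g p := fun K => Finset.prod_nonneg fun p _ => hg0 p
  have hP2 : ∀ K : Finset ℕ, ∏ p ∈ K, g p ≤ 1 := fun K =>
    Finset.prod_le_one (fun p _ => hg0 p) (fun p _ => hg1 p)
  have herr : ∀ K ∈ fam (prs w z) Δ,
      Y * (∏ p ∈ K, g p) * (n2 * ((∏ p ∈ K, (p : ℝ)) * u) / m0) ≤ Y * E := by
    intro K hK
    have hKR := (mem_fam'.1 hK).2
    have hKR' : ∏ p ∈ K, (p : ℝ) ≤ Δ := by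
      have : ((∏ p ∈ K, p : ℕ) : ℝ) ≤ (Δ : ℝ) := by exact_mod_cast hKR
      rwa [Nat.cast_prod] at this
    have h1 : n2 * ((∏ p ∈ K, (p : ℝ)) * u) / m0 ≤ E := by
      rw [hE]
      apply div_le_div_of_nonneg_right _ (Nat.cast_nonneg _)
      rw [mul_assoc n2]
      exact mul_le_mul_of_nonneg_left (mul_le_mul_of_nonneg_right hKR' hu0) hn20
    have h0 : 0 ≤ n2 * ((∏ p ∈ K, (p : ℝ)) * u) / m0 := by
      apply div_nonneg _ (Nat.cast_nonneg _)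
      apply mul_nonneg hn20 (mul_nonneg _ hu0)
      exact Finset.prod_nonneg fun i _ => Nat.cast_nonneg _
    calc Y * (∏ p ∈ K, g p) * (n2 * ((∏ p ∈ K, (p : ℝ)) * u) / m0)
        ≤ Y * 1 * E := by
          apply mul_le_mul _ h1 h0 (by rw [mul_one]; exact hY0)
          exact mul_le_mul_of_nonneg_left (hP2 K) hY0
      _ = Y * E := by rw [mul_one]
  have hcard : (#(fam (prs w z) Δ) : ℝ) ≤ Δ := by
    have h := card_fam (prs w z) (fun p hp => by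
      simp only [prs, Finset.mem_filter] at hp
      exact hp.2) Δ
    exact_mod_cast h
  -- first part
  have hF1 : |(cnt H b c w z S A l : ℝ) -
        ∑ K ∈ fam (prs w z) Δ, (-1 : ℝ) ^ #K * (NK H b c S A l K : ℝ)| ≤
      Y * Tl g w z Δ + Δ * (Y * E) := by
    refine (cnt_leg H b c w z Δ hΔ S A l).trans ?_
    have h1 : ∀ K ∈ (fam (prs w z) Δ).filter (fun K => Δ < z * ∏ p ∈ K, p),
        (NK H b c S A l K : ℝ) ≤ Y * (∏ p ∈ K, g p) + Y * E := by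
      intro K hK
      have hK' := (Finset.mem_filter.1 hK).1
      have h2 := (abs_le.1 (hest K hK')).2
      have h3 := herr K hK'
      linarith
    refine (Finset.sum_le_sum h1).trans ?_
    rw [Finset.sum_add_distrib, ← Finset.mul_sum, Finset.sum_const, nsmul_eq_mul]
    apply add_le_add
    · apply mul_le_mul_of_nonneg_left _ hY0
      unfold Tl
      refine Finset.sum_le_sum_of_subset_of_nonneg ?_ (fun K _ _ => hP1 K)
      intro K hK
      rw [Finset.mem_filter] at hK ⊢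
      exact ⟨Finset.mem_powerset.2 (mem_fam'.1 hK.1).1, hK.2⟩
    · apply mul_le_mul_of_nonneg_right _ (mul_nonneg hY0 hE0)
      refine le_trans ?_ hcard
      exact_mod_cast Finset.card_filter_le _ _
  -- second part
  have hF2 : |(∑ K ∈ fam (prs w z) Δ, (-1 : ℝ) ^ #K * (NK H b c S A l K : ℝ)) -
      Y * ∑ K ∈ fam (prs w z) Δ, (-1 : ℝ) ^ #K * ∏ p ∈ K, g p| ≤ Δ * (Y * E) := by
    rw [Finset.mul_sum, ← Finset.sum_sub_distrib]
    refine (Finset.abs_sum_le_sum_abs _ _).trans ?_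
    have h1 : ∀ K ∈ fam (prs w z) Δ,
        |(-1 : ℝ) ^ #K * (NK H b c S A l K : ℝ) - Y * ((-1 : ℝ) ^ #K * ∏ p ∈ K, g p)| ≤ Y * E := by
      intro K hK
      have e : (-1 : ℝ) ^ #K * (NK H b c S A l K : ℝ) - Y * ((-1 : ℝ) ^ #K * ∏ p ∈ K, g p) =
          (-1 : ℝ) ^ #K * ((NK H b c S A l K : ℝ) - Y * ∏ p ∈ K, g p) := by ring
      rw [e, abs_mul, abs_pow, abs_neg, abs_one, one_pow, one_mul]
      exact (hest K hK).trans (herr K hK)
    refine (Finset.sum_le_sum h1).trans ?_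
    rw [Finset.sum_const, nsmul_eq_mul]
    exact mul_le_mul_of_nonneg_right hcard (mul_nonneg hY0 hE0)
  -- third part
  have hF3 : |Y * (∑ K ∈ fam (prs w z) Δ, (-1 : ℝ) ^ #K * ∏ p ∈ K, g p) -
      Y * Vf H b c w z| ≤ Y * Tl g w z Δ := by
    have h := main_trunc g hg0 w z Δ hΔ
    have e : Vf H b c w z = ∏ p ∈ prs w z, (1 - g p) := by
      unfold Vf
      exact Finset.prod_congr rfl fun p _ => by rw [hg]
    rw [e, ← mul_sub, abs_mul, abs_of_nonneg hY0]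
    exact mul_le_mul_of_nonneg_left h hY0
  rw [hgf, ← hX, ← hY, ← hu, ← hn2]
  have htri : |(cnt H b c w z S A l : ℝ) - Y * Vf H b c w z| ≤
      (Y * Tl g w z Δ + Δ * (Y * E)) + Δ * (Y * E) + Y * Tl g w z Δ := by
    have h1 := abs_le.1 hF1
    have h2 := abs_le.1 hF2
    have h3 := abs_le.1 hF3
    rw [abs_le]
    constructor <;> linarith [h1.1, h1.2, h2.1, h2.2, h3.1, h3.2]
  refine htri.trans (le_of_eq ?_)
  rw [hE]
  ring

end PoolPK
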